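import Pool.Agent.Lib.H57C.D2
import Pool.Agent.Lib.H57C.MDefs
import Pool.Agent.Lib.H57C.SDefs

/-!
# Project H57T (MP_f686a1_nt): Chen's theorem with Maynard-Tao tuples, uniformly in the shifts. Definitions

See `PROOF.md` in this folder. The shifts `h ∈ H` and the target shift `a` may be as large as `N/100`; the primes of the
weight do not divide the differences of the elements of `H ∪ {a}`.
-/

open Finset

namespace Pool.Agent.Lib.H57T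

open Pool.Agent.Lib.H15P Pool.Agent.Lib.H92G Pool.Agent.Lib.H57M Pool.Agent.Lib.H57C
open Pool.Agent.Lib.H59C (Sq lg XX gq VV PR zz yy Tri BX wB remd sift)

noncomputable section

/-! ## The transfer theorem -/

open Classical in
/-- The hypotheses of the transfer theorem. `P`: the primes of the weight, `H`: the shifts, `i`: the form which is left
out, `R`: the bad classes modulo the primes `≤ W`, `T`: the target classes modulo the primes in `P'`. -/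
structure Hy {ι : Type} (s : Seq ι) (P H : Finset ℕ) (i : Option ℕ) (W p1 : ℕ)
    (R T : ℕ → Finset ℕ) (P' : Finset ℕ) (k b : ℕ) : Prop where
  w0 : ∀ j ∈ s.S, 0 ≤ s.wt j
  X0 : 0 ≤ s.X
  al : ∀ q c c' : ℕ, c ≡ c' [MOD q] → (s.Al q c ↔ s.Al q c')
  nev : ∀ j ∈ s.S, s.wt j ≠ 0 → ∀ q : ℕ, q.Prime → (q ∈ P ∨ (q ≤ W ∧ q ≠ p1)) → s.Al q (s.x j)
  hd0 : ∀ q : ℕ, q.Prime → 0 ≤ s.hd q
  hd2 : ∀ q : ℕ, q.Prime → s.hd q ≤ 2 / q
  hdq : ∀ q : ℕ, q.Prime → W < q → |s.hd q - 1 / q| ≤ 2 / (q : ℝ) ^ 2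
  Pp : ∀ p ∈ P, p.Prime ∧ W < p
  p1p : p1.Prime
  p1W : p1 ≤ W
  HD : ∀ p ∈ P, ∀ h ∈ H, ∀ h' ∈ H, h ≠ h' → ¬ h ≡ h' [MOD p]
  iH : ∀ h, i = some h → h ∈ H
  Rr : ∀ q, R q ⊆ range q
  Rk : ∀ q ∈ Ps W p1, (R q).card ≤ k
  R1 : ∀ q ∈ Ps W p1, (((R q).filter (fun c => s.Al q c)).card : ℝ) * s.hd q ≤ 1
  P'p : ∀ q ∈ P', q.Prime ∧ W < q
  Tr : ∀ q ∈ P', T q ⊆ range q
  Tk : ∀ q ∈ P', (T q).card ≤ k
  TA : ∀ q ∈ P', ∀ t ∈ T q, s.Al q t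
  TH : ∀ q ∈ P', ∀ t ∈ T q, ∀ h ∈ H, i ≠ some h → ¬ q ∣ t + h
  bad : (P.filter (fun p => ∃ h ∈ H, i ≠ some h ∧ ∃ c : ℕ, p ∣ c + h ∧ ¬ s.Al p c)).card ≤ b

/-- What is assumed about the weight (all shifts at most `n/100`, no prime of the weight divides a difference). -/
structure Pre0 (B cF : ℕ) (θ : ℝ) {K : ℕ} (w : Par K) (H : Finset ℕ) (n p1 : ℕ) : Prop where
  cardH : H.card = K
  HN : ∀ h ∈ H, 100 * h ≤ n
  HD : ∀ p ∈ w.P, ∀ h ∈ H, ∀ h' ∈ H, h ≠ h' → ¬ h ≡ h' [MOD p]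
  Wdef : w.W = ⌈Real.log n ^ B⌉₊
  PN : ∀ p ∈ w.P, (p : ℝ) ≤ (n : ℝ) ^ (1 / 100 : ℝ)
  p1p : p1.Prime
  p1W : p1 ≤ w.W
  exF : ExJ w.P (FC w H) (Real.log n ^ cF) 3 ((n : ℝ) ^ (2 * θ))

/-! ## The concrete situation: the target is `t + a` -/

/-- The bad classes modulo `q`: `q ∣ t + h` for some `h ∈ H`, or `q ∣ t + a`. -/
def Rb (a : ℕ) (H : Finset ℕ) (q : ℕ) : Finset ℕ :=
  (range q).filter (fun c => (∃ h ∈ H, q ∣ c + h) ∨ q ∣ c + a)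

/-- The target class modulo `q`. -/
def Tg (a q : ℕ) : Finset ℕ := (range q).filter (fun c => q ∣ c + a)

/-- The good primes in `(W, N]`: they divide no difference of different elements of `H ∪ {a}`. -/
def Pg (N W : ℕ) (H : Finset ℕ) (a : ℕ) : Finset ℕ :=
  (Ioc W N).filter (fun q => q.Prime ∧ (∀ h ∈ H, ¬ a ≡ h [MOD q]) ∧
    ∀ h ∈ H, ∀ h' ∈ H, h ≠ h' → ¬ h ≡ h' [MOD q])

/-- The weight with the condition that no prime `≤ W`, `≠ p1`, divides `(t + a) ∏ (t + h)`. -/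
def Fs {K : ℕ} (w : Par K) (H : Finset ℕ) (a p1 : ℕ) (i : Option ℕ) (t : ℕ) : ℝ :=
  FF w H i t * Sg (Ps w.W p1) (Rb a H) t

/-- Small primes, integers. -/
def Va (a W p1 : ℕ) (H : Finset ℕ) : ℝ := ∏ q ∈ Ps W p1, (1 - ((Rb a H q).card : ℝ) / q)

/-- Small primes, the sequences without the classes `0` (`t + h` prime, `t + a = q1 q2 q3`). -/
def Vb (a W p1 : ℕ) (H : Finset ℕ) : ℝ :=
  Va a W p1 H * ∏ q ∈ Ps W p1, ((q : ℝ) / ((q : ℝ) - 1))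

/-- The value of the switched sequence: congruent to `m q - a` modulo all `d ≤ N`. -/
def xv (N a : ℕ) (x : ℕ × ℕ) : ℕ := x.1 * x.2 + (N.factorial - 1) * a

/-- The total weight of the `t` with `t + h` prime. -/
def Xh {K : ℕ} (w : Par K) (H : Finset ℕ) (N a p1 h : ℕ) : ℝ :=
  XX (Ya N + h) (Yb N + h) * (AE w.P H (some h) (FC w H) * Vb a w.W p1 H)

/-- The total weight of the integers. -/
def Xi {K : ℕ} (w : Par K) (H : Finset ℕ) (N a p1 : ℕ) : ℝ :=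
  ((Yb N : ℝ) - Ya N) * (AE w.P H none (FC w H) * Va a w.W p1 H)

/-- The switched sequence. -/
def sC (N a M u v : ℕ) (α : ℕ → ℝ) : Seq (ℕ × ℕ) where
  S := BX M u v
  wt := wB α
  x := xv N a
  X := H59C.XB M u v α
  hd := gq
  Al := fun q c => ¬ q ∣ c + a

/-- The value of the target if `p = t + h`. -/
def tv (a h p : ℕ) : ℕ := p - h + a

/-- What is assumed about the parameters. -/
structure Pre (B cF : ℕ) (θ : ℝ) {K : ℕ} (w : Par K) (H : Finset ℕ) (N a p1 : ℕ) : Prop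
    extends Pre0 B cF θ w H N p1 where
  aN : 100 * a ≤ N
  aH : a ∉ H
  aD : ∀ p ∈ w.P, ∀ h ∈ H, ¬ a ≡ h [MOD p]
  even : ∀ h ∈ H, 2 ∣ a + h
  nf : ∀ q : ℕ, q.Prime → (Rb a H q).card < q

open Classical in
/-- Everything that is needed for the sieve. -/
structure Reg (B cF : ℕ) (θ G : ℝ) {K : ℕ} (w : Par K) (H : Finset ℕ) (N a p1 : ℕ) : Prop
    extends Pre B cF θ w H N a p1 where
  aen0 : 0 ≤ AE w.P H none (FC w H)
  aen : AE w.P H none (FC w H) ≤ 11 / 10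
  aes : ∀ h ∈ H, 36 / 100 * (1 + w.n * w.c) ^ 2 ≤ AE w.P H (some h) (FC w H)
  gain : G * Real.log N ≤ K * (1 + w.n * w.c) ^ 2 * Real.log w.W
  remB : ∀ h ∈ H, ∑ d ∈ Dv (Pg N w.W H a) (Lv N θ),
    |∑ p ∈ (Sq (Ya N + h) (Yb N + h)).filter (fun p => d ∣ tv a h p),
        lg p * Fs w H a p1 (some h) (p - h) -
      Xh w H N a p1 h / (Nat.totient d : ℝ)| ≤ N / Real.log N ^ 10
  remC : ∀ h ∈ H, ∀ (M u v : ℕ) (α : ℕ → ℝ), (∀ m, 0 ≤ α m ∧ α m ≤ 1) →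
    (∀ m, α m ≠ 0 → ∀ r : ℕ, r.Prime → r ∣ m → (N : ℝ) ^ (1 / 10 : ℝ) ≤ r) →
    (N : ℝ) ^ (1 / 4 : ℝ) ≤ M → (N : ℝ) ^ (1 / 4 : ℝ) ≤ u → u ≤ v → M * v ≤ 8 * N → ∀ z : ℝ,
    remd (BX M u v) (fun x => wB α x * Fs w H a p1 (some h) (xv N a x)) (fun x => xv N a x + h)
      (Pg N w.W H a) z (H59C.XB M u v α * (AE w.P H (some h) (FC w H) * Vb a w.W p1 H)) (Lv N θ) ≤
      N / Real.log N ^ 10
  remI : ∑ d ∈ Dv (Pg N w.W H a) (Lv N θ),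
    |∑ t ∈ (Ioc (Ya N) (Yb N)).filter (fun t => d ∣ t + a), Fs w H a p1 none t -
      Xi w H N a p1 / (Nat.totient d : ℝ)| ≤ N / Real.log N ^ 10
  remJ : ∀ h ∈ H, ∑ d ∈ Dv (Pg N w.W H a) (Lv N θ),
    |∑ t ∈ (Ioc (Ya N) (Yb N)).filter
        (fun t => p1 ∣ t + a ∧ ∀ q ∈ d.primeFactors, q ∣ t + a ∨ q ∣ t + h),
        Fs w H a p1 (some h) t -
      ((Yb N : ℝ) - Ya N) / p1 * (AE w.P H (some h) (FC w H) * Va a w.W p1 H) *
        ((2 : ℝ) ^ d.primeFactors.card / d)| ≤ N / Real.log N ^ 10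
  cls : ∀ h ∈ H, ∀ r c : ℕ, (r.Prime ∨ ∀ p ∈ w.P, r.Coprime p) → 1 ≤ r →
    ∑ t ∈ (Ioc (Ya N) (Yb N)).filter (fun t => t ≡ c [MOD r]), FF w H (some h) t ≤
      Real.log N ^ B * (N / r) / Real.log N ^ 20 + (N : ℝ) ^ (1 / 20 : ℝ)
  mom : ∑ t ∈ Icc 1 N, FF w H none t ^ 2 ≤ Real.log N ^ B * N

/-! ## Definitions for the weighted sieve -/

section

variable {K : ℕ} (w : Par K) (H : Finset ℕ) (N a p1 h : ℕ)

/-- The weight of the prime `p = t + h`. -/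
def wh (p : ℕ) : ℝ := lg p * Fs w H a p1 (some h) (p - h)

/-- `V(z)` -/
def Vz (N W : ℕ) (H : Finset ℕ) (a : ℕ) : ℝ := VV (Pg N W H a) (zz N)

/-- The bad primes in `(W, N]`: they divide some difference of different elements of `H ∪ {a}`. -/
def Bd (N W : ℕ) (H : Finset ℕ) (a : ℕ) : Finset ℕ :=
  (Ioc W N).filter (fun q => q.Prime ∧ ((∃ h ∈ H, a ≡ h [MOD q]) ∨
    ∃ h ∈ H, ∃ h' ∈ H, h ≠ h' ∧ h ≡ h' [MOD q]))

/-- The primes with weights. -/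
def Qc (N W : ℕ) (H : Finset ℕ) (a : ℕ) : Finset ℕ :=
  (PR (zz N) (yy N)).filter (fun q => q ∈ Pg N W H a)

/-- The first sum. -/
def S1s : ℝ := sift (Sh N h) (wh w H a p1 h) (fun p => tv a h p) (Pg N w.W H a) (zz N)

/-- The second sum. -/
def S2s : ℝ := ∑ q ∈ Qc N w.W H a, sift ((Sh N h).filter (fun p => q ∣ tv a h p))
  (wh w H a p1 h) (fun p => tv a h p) (Pg N w.W H a) (zz N)

open Classical in
/-- The third sum. -/
def S3s : ℝ := ∑ p ∈ (Sh N h).filter (fun p => Tri N (tv a h p)), wh w H a p1 h p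

open Classical in
/-- Exceptional: `p1` divides `t + a`. -/
def E1s : ℝ := ∑ p ∈ (Sh N h).filter (fun p => p1 ∣ tv a h p ∧
  ∀ q ∈ Pg N w.W H a, (q : ℝ) < zz N → ¬ q ∣ tv a h p), wh w H a p1 h p

/-- Exceptional: a bad prime divides `t + a`. -/
def E2s : ℝ := ∑ q ∈ Bd N w.W H a, ∑ p ∈ (Sh N h).filter (fun p => q ∣ tv a h p),
  wh w H a p1 h p

open Classical in
/-- Exceptional: squares. -/
def E3s : ℝ := ∑ p ∈ (Sh N h).filter
  (fun p => ∃ q : ℕ, q.Prime ∧ zz N ≤ q ∧ q ^ 2 ∣ tv a h p), wh w H a p1 h p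

/-- The negative part. -/
def Ns : ℝ := sift (Ioc (Ya N) (Yb N)) (Fs w H a p1 none) (fun t => t + a) (Pg N w.W H a) (zz N)

/-- The whole weighted sum. -/
def Tt (g : ℕ) : ℝ :=
  ∑ h ∈ H, (S1s w H N a p1 h - 1 / 2 * S2s w H N a p1 h - 1 / 2 * S3s w H N a p1 h -
    E1s w H N a p1 h - E2s w H N a p1 h - E3s w H N a p1 h) - ((g : ℝ) - 1) * Real.log (2 * N) *
    Ns w H N a p1

open Classical in
/-- The good `t` in the window. -/
def Gd (H : Finset ℕ) (N a g : ℕ) : Finset ℕ :=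
  (Ioc (Ya N) (Yb N)).filter (fun t => g ≤ (H.filter (fun h => (t + h).Prime)).card ∧
    AP2 N (t + a))

end

theorem Pre.to0 {B cF : ℕ} {θ : ℝ} {K : ℕ} {w : Par K} {H : Finset ℕ} {N a p1 : ℕ}
    (h : Pre B cF θ w H N a p1) : Pre0 B cF θ w H N p1 := h.toPre0

theorem Va_eq (a W p1 : ℕ) (H : Finset ℕ) : Va a W p1 H = VaR (Ps W p1) (Rb a H) := rfl

theorem Vb_eq (a W p1 : ℕ) (H : Finset ℕ) : Vb a W p1 H = VbR (Ps W p1) (Rb a H) := rfl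

theorem Fs_eq {K : ℕ} (w : Par K) (H : Finset ℕ) (a p1 : ℕ) (i : Option ℕ) (t : ℕ) :
    Fs w H a p1 i t = FF w H i t * Sg (Ps w.W p1) (Rb a H) t := rfl

end

end Pool.Agent.Lib.H57T
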