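import Pool.Agent.Lib.H57C.RA
import Pool.Agent.Lib.H57C.A2
import Pool.Agent.Lib.H57T.Defs

/-!
# Chunk RA: residue classes
-/

open Finset

namespace Pool.Agent.Lib.H57T

open Pool.Agent.Lib.H57C
open Pool.Agent.Lib.H57M
open Pool.Agent.Lib.H59C (gq)

theorem tg_mod {q h t : ℕ} : q ∣ t % q + h ↔ q ∣ t + h := by
  rw [Nat.dvd_iff_mod_eq_zero, Nat.dvd_iff_mod_eq_zero, Nat.add_mod t h, Nat.add_mod (t % q) h, Nat.mod_mod]

theorem tg_mem {h q t : ℕ} (hq : 0 < q) : t % q ∈ Tg h q ↔ q ∣ t + h := by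
  unfold Tg
  rw [mem_filter, mem_range, tg_mod]
  exact ⟨fun h => h.2, fun h => ⟨Nat.mod_lt _ hq, h⟩⟩

theorem tg_card {h q : ℕ} (hq : 0 < q) : (Tg h q).card = 1 := by
  rw [Finset.card_eq_one]
  refine ⟨(q - h % q) % q, ?_⟩
  ext c
  unfold Tg
  rw [mem_filter, mem_range, mem_singleton]
  constructor
  · rintro ⟨h1, h2⟩
    exact (a2_cls hq h1).1 h2
  · intro h1
    have hlt : c < q := by rw [h1]; exact Nat.mod_lt _ hq
    exact ⟨hlt, (a2_cls hq hlt).2 h1⟩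

theorem tg_inT (d t h : ℕ) (hd : Squarefree d) : inT (Tg h) d t ↔ d ∣ t + h := by
  unfold inT
  constructor
  · intro h1
    rw [← Nat.prod_primeFactors_of_squarefree hd]
    refine Finset.prod_primes_dvd _ (fun p hp => (Nat.prime_of_mem_primeFactors hp).prime) fun p hp => ?_
    exact (tg_mem (Nat.prime_of_mem_primeFactors hp).pos).1 (h1 p hp)
  · intro h1 q hq
    exact (tg_mem (Nat.prime_of_mem_primeFactors hq).pos).2 ((Nat.dvd_of_mem_primeFactors hq).trans h1)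

/-- Two classes. -/
theorem tg_ne {q t h h' : ℕ} (h1 : q ∣ t + h) (h2 : q ∣ t + h') : h ≡ h' [MOD q] := by
  have h3 : t + h ≡ t + h' [MOD q] :=
    ((Nat.modEq_zero_iff_dvd).2 h1).trans ((Nat.modEq_zero_iff_dvd).2 h2).symm
  exact Nat.ModEq.add_left_cancel' _ h3

theorem rb_sub {a : ℕ} {H : Finset ℕ} {q : ℕ} : Rb a H q ⊆ range q := filter_subset _ _

/-- At most `K + 1` bad classes: those of `-h`, `h ∈ H`, and `-a`. -/
theorem rb_card (a : ℕ) (H : Finset ℕ) (q : ℕ) : (Rb a H q).card ≤ H.card + 1 := by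
  classical
  have h1 : Rb a H q ⊆ insert ((q - a % q) % q) (H.image (fun h => (q - h % q) % q)) := by
    intro c hc
    unfold Rb at hc
    rw [mem_filter, mem_range] at hc
    obtain ⟨hcq, h2 | h2⟩ := hc
    · obtain ⟨h, hh, hd⟩ := h2
      exact mem_insert_of_mem (mem_image.2 ⟨h, hh, RA_res hcq hd⟩)
    · rw [mem_insert]
      left
      exact (RA_res hcq h2).symm
  refine (card_le_card h1).trans ((card_insert_le _ _).trans ?_)
  have := card_image_le (s := H) (f := fun h => (q - h % q) % q)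
  omega

theorem pg_spec {N W : ℕ} {H : Finset ℕ} {a q : ℕ} (hq : q ∈ Pg N W H a) :
    q.Prime ∧ W < q ∧ q ≤ N ∧ (∀ h ∈ H, ¬ a ≡ h [MOD q]) ∧
      ∀ h ∈ H, ∀ h' ∈ H, h ≠ h' → ¬ h ≡ h' [MOD q] := by
  unfold Pg at hq
  rw [mem_filter, mem_Ioc] at hq
  exact ⟨hq.2.1, hq.1.1, hq.1.2, hq.2.2.1, hq.2.2.2⟩

theorem pg_or_bd {N W : ℕ} {H : Finset ℕ} {a q : ℕ} (hq : q.Prime) (h1 : W < q) (h2 : q ≤ N) :
    q ∈ Pg N W H a ∨ q ∈ Bd N W H a := by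
  by_cases h : (∃ h ∈ H, a ≡ h [MOD q]) ∨ ∃ h ∈ H, ∃ h' ∈ H, h ≠ h' ∧ h ≡ h' [MOD q]
  · right
    unfold Bd
    rw [mem_filter, mem_Ioc]
    exact ⟨⟨h1, h2⟩, hq, h⟩
  · left
    push Not at h
    unfold Pg
    rw [mem_filter, mem_Ioc]
    exact ⟨⟨h1, h2⟩, hq, h.1, h.2⟩

theorem pre_hrt (B cF : ℕ) (θ : ℝ) {K : ℕ} (w : Par K) (H : Finset ℕ) (N a p1 : ℕ)
    (h : Pre B cF θ w H N a p1) :
    HRT K 1 w.W p1 H (Rb a H) (Tg a) (Pg N w.W H a) := by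
  have hPs : ∀ q ∈ Ps w.W p1, q.Prime := by
    intro q hq
    unfold Ps at hq
    exact (mem_filter.1 hq).2.1
  refine ⟨fun q => filter_subset _ _, fun q hq => ?_, fun q hq => h.nf q (hPs q hq), ?_,
    fun q hq => ⟨(pg_spec hq).1, (pg_spec hq).2.1⟩, fun q hq => ?_, fun q hq => ?_, ?_⟩
  · have h1 := rb_card a H q
    rwa [h.cardH] at h1
  · intro q hq h' hh' c hc hd
    unfold Rb
    rw [mem_filter, mem_range]
    exact ⟨hc, Or.inl ⟨h', hh', hd⟩⟩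
  · unfold Tg
    exact filter_subset _ _
  · exact (tg_card (pg_spec hq).1.pos).le
  · intro q hq t ht h' hh' hd
    unfold Tg at ht
    rw [mem_filter] at ht
    exact (pg_spec hq).2.2.2.1 h' hh' (tg_ne ht.2 hd)

/-- Small primes, `t + a = q1 q2 q3`. As `vs_C` (`H57C/A2.lean`), `a2_one` with `c0 q = (q - a % q) % q`. -/
theorem vs_C (a W p1 : ℕ) (H : Finset ℕ) :
    VS (Ps W p1) (Rb a H) gq (fun q c => ¬ q ∣ c + a) = Vb a W p1 H := by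
  rw [Vb_eq]
  refine vs_BR _ _ a (fun q hq => a2_Ps hq) (fun q _ => rb_sub) fun q hq c hc hd => ?_
  unfold Rb
  rw [mem_filter, mem_range]
  exact ⟨hc, Or.inr hd⟩

theorem va_low (K B : ℕ) : ∃ n0 : ℕ, ∀ N : ℕ, n0 ≤ N → ∀ (a W p1 : ℕ) (H : Finset ℕ),
    W = ⌈Real.log N ^ B⌉₊ → H.card = K → (∀ q : ℕ, q.Prime → (Rb a H q).card < q) →
    1 / Real.log N ≤ Va a W p1 H ∧ Va a W p1 H ≤ 1 := by
  obtain ⟨n0, h0⟩ := vaR_low (K + 1) B (by omega)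
  refine ⟨n0, fun N hN a W p1 H hW hH hnf => ?_⟩
  rw [Va_eq]
  refine h0 N hN W p1 (Rb a H) hW (fun q hq => ?_) fun q hq => hnf q (a2_Ps hq)
  rw [← hH]
  exact rb_card a H q

theorem vb_ge (a W p1 : ℕ) (H : Finset ℕ) (hW : 2 ≤ W) (hp : p1.Prime)
    (hV : 0 ≤ Va a W p1 H) :
    Real.log W / 4 * Va a W p1 H ≤ Vb a W p1 H ∧ Va a W p1 H ≤ Vb a W p1 H := by
  rw [Va_eq, Vb_eq] at *
  exact vbR_ge W p1 (Rb a H) hW hp hV

end Pool.Agent.Lib.H57T
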