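import Pool.Agent.Lib.H57C.S0
import Pool.Agent.Lib.H57T.RA

/-!
# Chunk S0: windows, `V(z)` and the size of the main term
-/

open Finset

namespace Pool.Agent.Lib.H57T

open Pool.Agent.Lib.H57C


open Pool.Agent.Lib.H57M
open Pool.Agent.Lib.H59C (Sq lg XX gq VV PR zz yy Tri sift Win)

/-- The window of project H59C with `2` instead of `N + h`. -/
theorem win_h (N h : ℕ) (hN : 1000 ≤ N) (hh : 100 * h ≤ N) : Win N 2 (Ya N + h) (Yb N + h) := by
  unfold Ya Yb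
  exact ⟨by omega, ⟨1, by norm_num⟩, by omega, by omega, by omega, by omega, by omega, Or.inr ⟨by omega, by omega⟩⟩

/-- The window for `t + a + 2`. -/
theorem win_a (N a : ℕ) (hN : 1000 ≤ N) (hh : 100 * a ≤ N) :
    Win N 2 (Ya N + a + 2) (Yb N + a + 2) := by
  unfold Ya Yb
  exact ⟨by omega, ⟨1, by norm_num⟩, by omega, by omega, by omega, by omega, by omega, Or.inr ⟨by omega, by omega⟩⟩

/-- Proof. `Pg` consists of primes `> W ≥ 2`, `VV` of a subset of the odd primes is at least the one of all odd primes in `[3, z)`: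
`VV_lower` with its `N = 1` (`c/log N ≤ VV`), and `VV ≤ 1`. -/
theorem vz_low : ∃ c : ℝ, 0 < c ∧ ∃ n0 : ℕ, ∀ N : ℕ, n0 ≤ N → ∀ (a W : ℕ) (H : Finset ℕ), 2 ≤ W →
    c / Real.log N ≤ Vz N W H a ∧ Vz N W H a ≤ 1 := by
  obtain ⟨c, hc, n0, hn0⟩ := Pool.Agent.Lib.H59C.VV_lower
  refine ⟨c, hc, max n0 1, fun N hN a W H hW => ?_⟩
  have hN1 : 1 ≤ N := le_trans (le_max_right _ _) hN
  have hN1' : (1 : ℝ) ≤ N := by exact_mod_cast hN1
  have hP : ∀ q ∈ Pg N W H a, q.Prime ∧ 3 ≤ q := by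
    intro q hq
    unfold Pg at hq
    rw [Finset.mem_filter, Finset.mem_Ioc] at hq
    exact ⟨hq.2.1, by omega⟩
  constructor
  · have h1 := hn0 N (le_trans (le_max_left _ _) hN) (Pg N W H a) 1 (zz N) one_pos (Nat.one_le_pow _ _ hN1)
      (by
        unfold zz
        exact Real.rpow_le_rpow_of_exponent_le hN1' (by norm_num))
      (by
        unfold zz
        calc (N : ℝ) ^ (1 / 8 : ℝ) ≤ (N : ℝ) ^ (1 : ℝ) := Real.rpow_le_rpow_of_exponent_le hN1' (by norm_num)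
          _ = N := Real.rpow_one _)
      (fun q hq => ⟨(hP q hq).1, (hP q hq).2, fun h => (hP q hq).1.one_lt.ne' (Nat.dvd_one.1 h)⟩)
    have h2 : (∏ q ∈ (1 : ℕ).primeFactors.filter (fun q => 2 < q), (((q : ℝ) - 1) / (q - 2))) = 1 := by
      rw [Nat.primeFactors_one]
      simp
    rw [h2, mul_one] at h1
    exact h1
  · unfold Vz VV Pool.Agent.Lib.H59C.VP
    have h1 : ∀ q ∈ (Pg N W H a).filter (fun q : ℕ => (q : ℝ) < zz N), 0 ≤ gq q ∧ gq q ≤ 1 := by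
      intro q hq
      have hq3 : (3 : ℝ) ≤ q := by exact_mod_cast (hP q (Finset.mem_filter.1 hq).1).2
      unfold gq
      constructor
      · exact div_nonneg zero_le_one (by linarith)
      · rw [div_le_one (by linarith)]
        linarith
    refine Finset.prod_le_one (fun q hq => ?_) fun q hq => ?_
    · linarith [(h1 q hq).2]
    · linarith [(h1 q hq).1]

/-- Proof. `Xh = XX AE Vb`, `XX ≥ N/20` (`XX_bounds` with `win_h`), `AE ≥ 36/100` (`aes`, `c ≥ 0`), `Vb ≥ Va ≥ 1/L` (`vb_ge`, `va_low`), `Vz ≥ c/L`: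
`Xh Vz ≥ c' N/L^2 ≥ N/L^3` for large `N`. -/
theorem main_low (K B cF : ℕ) (hK : 1 ≤ K) (θ G : ℝ) : ∃ n0 : ℕ, ∀ N : ℕ, n0 ≤ N →
    ∀ (w : Par K) (H : Finset ℕ) (a p1 : ℕ), Reg B cF θ G w H N a p1 → ∀ h ∈ H,
    N / Real.log N ^ 3 ≤ Xh w H N a p1 h * Vz N w.W H a ∧ 0 ≤ Xh w H N a p1 h ∧
    (N : ℝ) / 20 ≤ XX (Ya N + h) (Yb N + h) ∧ XX (Ya N + h) (Yb N + h) ≤ N / 5 := by
  obtain ⟨c, hc, n1, hn1⟩ := vz_low
  obtain ⟨n2, hn2⟩ := va_low K B
  obtain ⟨n3, hn3⟩ := Pool.Agent.Lib.H59C.XX_bounds (1 / 10) (by norm_num)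
  obtain ⟨n4, hn4⟩ := s0_large B (18 / 1000 * c) (by positivity)
  refine ⟨max (max n1 n2) (max n3 n4), fun N hN w H a p1 hR h hh => ?_⟩
  have hN1 : n1 ≤ N := le_trans (le_trans (le_max_left _ _) (le_max_left _ _)) hN
  have hN2 : n2 ≤ N := le_trans (le_trans (le_max_right _ _) (le_max_left _ _)) hN
  have hN3 : n3 ≤ N := le_trans (le_trans (le_max_left _ _) (le_max_right _ _)) hN
  have hN4 : n4 ≤ N := le_trans (le_trans (le_max_right _ _) (le_max_right _ _)) hN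
  obtain ⟨g1, g2, g3, g4⟩ := hn4 N hN4
  have hNr : (1000 : ℝ) ≤ N := by exact_mod_cast g1
  have hL0 : 0 < Real.log N := by linarith
  have hW4 : 4 ≤ w.W := by
    have := w.KW
    have h1 := w.Kpos
    nlinarith
  have hh100 : 100 * h ≤ N := hR.HN h hh
  have hwin := win_h N h g1 hh100
  obtain ⟨x1, x2⟩ := hn3 N hN3 _ _ _ hwin
  have hdl : (N : ℝ) / 10 - 1 ≤ ((Yb N + h : ℕ) : ℝ) - ((Ya N + h : ℕ) : ℝ) := by
    have : N ≤ 10 * (Yb N + h) - 10 * (Ya N + h) + 10 := by unfold Ya Yb; omega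
    have h2 : 10 * (Ya N + h) ≤ 10 * (Yb N + h) := by unfold Ya Yb; omega
    have h3 : N + 10 * (Ya N + h) ≤ 10 * (Yb N + h) + 10 := by omega
    have h4 : (N : ℝ) + 10 * ((Ya N + h : ℕ) : ℝ) ≤ 10 * ((Yb N + h : ℕ) : ℝ) + 10 := by exact_mod_cast h3
    linarith
  have hdu : ((Yb N + h : ℕ) : ℝ) - ((Ya N + h : ℕ) : ℝ) ≤ (N : ℝ) / 10 + 1 := by
    have h3 : 10 * (Yb N + h) ≤ N + 10 * (Ya N + h) + 10 := by unfold Ya Yb; omega
    have h4 : 10 * ((Yb N + h : ℕ) : ℝ) ≤ (N : ℝ) + 10 * ((Ya N + h : ℕ) : ℝ) + 10 := by exact_mod_cast h3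
    linarith
  have hX1 : (N : ℝ) / 20 ≤ XX (Ya N + h) (Yb N + h) := by
    refine le_trans ?_ x1
    nlinarith
  have hX2 : XX (Ya N + h) (Yb N + h) ≤ N / 5 := by
    refine le_trans x2 ?_
    nlinarith
  have hAE : 36 / 100 ≤ AE w.P H (some h) (FC w H) := by
    refine le_trans ?_ (hR.aes h hh)
    have h1 : 0 ≤ (w.n : ℝ) * w.c := mul_nonneg (Nat.cast_nonneg _) w.c0
    nlinarith
  obtain ⟨v1, _⟩ := hn2 N hN2 a w.W p1 H hR.Wdef hR.cardH hR.nf
  have hva0 : 0 ≤ Va a w.W p1 H := le_trans (by positivity) v1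
  have hvb : 1 / Real.log N ≤ Vb a w.W p1 H := le_trans v1 (vb_ge a w.W p1 H (by omega) hR.p1p hva0).2
  obtain ⟨z1, _⟩ := hn1 N hN1 a w.W H (by omega)
  have hXh : (N : ℝ) / 20 * (36 / 100 * (1 / Real.log N)) ≤ Xh w H N a p1 h := by
    unfold Xh
    refine mul_le_mul hX1 (mul_le_mul hAE hvb (by positivity) (by linarith)) (by positivity) (by linarith)
  have hXh0 : 0 ≤ Xh w H N a p1 h := le_trans (by positivity) hXh
  refine ⟨?_, hXh0, hX1, hX2⟩
  calc (N : ℝ) / Real.log N ^ 3 = N / Real.log N ^ 3 * 1 := (mul_one _).symm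
    _ ≤ N / Real.log N ^ 3 * (18 / 1000 * c * Real.log N) := mul_le_mul_of_nonneg_left g3 (by positivity)
    _ = (N : ℝ) / 20 * (36 / 100 * (1 / Real.log N)) * (c / Real.log N) := by
        field_simp
        ring
    _ ≤ Xh w H N a p1 h * Vz N w.W H a := mul_le_mul hXh z1 (by positivity) hXh0

end Pool.Agent.Lib.H57T
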