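import Pool.Agent.Lib.H57C.S3b
import Pool.Agent.Lib.H57T.Defs

/-!
# The primes dividing a difference
-/

open Finset

namespace Pool.Agent.Lib.H57T

open Pool.Agent.Lib.H57C

theorem s3b_dist {q x y : ℕ} (h : x ≡ y [MOD q]) : q ∣ Nat.dist x y := by
  rcases le_total x y with h1 | h1
  · rw [Nat.dist_eq_sub_of_le h1]
    exact (Nat.modEq_iff_dvd' h1).1 h
  · rw [Nat.dist_comm, Nat.dist_eq_sub_of_le h1]
    exact (Nat.modEq_iff_dvd' h1).1 h.symm

/-- The primes dividing a difference of different elements of `H ∪ {a}`. -/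
def Zd (H : Finset ℕ) (a : ℕ) : Finset ℕ :=
  H.biUnion (fun h => (Nat.dist a h).primeFactors) ∪
    (H ×ˢ H).biUnion (fun x => (Nat.dist x.1 x.2).primeFactors)

theorem zd_mem_a {H : Finset ℕ} {a q h : ℕ} (haH : a ∉ H) (hq : q.Prime) (hh : h ∈ H)
    (hm : a ≡ h [MOD q]) : q ∈ Zd H a := by
  unfold Zd
  rw [Finset.mem_union, Finset.mem_biUnion]
  left
  have hne : a ≠ h := fun e => haH (e ▸ hh)
  exact ⟨h, hh, Nat.mem_primeFactors.2 ⟨hq, s3b_dist hm, fun e => hne (Nat.eq_of_dist_eq_zero e)⟩⟩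

theorem zd_mem_h {H : Finset ℕ} {a q h h' : ℕ} (hq : q.Prime) (hh : h ∈ H) (hh' : h' ∈ H)
    (hne : h ≠ h') (hm : h ≡ h' [MOD q]) : q ∈ Zd H a := by
  unfold Zd
  rw [Finset.mem_union, Finset.mem_biUnion, Finset.mem_biUnion]
  right
  exact ⟨(h, h'), Finset.mem_product.2 ⟨hh, hh'⟩,
    Nat.mem_primeFactors.2 ⟨hq, s3b_dist hm, fun e => hne (Nat.eq_of_dist_eq_zero e)⟩⟩

/-- Every difference is at most `N` and has at most `2 log N` prime factors. -/
theorem zd_card (K : ℕ) : ∃ n0 : ℕ, ∀ N : ℕ, n0 ≤ N → ∀ (a : ℕ) (H : Finset ℕ), H.card = K →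
    (∀ h ∈ H, h ≤ N) → a ≤ N → ((Zd H a).card : ℝ) ≤ Real.log N ^ 2 := by
  obtain ⟨n0, hn0⟩ := Pool.Agent.Lib.H59C.cdl_log (4 * (K + K ^ 2) + 1)
  refine ⟨n0 + 2, fun N hN a H hK hH ha => ?_⟩
  have hL := hn0 N (by omega)
  have hN2 : (2 : ℝ) ≤ N := by exact_mod_cast (show 2 ≤ N by omega)
  have hone : ∀ m : ℕ, m ≤ N → ((m.primeFactors.card : ℕ) : ℝ) ≤ 4 * Real.log N := by
    intro m hm
    have hlog : 0 ≤ Real.log N := Real.log_nonneg (by linarith)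
    rcases Nat.eq_zero_or_pos m with h0 | h0
    · rw [h0, Nat.primeFactors_zero]
      simpa using hlog
    · refine (s3b_card m h0).trans ?_
      have h4 := Real.log_le_log (by exact_mod_cast h0) (show (m : ℝ) ≤ N by exact_mod_cast hm)
      linarith
  have hdist : ∀ x y : ℕ, x ≤ N → y ≤ N → Nat.dist x y ≤ N := by
    intro x y hx hy
    unfold Nat.dist
    omega
  have h1 : ((Zd H a).card : ℝ) ≤ ∑ h ∈ H, (((Nat.dist a h).primeFactors.card : ℕ) : ℝ) +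
      ∑ x ∈ H ×ˢ H, (((Nat.dist x.1 x.2).primeFactors.card : ℕ) : ℝ) := by
    have h2 := (Finset.card_union_le _ _).trans
      (Nat.add_le_add (Finset.card_biUnion_le (s := H) (t := fun h => (Nat.dist a h).primeFactors))
        (Finset.card_biUnion_le (s := H ×ˢ H) (t := fun x => (Nat.dist x.1 x.2).primeFactors)))
    unfold Zd
    exact_mod_cast h2
  have h2 : ∑ h ∈ H, (((Nat.dist a h).primeFactors.card : ℕ) : ℝ) ≤ ∑ h ∈ H, 4 * Real.log N :=
    Finset.sum_le_sum fun h hh => hone _ (hdist _ _ ha (hH h hh))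
  have h2' : ∑ x ∈ H ×ˢ H, (((Nat.dist x.1 x.2).primeFactors.card : ℕ) : ℝ) ≤ ∑ x ∈ H ×ˢ H, 4 * Real.log N :=
    Finset.sum_le_sum fun x hx => hone _
      (hdist _ _ (hH _ (Finset.mem_product.1 hx).1) (hH _ (Finset.mem_product.1 hx).2))
  have h3 : ∑ h ∈ H, 4 * Real.log N = K * (4 * Real.log N) := by
    rw [Finset.sum_const, hK, nsmul_eq_mul]
  have h3' : ∑ x ∈ H ×ˢ H, 4 * Real.log N = (K : ℝ) ^ 2 * (4 * Real.log N) := by
    rw [Finset.sum_const, Finset.card_product, hK, nsmul_eq_mul]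
    push_cast
    ring
  have h4 : (0 : ℝ) ≤ K := Nat.cast_nonneg K
  have h5 : 0 ≤ Real.log N := Real.log_nonneg (by linarith)
  have h6 : ((Zd H a).card : ℝ) ≤ (4 * (K + K ^ 2)) * Real.log N := by
    rw [h3] at h2
    rw [h3'] at h2'
    linarith
  refine h6.trans ?_
  have h7 := mul_le_mul_of_nonneg_right (show 4 * ((K : ℝ) + (K : ℝ) ^ 2) ≤ Real.log N by linarith) h5
  linarith [sq (Real.log N)]

/-- The number of bad primes. -/
theorem bd_card (K : ℕ) : ∃ n0 : ℕ, ∀ N : ℕ, n0 ≤ N → ∀ (a W : ℕ) (H : Finset ℕ), H.card = K →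
    (∀ h ∈ H, h ≤ N) → a ≤ N → a ∉ H → ((Bd N W H a).card : ℝ) ≤ Real.log N ^ 2 := by
  obtain ⟨n0, hn0⟩ := zd_card K
  refine ⟨n0, fun N hN a W H hK hH ha haH => le_trans ?_ (hn0 N hN a H hK hH ha)⟩
  have hsub : Bd N W H a ⊆ Zd H a := by
    intro q hq
    unfold Bd at hq
    rw [Finset.mem_filter] at hq
    obtain ⟨_, hq1, hq2⟩ := hq
    rcases hq2 with ⟨h, hh, hm⟩ | ⟨h, hh, h', hh', hne, hm⟩
    · exact zd_mem_a haH hq1 hh hm
    · exact zd_mem_h hq1 hh hh' hne hm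
  exact_mod_cast Finset.card_le_card hsub

end Pool.Agent.Lib.H57T
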