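import Pool.Agent.Lib.H57C.SDefs
import Pool.Agent.Lib.H59C.CPW

/-!
# The pointwise inequality of the weighted sieve for a value `v`
-/

open Finset

namespace Pool.Agent.Lib.H57T

open Pool.Agent.Lib.H57C
open Pool.Agent.Lib.H59C (zz yy PR mem_PR Tri CPW_yy CPW_yy_le CPW_one_le_yy)

open Classical in
/-- Chen's weights for a value `v < 2 n` without prime factors `< z`, not divisible by squares of primes `≥ z`. -/
theorem pw_val (n : ℕ) (hn : 100 ≤ n) (a : ℕ) (Q : Finset ℕ) (ha1 : 1 < a) (ha2 : a < 2 * n)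
    (hsq : ∀ q : ℕ, q.Prime → zz n ≤ q → ¬ q ^ 2 ∣ a)
    (hsift : ∀ q : ℕ, q.Prime → (q : ℝ) < zz n → ¬ q ∣ a)
    (hQ : ∀ q ∈ PR (zz n) (yy n), q ∣ a → q ∈ Q)
    (hbr : 0 < 1 - 1 / 2 * ((Q.filter (fun q => q ∣ a)).card : ℝ) -
      1 / 2 * (if Tri n a then 1 else 0)) : AP2 n a := by
  have hn1 : (100 : ℝ) ≤ n := by exact_mod_cast hn
  have hz : ∀ q : ℕ, q.Prime → q ∣ a → zz n ≤ q := by
    intro q hq hqa
    refine le_of_not_gt fun h => ?_
    exact hsift q hq h hqa
  have hsqf : Squarefree a := by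
    rw [Nat.squarefree_iff_prime_squarefree]
    intro q hq hqa
    refine hsq q hq (hz q hq (dvd_trans (dvd_mul_right q q) hqa)) ?_
    rwa [pow_two]
  constructor
  · intro q hq hqa
    refine le_trans ?_ (hz q hq hqa)
    unfold zz
    exact Real.rpow_le_rpow_of_exponent_le (by linarith) (by norm_num)
  -- small and large prime factors
  set A := a.primeFactors.filter (fun q : ℕ => (q : ℝ) < yy n) with hA
  set B := a.primeFactors.filter (fun q : ℕ => ¬ (q : ℝ) < yy n) with hB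
  have hprod : (∏ q ∈ A, q) * ∏ q ∈ B, q = a := by
    rw [hA, hB, Finset.prod_filter_mul_prod_filter_not a.primeFactors (fun q : ℕ => (q : ℝ) < yy n)]
    exact Nat.prod_primeFactors_of_squarefree hsqf
  have hAm : ∀ q ∈ A, q.Prime ∧ q ∣ a ∧ (q : ℝ) < yy n := by
    intro q hq
    rw [hA, Finset.mem_filter, Nat.mem_primeFactors] at hq
    exact ⟨hq.1.1, hq.1.2.1, hq.2⟩
  have hBm : ∀ q ∈ B, q.Prime ∧ q ∣ a ∧ yy n ≤ q := by
    intro q hq
    rw [hB, Finset.mem_filter, Nat.mem_primeFactors] at hq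
    exact ⟨hq.1.1, hq.1.2.1, not_lt.1 hq.2⟩
  have hyn := CPW_yy_le n (by omega)
  have hy1 := CPW_one_le_yy n (by omega)
  have hAQ : A ⊆ Q.filter (fun q => q ∣ a) := by
    intro q hq
    obtain ⟨h1, h2, h3⟩ := hAm q hq
    rw [Finset.mem_filter]
    exact ⟨hQ q (mem_PR.2 ⟨h1, hz q h1 h2, h3⟩) h2, h2⟩
  have hAc : (A.card : ℝ) ≤ ((Q.filter (fun q => q ∣ a)).card : ℝ) := by
    exact_mod_cast Finset.card_le_card hAQ
  have hT0 : (0 : ℝ) ≤ (if Tri n a then 1 else 0) := by split_ifs <;> norm_num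
  have hA2 : A.card < 2 := by
    have h1 : (A.card : ℝ) < 2 := by linarith
    exact_mod_cast h1
  have hB3 : B.card < 3 := by
    by_contra hc
    push Not at hc
    have h1 : (2 * n : ℝ) ≤ ((∏ q ∈ B, q : ℕ) : ℝ) := by
      rw [← CPW_yy, Nat.cast_prod]
      calc yy n ^ 3 ≤ yy n ^ B.card := pow_le_pow_right₀ hy1 hc
        _ = ∏ q ∈ B, yy n := by rw [Finset.prod_const]
        _ ≤ ∏ q ∈ B, (q : ℝ) :=
          Finset.prod_le_prod (fun q _ => by linarith) fun q hq => (hBm q hq).2.2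
    have h2 : ∏ q ∈ B, q ≤ a :=
      Nat.le_of_dvd (by omega) ⟨∏ q ∈ A, q, by rw [mul_comm]; exact hprod.symm⟩
    have h3 : (2 * n : ℝ) ≤ (a : ℝ) := h1.trans (by exact_mod_cast h2)
    have h4 : 2 * n ≤ a := by exact_mod_cast h3
    omega
  have hAcase : A.card = 0 ∨ A.card = 1 := by omega
  have hBcase : B.card = 0 ∨ B.card = 1 ∨ B.card = 2 := by omega
  rcases hAcase with hA0 | hA1
  · rw [Finset.card_eq_zero] at hA0
    rw [hA0, Finset.prod_empty, one_mul] at hprod
    rcases hBcase with hB0 | hB1 | hB2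
    · rw [Finset.card_eq_zero] at hB0
      rw [hB0, Finset.prod_empty] at hprod
      omega
    · obtain ⟨q, hq⟩ := Finset.card_eq_one.1 hB1
      rw [hq, Finset.prod_singleton] at hprod
      left
      rw [← hprod]
      exact (hBm q (by rw [hq]; exact Finset.mem_singleton_self q)).1
    · obtain ⟨q, r, hqr, hq⟩ := Finset.card_eq_two.1 hB2
      rw [hq, Finset.prod_pair hqr] at hprod
      right
      refine ⟨q, r, (hBm q ?_).1, (hBm r ?_).1, hprod.symm⟩
      · rw [hq]; simp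
      · rw [hq]; simp
  · obtain ⟨s, hs⟩ := Finset.card_eq_one.1 hA1
    have hs' := hAm s (by rw [hs]; exact Finset.mem_singleton_self s)
    rw [hs, Finset.prod_singleton] at hprod
    rcases hBcase with hB0 | hB1 | hB2
    · rw [Finset.card_eq_zero] at hB0
      rw [hB0, Finset.prod_empty, mul_one] at hprod
      left
      rw [← hprod]
      exact hs'.1
    · obtain ⟨q, hq⟩ := Finset.card_eq_one.1 hB1
      rw [hq, Finset.prod_singleton] at hprod
      right
      exact ⟨s, q, hs'.1, (hBm q (by rw [hq]; exact Finset.mem_singleton_self q)).1, hprod.symm⟩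
    · exfalso
      obtain ⟨q, r, hqr, hq⟩ := Finset.card_eq_two.1 hB2
      rw [hq, Finset.prod_pair hqr] at hprod
      have hqB := hBm q (by rw [hq]; simp)
      have hrB := hBm r (by rw [hq]; simp)
      have hTri : Tri n a := by
        rcases le_total q r with h | h
        · exact ⟨s, q, r, hs'.1, hqB.1, hrB.1, hz s hs'.1 hs'.2.1, hs'.2.2, hqB.2.2, h, by
            rw [mul_assoc]; exact hprod.symm⟩
        · exact ⟨s, r, q, hs'.1, hrB.1, hqB.1, hz s hs'.1 hs'.2.1, hs'.2.2, hrB.2.2, h, by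
            rw [mul_assoc, mul_comm r q]; exact hprod.symm⟩
      rw [if_pos hTri] at hbr
      rw [hA1, Nat.cast_one] at hAc
      linarith

end Pool.Agent.Lib.H57T
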