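import Pool.Agent.Lib.H57C.M3
import Pool.Agent.Lib.H57C.M1
import Pool.Agent.Lib.H57T.Defs

/-!
# Chunk M3: the main terms
-/

open Finset

namespace Pool.Agent.Lib.H57T

open Pool.Agent.Lib.H57C


open Pool.Agent.Lib.H15P hiding cfg
open Pool.Agent.Lib.H92G Pool.Agent.Lib.H57M
/-- One form: one class. -/
theorem m3_card1 {P H : Finset ℕ} (i : Option ℕ) (U : Fam P H) (q : ℕ) (hq : q.Prime)
    (hH : ∀ h ∈ H, ∀ h' ∈ H, h ≠ h' → ¬ h ≡ h' [MOD q]) (iH : ∀ h, i = some h → h ∈ H) (h : {h // h ∈ H})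
    (hU : ∃ p ∈ U h, p.1 = q) (hu : ∀ h' : {h // h ∈ H}, (∃ p ∈ U h', p.1 = q) → h' = h)
    (hi : i ≠ some h.1) : (m3_A i U q).card = 1 := by
  classical
  have he : m3_A i U q = (range q).filter (fun c => q ∣ c + h.1) := by
    ext c
    rw [m3_mem_A, mem_filter, mem_range]
    constructor
    · rintro ⟨h1, -, h3⟩
      exact ⟨h1, (h3 h hU).2⟩
    · rintro ⟨h1, h2⟩
      refine ⟨h1, ?_, ?_⟩
      · intro h0 h5 h6
        rw [add_comm] at h6
        refine hH h0 (iH h0 h5) h.1 h.2 (fun h7 => hi (by rw [h5, h7])) ?_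
        have h8 : c + h0 ≡ c + h.1 [MOD q] :=
          ((Nat.modEq_zero_iff_dvd).2 h6).trans ((Nat.modEq_zero_iff_dvd).2 h2).symm
        exact Nat.ModEq.add_left_cancel' _ h8
      · intro h' h8
        have := hu h' h8
        subst this
        exact ⟨hi, h2⟩
  rw [he]
  exact m1_one q h.1 hq.pos

/-- The local factor. -/
theorem m3_local {P H : Finset ℕ} (i : Option ℕ) (W : ℕ) (hP : ∀ p ∈ P, p.Prime ∧ W < p)
    (HD : ∀ p ∈ P, ∀ h ∈ H, ∀ h' ∈ H, h ≠ h' → ¬ h ≡ h' [MOD p]) (iH : ∀ h, i = some h → h ∈ H) (U : Fam P H) (hok : okA P H i U)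
    (q : ℕ) (hq : q ∈ P) :
    ((m3_A i U q).card : ℝ) / (m3_n i q : ℝ) =
      ∏ h : {h // h ∈ H}, (if (⟨q, hq⟩ : {p // p ∈ P}) ∈ U h then hdr i q else 1) := by
  classical
  have hqp := (hP q hq).1
  have hH := HD q hq
  have hn : (m3_n i q : ℝ) ≠ 0 := by
    unfold m3_n
    split_ifs
    · exact_mod_cast hqp.pos.ne'
    · have := hqp.one_lt
      have h2 : q - 1 ≠ 0 := by omega
      exact_mod_cast h2
  have hhd : hdr i q = 1 / (m3_n i q : ℝ) := by
    unfold hdr m3_n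
    split_ifs
    · rfl
    · rw [Nat.cast_sub hqp.one_lt.le, Nat.cast_one]
  have hex : ∀ h : {h // h ∈ H}, (∃ p ∈ U h, p.1 = q) ↔ (⟨q, hq⟩ : {p // p ∈ P}) ∈ U h := by
    intro h
    constructor
    · rintro ⟨p, hp, h2⟩
      have : p = ⟨q, hq⟩ := Subtype.ext h2
      rw [← this]
      exact hp
    · intro h2
      exact ⟨_, h2, rfl⟩
  by_cases hall : ∀ h : {h // h ∈ H}, ¬ ∃ p ∈ U h, p.1 = q
  · rw [m3_card0 i U q hqp hall, div_self hn]
    symm
    apply prod_eq_one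
    intro h _
    rw [if_neg]
    rw [← hex]
    exact hall h
  · push Not at hall
    obtain ⟨h, hh⟩ := hall
    have hu : ∀ h' : {h // h ∈ H}, (∃ p ∈ U h', p.1 = q) → h' = h := by
      intro h' hh'
      by_contra hne
      have hd := hok.2 h' h hne
      rw [hex] at hh hh'
      exact (Finset.disjoint_left.1 hd) hh' hh
    have hi : i ≠ some h.1 := by
      intro h5
      have := hok.1 h h5
      rw [hex, this] at hh
      exact absurd hh (by simp)
    rw [m3_card1 i U q hqp hH iH h hh hu hi, Nat.cast_one, ← hhd]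
    rw [prod_eq_single h]
    · rw [if_pos ((hex h).1 hh)]
    · intro h' _ hne
      rw [if_neg]
      intro h6
      exact hne (hu h' ((hex h').2 h6))
    · intro h7
      exact absurd (mem_univ _) h7

/-- The bad families. -/
theorem m3_zero {P H : Finset ℕ} (i : Option ℕ) (W : ℕ) (hP : ∀ p ∈ P, p.Prime ∧ W < p)
    (HD : ∀ p ∈ P, ∀ h ∈ H, ∀ h' ∈ H, h ≠ h' → ¬ h ≡ h' [MOD p]) (U : Fam P H) (hok : ¬ okA P H i U) :
    ∏ q ∈ P, (m3_A i U q).card = 0 := by
  classical
  unfold okA at hok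
  rw [not_and_or] at hok
  rcases hok with hok | hok
  · push Not at hok
    obtain ⟨h, h1, h2⟩ := hok
    obtain ⟨p, hp⟩ := h2
    refine prod_eq_zero p.2 ?_
    rw [card_eq_zero, eq_empty_iff_forall_notMem]
    intro c hc
    rw [m3_mem_A] at hc
    exact (hc.2.2 h ⟨p, hp, rfl⟩).1 h1
  · push Not at hok
    obtain ⟨h, h', hne, hd⟩ := hok
    rw [Finset.not_disjoint_iff] at hd
    obtain ⟨p, hp, hp'⟩ := hd
    refine prod_eq_zero p.2 ?_
    rw [card_eq_zero, eq_empty_iff_forall_notMem]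
    intro c hc
    rw [m3_mem_A] at hc
    have h1 := (hc.2.2 h ⟨p, hp, rfl⟩).2
    have h2 := (hc.2.2 h' ⟨p, hp', rfl⟩).2
    have h3 := hP p.1 p.2
    refine HD p.1 p.2 h.1 h.2 h'.1 h'.2 (fun h7 => hne (Subtype.ext h7)) ?_
    have h8 : c + h.1 ≡ c + h'.1 [MOD p.1] :=
      ((Nat.modEq_zero_iff_dvd).2 h1).trans ((Nat.modEq_zero_iff_dvd).2 h2).symm
    exact Nat.ModEq.add_left_cancel' _ h8

/-- The density of a family. -/
theorem m3_dens {P H : Finset ℕ} (i : Option ℕ) (W : ℕ) (hP : ∀ p ∈ P, p.Prime ∧ W < p)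
    (HD : ∀ p ∈ P, ∀ h ∈ H, ∀ h' ∈ H, h ≠ h' → ¬ h ≡ h' [MOD p]) (iH : ∀ h, i = some h → h ∈ H) (U : Fam P H) :
    (((∏ q ∈ P, (m3_A i U q).card : ℕ)) : ℝ) / (∏ q ∈ P, (m3_n i q : ℝ)) =
      (open Classical in if okA P H i U ∧ okB P H (fun _ _ => True) 1 U then fpr (hdr i) U else 0) := by
  classical
  by_cases hok : okA P H i U
  · have hB : okB P H (fun _ _ => True) 1 U := by
      refine ⟨?_, ?_⟩
      · intro h p _ hd
        exact (hP p.1 p.2).1.one_lt.ne' (Nat.dvd_one.1 hd)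
      · intro h p _ c _
        trivial
    rw [if_pos ⟨hok, hB⟩, Nat.cast_prod, ← prod_div_distrib]
    have h1 : ∀ q : {p // p ∈ P}, ((m3_A i U q.1).card : ℝ) / (m3_n i q.1 : ℝ) =
        ∏ h : {h // h ∈ H}, (if q ∈ U h then hdr i q.1 else 1) :=
      fun q => m3_local i W hP HD iH U hok q.1 q.2
    rw [← prod_attach P (fun q => ((m3_A i U q).card : ℝ) / (m3_n i q : ℝ))]
    rw [show (P.attach : Finset {p // p ∈ P}) = univ from rfl, prod_congr rfl (fun q _ => h1 q),
      prod_comm]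
    unfold fpr
    refine prod_congr rfl (fun h _ => ?_)
    rw [prod_ite_mem, univ_inter]
  · rw [if_neg (fun h => hok h.1), m3_zero i W hP HD U hok]
    simp

/-- The reference mean value as a sum over families. -/
theorem ae_sum (P H : Finset ℕ) (i : Option ℕ) (W : ℕ) (hP : ∀ p ∈ P, p.Prime ∧ W < p)
    (HD : ∀ p ∈ P, ∀ h ∈ H, ∀ h' ∈ H, h ≠ h' → ¬ h ≡ h' [MOD p]) (iH : ∀ h, i = some h → h ∈ H)
    (F : Fam P H → ℝ) (c : Fam P H → ℝ)
    (hc : ∀ S, F S = ∑ U : Fam P H, if ∀ j, U j ⊆ S j then c U else 0) :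
    AE P H i F = Am P H i (fun _ _ => True) (hdr i) 1 c := by
  classical
  have hPp : ∀ p ∈ P, p.Prime := fun p hp => (hP p hp).1
  have hN : AE P H i F = (∑ t ∈ (range (∏ p ∈ P, p)).filter (fun t => ∀ h0, i = some h0 →
      (h0 + 1 * t).Coprime (∏ p ∈ P, p)), F (cfg P H i t)) / (∏ q ∈ P, (m3_n i q : ℝ)) := by
    cases i with
    | none =>
      unfold AE EP m3_n
      simp only [if_true, Nat.cast_prod]
      congr 1
      refine sum_congr ?_ ?_
      · ext t
        simp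
      · intro t _
        congr 1
        funext h
        unfold cfg
        rw [if_neg (by simp), one_mul, add_comm]
    | some h0 =>
      unfold AE EU m3_n
      simp only [reduceCtorEq, if_false]
      congr 1
      · refine sum_congr ?_ (fun _ _ => rfl)
        ext t
        simp
      · have h3 := Nat.totient_mul_prod_primeFactors (∏ p ∈ P, p)
        rw [m3_Pf P hPp] at h3
        have h4 : 0 < ∏ p ∈ P, p := Finset.prod_pos (fun p hp => (hPp p hp).pos)
        have h5 : (∏ p ∈ P, p).totient = ∏ p ∈ P, (p - 1) := by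
          rw [mul_comm] at h3
          exact Nat.eq_of_mul_eq_mul_left h4 h3
        rw [h5, Nat.cast_prod]
  rw [hN]
  unfold Am
  simp only [hc]
  rw [sum_comm, sum_div]
  refine sum_congr rfl (fun U _ => ?_)
  rw [← sum_filter, filter_filter, sum_const, m3_count P H i hPp U, nsmul_eq_mul]
  have h2 := m3_dens i W hP HD iH U
  rw [mul_comm, mul_div_assoc, h2]
  split_ifs
  · rfl
  · rw [mul_zero]

end Pool.Agent.Lib.H57T
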