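import Pool.Agent.Lib.H57C.M5
import Pool.Agent.Lib.H57T.M1
import Pool.Agent.Lib.H57T.M3

/-!
# Chunk M5: the transfer theorem
-/

open Finset

namespace Pool.Agent.Lib.H57T

open Pool.Agent.Lib.H57C


open Pool.Agent.Lib.H15P hiding cfg
open Pool.Agent.Lib.H92G Pool.Agent.Lib.H57M
open Classical in
theorem m5_err {ι : Type} (s : Seq ι) (P H : Finset ℕ) (i : Option ℕ) (W p1 : ℕ) (R T : ℕ → Finset ℕ)
    (P' : Finset ℕ) (k b E r D D1 : ℕ) (hy : Hy s P H i W p1 R T P' k b)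
    (c : Fam P H → ℝ) (CF DF : ℝ) (CF0 : 0 ≤ CF) (DF0 : 0 ≤ DF)
    (hc2 : ∀ U, |c U| ≤ CF * (E : ℝ) ^ (∑ j, (U j).card))
    (hc3 : ∀ U, c U ≠ 0 → (∏ j, ∏ p ∈ U j, (p.1 : ℝ)) ≤ DF)
    (hD : DF * (W : ℝ) ^ (r + 1) * D1 ≤ D) (rr : ℕ → ℝ) (rr0 : ∀ m, 0 ≤ rr m)
    (hrr : ∀ m, Squarefree m → m ≤ D → ¬ p1 ∣ m → ∀ c : ℕ, (∀ q ∈ m.primeFactors, s.Al q c) →
      |∑ i ∈ s.S.filter (fun i => s.x i ≡ c [MOD m]), s.wt i -
        s.X * ∏ q ∈ m.primeFactors, s.hd q| ≤ rr m)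
    (a : Finset ℕ → ℝ) (ha : ∀ V, |a V| ≤ 1) (ha0 : ∀ V, r + 1 < V.card → a V = 0)
    (d : ℕ) (hd : d ∈ Dv P' D1) :
    |∑ V ∈ (Ps W p1).powerset, ∑ U : Fam P H, a V * c U * su s P H i R T U V d -
      s.X * (∏ q ∈ d.primeFactors, (((T q).card : ℝ) * s.hd q)) * Am P H i s.Al s.hd d c *
        Sieve.poly a (fun q => (((R q).filter (fun c => s.Al q c)).card : ℝ) * s.hd q) (Ps W p1)| ≤
      CF * m5_R P H W p1 k E r DF rr d := by
  have hW : 1 ≤ W := le_trans hy.p1p.one_lt.le hy.p1W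
  unfold Dv at hd
  rw [mem_filter, mem_Icc] at hd
  obtain ⟨⟨hd1, hd2⟩, hdsq, hdP⟩ := hd
  set hT : ℝ := ∏ q ∈ d.primeFactors, (((T q).card : ℝ) * s.hd q) with hhT
  have e1 : s.X * hT * Am P H i s.Al s.hd d c *
        Sieve.poly a (fun q => (((R q).filter (fun c => s.Al q c)).card : ℝ) * s.hd q) (Ps W p1) =
      ∑ V ∈ (Ps W p1).powerset, ∑ U : Fam P H, a V *
        (if okA P H i U ∧ okB P H s.Al d U then c U * fpr s.hd U else 0) *
        (s.X * (∏ q ∈ V, (((R q).filter (fun c => s.Al q c)).card : ℝ) * s.hd q) * hT) := by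
    unfold Sieve.poly Am
    rw [Finset.mul_sum]
    refine Finset.sum_congr rfl fun V _ => ?_
    rw [← Finset.sum_mul, ← Finset.mul_sum]
    ring
  rw [e1, ← Finset.sum_sub_distrib]
  have e2 : CF * m5_R P H W p1 k E r DF rr d = ∑ V ∈ (Ps W p1).powerset, ∑ U : Fam P H,
      (if V.card ≤ r + 1 then (if (∀ h h', h ≠ h' → Disjoint (U h) (U h')) ∧
          (∀ h, ∀ p ∈ U h, ¬ p.1 ∣ d) ∧ (fp U : ℝ) ≤ DF then
        CF * ((E : ℝ) ^ (∑ h, (U h).card) * ((k : ℝ) ^ V.card * (k : ℝ) ^ d.primeFactors.card) *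
          rr (fp U * (∏ q ∈ V, q) * d)) else 0) else 0) := by
    unfold m5_R
    rw [Finset.mul_sum, Finset.sum_filter]
    refine Finset.sum_congr rfl fun V _ => ?_
    by_cases hV : V.card ≤ r + 1
    · rw [if_pos hV, Finset.mul_sum]
      refine Finset.sum_congr rfl fun U _ => ?_
      rw [if_pos hV]
      split_ifs
      · rfl
      · ring
    · rw [if_neg hV]
      symm
      refine Finset.sum_eq_zero fun U _ => if_neg hV
  rw [e2]
  refine (Finset.abs_sum_le_sum_abs _ _).trans (Finset.sum_le_sum fun V hV => ?_)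
  rw [← Finset.sum_sub_distrib]
  refine (Finset.abs_sum_le_sum_abs _ _).trans (Finset.sum_le_sum fun U _ => ?_)
  have hV' := Finset.mem_powerset.mp hV
  have hnn : 0 ≤ CF * ((E : ℝ) ^ (∑ h, (U h).card) * ((k : ℝ) ^ V.card *
      (k : ℝ) ^ d.primeFactors.card) * rr (fp U * (∏ q ∈ V, q) * d)) :=
    mul_nonneg CF0 (mul_nonneg (by positivity) (rr0 _))
  by_cases hVc : V.card ≤ r + 1
  swap
  · rw [if_neg hVc, ha0 V (by omega)]
    simp
  rw [if_pos hVc]
  by_cases hok : okA P H i U ∧ okB P H s.Al d U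
  swap
  · rw [if_neg hok, m1_zero hy U V d hdsq hdP hok]
    have : |a V * c U * 0 - a V * 0 * (s.X * (∏ q ∈ V,
        (((R q).filter (fun c => s.Al q c)).card : ℝ) * s.hd q) * hT)| = 0 := by simp
    rw [this]
    split_ifs
    · exact hnn
    · exact le_rfl
  rw [if_pos hok]
  by_cases hcU : c U = 0
  · rw [hcU]
    have : |a V * 0 * su s P H i R T U V d - a V * (0 * fpr s.hd U) * (s.X * (∏ q ∈ V,
        (((R q).filter (fun c => s.Al q c)).card : ℝ) * s.hd q) * hT)| = 0 := by simp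
    rw [this]
    split_ifs
    · exact hnn
    · exact le_rfl
  have hfp : (fp U : ℝ) ≤ DF := by
    have := hc3 U hcU
    unfold fp
    push_cast
    exact this
  rw [if_pos ⟨hok.1.2, hok.2.1, hfp⟩]
  have hm := m1_sqf hy U V d hok.1 hok.2 hV' hdsq hdP
  have hmD : fp U * (∏ q ∈ V, q) * d ≤ D := by
    have h1 := m5_prodV W p1 r V hV' hW hVc
    have h2 : ((fp U * (∏ q ∈ V, q) * d : ℕ) : ℝ) ≤ DF * (W : ℝ) ^ (r + 1) * D1 := by
      rw [Nat.cast_mul, Nat.cast_mul]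
      have h3 : ((∏ q ∈ V, q : ℕ) : ℝ) ≤ (W : ℝ) ^ (r + 1) := by exact_mod_cast h1
      have h4 : (d : ℝ) ≤ D1 := by exact_mod_cast hd2
      refine mul_le_mul (mul_le_mul hfp h3 (Nat.cast_nonneg _) DF0) h4 (Nat.cast_nonneg _) ?_
      positivity
    exact_mod_cast h2.trans hD
  have key := m1 hy (rr (fp U * (∏ q ∈ V, q) * d)) (rr0 _) U V d hok.1 hok.2 hV' hdsq hdP
    (hrr _ hm.1 hmD hm.2)
  have e3 : a V * c U * su s P H i R T U V d - a V * (c U * fpr s.hd U) * (s.X * (∏ q ∈ V,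
        (((R q).filter (fun c => s.Al q c)).card : ℝ) * s.hd q) * hT) =
      a V * (c U * (su s P H i R T U V d - s.X * (fpr s.hd U *
        (∏ q ∈ V, (((R q).filter (fun c => s.Al q c)).card : ℝ) * s.hd q) * hT))) := by ring
  rw [e3, abs_mul, abs_mul]
  calc |a V| * (|c U| * |su s P H i R T U V d - s.X * (fpr s.hd U *
        (∏ q ∈ V, (((R q).filter (fun c => s.Al q c)).card : ℝ) * s.hd q) * hT)|)
      ≤ 1 * ((CF * (E : ℝ) ^ (∑ j, (U j).card)) * ((k : ℝ) ^ V.card * (k : ℝ) ^ d.primeFactors.card *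
        rr (fp U * (∏ q ∈ V, q) * d))) := by
        refine mul_le_mul (ha V) (mul_le_mul (hc2 U) key (abs_nonneg _) ?_) ?_ zero_le_one
        · positivity
        · positivity
    _ = _ := by ring

/-- **Transfer theorem.** Proof. Let `c` be the coefficients of `F` (`ExJ`), `rr` the function of `Lvl`. Fix `d ∈ Dv P' D1`.
For `t = x j` put `f q = 1[t % q ∈ R q]`: `Sg t = ∏_{q ∈ Ps} (1 - f q)`, and by `Sieve.le_polyT_of_even`, `Sieve.polyT_le_of_even` (`r` even)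
`poly (cT r) f - poly (cE (r+1)) f ≤ Sg t ≤ poly (cT r) f` (`poly c f Q = ∑_{V ⊆ Q} c V ∏_{q ∈ V} f q`, check the definition in
`Lib/Sieve/Combi.lean`). Multiply with `wt j F(cfg) 1[inT] ≥ 0` and sum over `j`: with `su` (file M1) the sum is between
`∑_U ∑_V c U (cT r V - cE (r+1) V) su U V d` and `∑_U ∑_V c U cT r V su U V d`. By `m1_zero`, `m1` (with `B = rr (fp U ∏V d)`; `c U ≠ 0` implies
`fp U ≤ DF`, `|V| ≤ r + 1`, so `fp U ∏V d ≤ DF W^(r+1) D1 ≤ D`) these are `X Am_d hT(d) poly (..) ρ` up to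
`∑_U ∑_{|V| ≤ r+1} |c U| k^|V| k^ω(d) rr(..)`, where `ρ q = #(R q).filter Al · hd q ∈ [0, 1]`, `hT(d) = ∏_{q ∣ d} #T q hd q`. Again by Bonferroni
both `poly` are within `poly (cE (r+1)) ρ ≤ τ0` of `∏ (1 - ρ q) = VS`. Summed over `d` (`m2`, `|c U| ≤ CF E^|U|`) the remainder terms give at most
`2 CF Err`; the `τ0` terms `X CF Pi0 τ0 ∑_d (2k)^ω(d)/d`. Then replace `Am_d` by `AE` (`am_bound`, `ae_sum`, `0 ≤ VS ≤ 1`) and `hT(d)` by
`∏ #T q hr q`: `|∏ #T hd - ∏ #T hr| ≤ k^ω(d) ω(d) (2/W) ∏_{q ∣ d} (2/q)` (`|hd q - hr q| ≤ 4/q^2`), `|AE| ≤ CF Pi0`; use `ω ≤ 2^ω`,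
`(b + ω) ≤ (b + 1) 2^ω`. Everything is at most `X CF Pi0 G0 (τ0 + 100 K E (b + 1)/W)`. -/
theorem mt {ι : Type} (s : Seq ι) (P H : Finset ℕ) (i : Option ℕ) (W p1 : ℕ) (R T : ℕ → Finset ℕ)
    (P' : Finset ℕ) (k b K E r D D1 : ℕ) (hy : Hy s P H i W p1 R T P' k b) (hr : ℕ → ℝ)
    (hr0 : ∀ q : ℕ, q.Prime → 0 ≤ hr q) (hr2 : ∀ q : ℕ, q.Prime → hr q ≤ 2 / q)
    (hrq : ∀ q : ℕ, q.Prime → W < q → |hr q - 1 / q| ≤ 2 / (q : ℝ) ^ 2)
    (hK : H.card = K) (K1 : 1 ≤ K) (E1 : 1 ≤ E) (k1 : 1 ≤ k) (hre : Even r)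
    (F : Fam P H → ℝ) (F0 : ∀ S, 0 ≤ F S) (CF DF : ℝ) (CF0 : 0 ≤ CF) (DF0 : 0 ≤ DF)
    (hF : ExJ P F CF E DF) (hD : DF * (W : ℝ) ^ (r + 1) * D1 ≤ D) (Err : ℝ)
    (hL : Lvl s p1 D (K * E + 2 * k) Err) (Pi0 G0 τ0 : ℝ)
    (hPi : ∏ p ∈ P, (1 + 4 * (E : ℝ) / p) ^ K ≤ Pi0)
    (hG : ∑ d ∈ (Icc 1 D1).filter Squarefree, (8 * (k : ℝ)) ^ d.primeFactors.card / d ≤ G0)
    (hτ : Sieve.poly (Sieve.cE (r + 1)) (fun q : ℕ => 2 * (k : ℝ) / q) (Ps W p1) ≤ τ0) :
    ∑ d ∈ Dv P' D1,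
      |∑ j ∈ s.S.filter (fun j => inT T d (s.x j)),
          s.wt j * (F (cfg P H i (s.x j)) * Sg (Ps W p1) R (s.x j)) -
        s.X * (AE P H i F * VS (Ps W p1) R s.hd s.Al) *
          ∏ q ∈ d.primeFactors, (((T q).card : ℝ) * hr q)| ≤
      CF * (2 * Err + s.X * (Pi0 * G0 * (τ0 + 100 * K * E * (b + 1) / W))) := by
  classical
  obtain ⟨c, hc1, hc2, hc3⟩ := hF
  obtain ⟨rr, rr0, hrr, hrS⟩ := hL
  have hW : 1 ≤ W := le_trans hy.p1p.one_lt.le hy.p1W
  have hWr : (1 : ℝ) ≤ W := by exact_mod_cast hW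
  have hWpos : (0 : ℝ) < W := by linarith
  have hk0 : (0 : ℝ) ≤ k := Nat.cast_nonneg _
  have hAE := ae_sum P H i W hy.Pp hy.HD hy.iH F c hc1
  have hAE1 : |AE P H i F| ≤ CF * Pi0 := by
    rw [hAE]
    exact (am_bound P H i W K E 0 (fun _ _ => True) (hdr i) c CF Pi0 CF0 E1 hK K1 hy.Pp hW
      (m5_hdr0 i) (m5_hdr2 i) (m5_hdrq i W) hc2 hPi (by simp) 1 le_rfl).1
  have hCP : 0 ≤ CF * Pi0 := le_trans (abs_nonneg _) hAE1
  set ρ : ℕ → ℝ := fun q => (((R q).filter (fun c => s.Al q c)).card : ℝ) * s.hd q with hρ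
  have hQp : ∀ q ∈ Ps W p1, q.Prime := fun q hq => (mem_filter.mp hq).2.1
  have hρ0 : ∀ q ∈ Ps W p1, 0 ≤ ρ q := fun q hq =>
    mul_nonneg (Nat.cast_nonneg _) (hy.hd0 q (hQp q hq))
  have hρ1 : ∀ q ∈ Ps W p1, ρ q ≤ 1 := fun q hq => hy.R1 q hq
  have hρ2 : ∀ q ∈ Ps W p1, ρ q ≤ 2 * (k : ℝ) / q := by
    intro q hq
    have h1 : (((R q).filter (fun c => s.Al q c)).card : ℝ) ≤ k := by
      exact_mod_cast (Finset.card_filter_le _ _).trans (hy.Rk q hq)
    calc ρ q ≤ k * (2 / q) := mul_le_mul h1 (hy.hd2 q (hQp q hq)) (hy.hd0 q (hQp q hq)) hk0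
      _ = 2 * (k : ℝ) / q := by ring
  have hτ1 : Sieve.poly (Sieve.cE (r + 1)) ρ (Ps W p1) ≤ τ0 :=
    (m5_polymono (r + 1) ρ _ (Ps W p1) hρ0 hρ2).trans hτ
  have hτn : 0 ≤ Sieve.poly (Sieve.cE (r + 1)) ρ (Ps W p1) := by
    refine Sieve.poly_nonneg (fun V => ?_) hρ0
    unfold Sieve.cE
    split_ifs <;> norm_num
  have τ00 : 0 ≤ τ0 := hτn.trans hτ1
  have hVS : VS (Ps W p1) R s.hd s.Al = ∏ q ∈ Ps W p1, (1 - ρ q) := rfl
  have hV1 : VS (Ps W p1) R s.hd s.Al ≤ Sieve.poly (Sieve.cT r) ρ (Ps W p1) := by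
    rw [hVS]; exact Sieve.le_polyT_of_even hρ0 hρ1 hre
  have hV2 : Sieve.poly (Sieve.cT r) ρ (Ps W p1) ≤
      VS (Ps W p1) R s.hd s.Al + Sieve.poly (Sieve.cE (r + 1)) ρ (Ps W p1) := by
    rw [hVS]; exact Sieve.polyT_le_of_even hρ0 hρ1 hre
  have hV0 : 0 ≤ VS (Ps W p1) R s.hd s.Al := by
    rw [hVS]; exact Finset.prod_nonneg fun q hq => by linarith [hρ1 q hq]
  have hVle : VS (Ps W p1) R s.hd s.Al ≤ 1 := by
    rw [hVS]
    exact Finset.prod_le_one (fun q hq => by linarith [hρ1 q hq]) fun q hq => by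
      linarith [hρ0 q hq]
  set VV := VS (Ps W p1) R s.hd s.Al with hVV
  have hX0 := hy.X0
  have hper : ∀ d ∈ Dv P' D1,
      |∑ j ∈ s.S.filter (fun j => inT T d (s.x j)),
          s.wt j * (F (cfg P H i (s.x j)) * Sg (Ps W p1) R (s.x j)) -
        s.X * (AE P H i F * VV) * ∏ q ∈ d.primeFactors, (((T q).card : ℝ) * hr q)| ≤
      CF * m5_R P H W p1 k E r DF rr d + s.X * (CF * Pi0) *
        (((8 * (k : ℝ)) ^ d.primeFactors.card / d) * (τ0 + 100 * K * E * (b + 1) / W)) := by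
    intro d hd
    have hd' := hd
    unfold Dv at hd'
    rw [mem_filter, mem_Icc] at hd'
    obtain ⟨⟨hd1, hd2⟩, hdsq, hdP⟩ := hd'
    have hd1r : (0 : ℝ) < d := by exact_mod_cast hd1
    set hT : ℝ := ∏ q ∈ d.primeFactors, (((T q).card : ℝ) * s.hd q) with hhT
    set hTr : ℝ := ∏ q ∈ d.primeFactors, (((T q).card : ℝ) * hr q) with hhTr
    set A : ℝ := Am P H i s.Al s.hd d c with hA
    -- upper and lower bound
    have b1 := m5_err s P H i W p1 R T P' k b E r D D1 hy c CF DF CF0 DF0 hc2 hc3 hD rr rr0 hrr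
      (Sieve.cT r) (fun V => (m5_ab r V).1) (fun V hV => (m5_ab0 r V hV).1) d hd
    have b2 := m5_err s P H i W p1 R T P' k b E r D D1 hy c CF DF CF0 DF0 hc2 hc3 hD rr rr0 hrr
      (fun V => Sieve.cT r V - Sieve.cE (r + 1) V) (fun V => (m5_ab r V).2)
      (fun V hV => (m5_ab0 r V hV).2) d hd
    rw [← m5_expand s P H i R T (Ps W p1) F c hc1 (Sieve.cT r) d] at b1
    rw [← m5_expand s P H i R T (Ps W p1) F c hc1 _ d] at b2
    rw [m5_polysub] at b2
    have u1 : ∑ j ∈ s.S.filter (fun j => inT T d (s.x j)),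
          s.wt j * (F (cfg P H i (s.x j)) * Sg (Ps W p1) R (s.x j)) ≤
        ∑ j ∈ s.S.filter (fun j => inT T d (s.x j)), s.wt j * (F (cfg P H i (s.x j)) *
      Sieve.poly (Sieve.cT r) (fun q => if s.x j % q ∈ R q then (1 : ℝ) else 0) (Ps W p1)) := by
      refine Finset.sum_le_sum fun j hj => ?_
      refine mul_le_mul_of_nonneg_left (mul_le_mul_of_nonneg_left ?_ (F0 _))
        (hy.w0 j (mem_filter.mp hj).1)
      rw [m5_sg]
      refine Sieve.le_polyT_of_even (fun q _ => ?_) (fun q _ => ?_) hre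
      · split_ifs <;> norm_num
      · split_ifs <;> norm_num
    have u2 : ∑ j ∈ s.S.filter (fun j => inT T d (s.x j)), s.wt j * (F (cfg P H i (s.x j)) *
      Sieve.poly (fun V => Sieve.cT r V - Sieve.cE (r + 1) V)
        (fun q => if s.x j % q ∈ R q then (1 : ℝ) else 0) (Ps W p1)) ≤
        ∑ j ∈ s.S.filter (fun j => inT T d (s.x j)),
          s.wt j * (F (cfg P H i (s.x j)) * Sg (Ps W p1) R (s.x j)) := by
      refine Finset.sum_le_sum fun j hj => ?_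
      refine mul_le_mul_of_nonneg_left (mul_le_mul_of_nonneg_left ?_ (F0 _))
        (hy.w0 j (mem_filter.mp hj).1)
      rw [m5_sg, m5_polysub]
      have := Sieve.polyT_le_of_even (f := fun q => if s.x j % q ∈ R q then (1 : ℝ) else 0)
        (Q := Ps W p1) (fun q _ => by split_ifs <;> norm_num)
        (fun q _ => by split_ifs <;> norm_num) hre
      linarith
    set Z : ℝ := ∑ j ∈ s.S.filter (fun j => inT T d (s.x j)),
          s.wt j * (F (cfg P H i (s.x j)) * Sg (Ps W p1) R (s.x j)) with hZ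
    set RD : ℝ := CF * m5_R P H W p1 k E r DF rr d with hRD
    -- bounds for the products
    have hM : ∀ q ∈ d.primeFactors, 0 ≤ ((T q).card : ℝ) * s.hd q ∧
        ((T q).card : ℝ) * s.hd q ≤ 2 * (k : ℝ) / q ∧ 0 ≤ ((T q).card : ℝ) * hr q ∧
        ((T q).card : ℝ) * hr q ≤ 2 * (k : ℝ) / q ∧
        |((T q).card : ℝ) * s.hd q - ((T q).card : ℝ) * hr q| ≤ (2 / W) * (2 * (k : ℝ) / q) := by
      intro q hq
      have hqp := Nat.prime_of_mem_primeFactors hq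
      have hqP := hdP q hq
      have hTk : ((T q).card : ℝ) ≤ k := by exact_mod_cast hy.Tk q hqP
      have hWq : W < q := (hy.P'p q hqP).2
      have hWq' : (W : ℝ) ≤ q := by exact_mod_cast hWq.le
      have hq0 : (0 : ℝ) < q := by linarith
      refine ⟨mul_nonneg (Nat.cast_nonneg _) (hy.hd0 q hqp), ?_,
        mul_nonneg (Nat.cast_nonneg _) (hr0 q hqp), ?_, ?_⟩
      · calc ((T q).card : ℝ) * s.hd q ≤ k * (2 / q) :=
              mul_le_mul hTk (hy.hd2 q hqp) (hy.hd0 q hqp) hk0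
          _ = 2 * (k : ℝ) / q := by ring
      · calc ((T q).card : ℝ) * hr q ≤ k * (2 / q) :=
              mul_le_mul hTk (hr2 q hqp) (hr0 q hqp) hk0
          _ = 2 * (k : ℝ) / q := by ring
      · rw [← mul_sub, abs_mul, abs_of_nonneg (Nat.cast_nonneg _)]
        have h1 : |s.hd q - hr q| ≤ 4 / (q : ℝ) ^ 2 := by
          have e : s.hd q - hr q = (s.hd q - 1 / q) - (hr q - 1 / q) := by ring
          rw [e]
          refine (abs_sub _ _).trans ?_
          have := hy.hdq q hqp hWq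
          have := hrq q hqp hWq
          have e4 : (4 : ℝ) / (q : ℝ) ^ 2 = 2 / (q : ℝ) ^ 2 + 2 / (q : ℝ) ^ 2 := by ring
          rw [e4]
          linarith
        calc ((T q).card : ℝ) * |s.hd q - hr q| ≤ k * (4 / (q : ℝ) ^ 2) :=
              mul_le_mul hTk h1 (abs_nonneg _) hk0
          _ = (2 / q) * (2 * (k : ℝ) / q) := by
              field_simp
              ring
          _ ≤ (2 / W) * (2 * (k : ℝ) / q) := by
              refine mul_le_mul_of_nonneg_right ?_ (by positivity)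
              exact div_le_div_of_nonneg_left (by norm_num) hWpos hWq'
    have hprod := m5_prodq d hdsq (2 * (k : ℝ))
    have hTn : 0 ≤ hT := Finset.prod_nonneg fun q hq => (hM q hq).1
    have hTle : hT ≤ (2 * (k : ℝ)) ^ d.primeFactors.card / d := by
      rw [← hprod]
      exact Finset.prod_le_prod (fun q hq => (hM q hq).1) fun q hq => (hM q hq).2.1
    have htel : |hT - hTr| ≤ d.primeFactors.card * (2 / W) *
        ((2 * (k : ℝ)) ^ d.primeFactors.card / d) := by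
      rw [← hprod]
      refine (m5_tel d.primeFactors _ _ (fun q => 2 * (k : ℝ) / q) (2 / W) (by positivity)
        (fun q hq => ?_) (fun q hq => ?_) fun q hq => (hM q hq).2.2.2.2).1
      · rw [abs_of_nonneg (hM q hq).1]; exact (hM q hq).2.1
      · rw [abs_of_nonneg (hM q hq).2.2.1]; exact (hM q hq).2.2.2.1
    have hAm := am_bound P H i W K E b s.Al s.hd c CF Pi0 CF0 E1 hK K1 hy.Pp hW hy.hd0 hy.hd2
      hy.hdq hc2 hPi hy.bad d hd1
    rw [← hAE, ← hA] at hAm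
    obtain ⟨hA1, hA2⟩ := hAm
    -- main comparison
    have c1 : |Z - s.X * hT * A * VV| ≤ RD + s.X * hT * (CF * Pi0) * τ0 := by
      have hXT : 0 ≤ s.X * hT := mul_nonneg hX0 hTn
      have g1 : |s.X * hT * A * (Sieve.poly (Sieve.cT r) ρ (Ps W p1) - VV)| ≤
          s.X * hT * (CF * Pi0) * τ0 := by
        rw [abs_mul, abs_mul, abs_of_nonneg hXT]
        refine mul_le_mul (mul_le_mul_of_nonneg_left hA1 hXT) ?_ (abs_nonneg _)
          (mul_nonneg hXT hCP)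
        rw [abs_le]
        constructor <;> linarith
      have g2 : |s.X * hT * A * (Sieve.poly (Sieve.cT r) ρ (Ps W p1) -
          Sieve.poly (Sieve.cE (r + 1)) ρ (Ps W p1) - VV)| ≤
          s.X * hT * (CF * Pi0) * τ0 := by
        rw [abs_mul, abs_mul, abs_of_nonneg hXT]
        refine mul_le_mul (mul_le_mul_of_nonneg_left hA1 hXT) ?_ (abs_nonneg _)
          (mul_nonneg hXT hCP)
        rw [abs_le]
        constructor <;> linarith
      rw [abs_le] at b1 b2 g1 g2 ⊢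
      constructor
      · have e : s.X * hT * A * (Sieve.poly (Sieve.cT r) ρ (Ps W p1) -
          Sieve.poly (Sieve.cE (r + 1)) ρ (Ps W p1) - VV) = s.X * hT * A *
            (Sieve.poly (Sieve.cT r) ρ (Ps W p1) - Sieve.poly (Sieve.cE (r + 1)) ρ (Ps W p1)) -
            s.X * hT * A * VV := by ring
        rw [e] at g2
        linarith [b2.1, g2.1, u2]
      · have e : s.X * hT * A * (Sieve.poly (Sieve.cT r) ρ (Ps W p1) - VV) =
          s.X * hT * A * Sieve.poly (Sieve.cT r) ρ (Ps W p1) - s.X * hT * A * VV := by ring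
        rw [e] at g1
        linarith [b1.2, g1.2, u1]
    have c2 : |s.X * hT * A * VV - s.X * (AE P H i F * VV) * hTr| ≤
        s.X * ((CF * Pi0 * ((2 * K * E * (b + d.primeFactors.card) + 2) / W)) * hT +
          (CF * Pi0) * |hT - hTr|) := by
      have e : s.X * hT * A * VV - s.X * (AE P H i F * VV) * hTr =
          s.X * VV * ((A - AE P H i F) * hT + AE P H i F * (hT - hTr)) := by ring
      rw [e, abs_mul, abs_of_nonneg (mul_nonneg hX0 hV0)]
      have g3 : |(A - AE P H i F) * hT + AE P H i F * (hT - hTr)| ≤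
          (CF * Pi0 * ((2 * K * E * (b + d.primeFactors.card) + 2) / W)) * hT +
          (CF * Pi0) * |hT - hTr| := by
        refine (abs_add_le _ _).trans ?_
        rw [abs_mul, abs_mul, abs_of_nonneg hTn]
        exact add_le_add (mul_le_mul_of_nonneg_right hA2 hTn)
          (mul_le_mul_of_nonneg_right hAE1 (abs_nonneg _))
      have g4 : s.X * VV ≤ s.X := by
        calc s.X * VV ≤ s.X * 1 := mul_le_mul_of_nonneg_left hVle hX0
          _ = s.X := mul_one _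
      exact mul_le_mul g4 g3 (abs_nonneg _) hX0
    have hnum := m5_num K E k b d.primeFactors.card (W : ℝ) τ0 (d : ℝ) hWpos τ00 K1 E1 hd1r
    have c3 : s.X * hT * (CF * Pi0) * τ0 + s.X * ((CF * Pi0 *
        ((2 * K * E * (b + d.primeFactors.card) + 2) / W)) * hT + (CF * Pi0) * |hT - hTr|) ≤
        s.X * (CF * Pi0) *
        (((8 * (k : ℝ)) ^ d.primeFactors.card / d) * (τ0 + 100 * K * E * (b + 1) / W)) := by
      have g5 : hT * τ0 + ((2 * K * E * (b + d.primeFactors.card) + 2) / W) * hT + |hT - hTr| ≤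
          ((2 * (k : ℝ)) ^ d.primeFactors.card / d) * τ0 +
          ((2 * K * E * (b + d.primeFactors.card) + 2) / W) *
            ((2 * (k : ℝ)) ^ d.primeFactors.card / d) +
          d.primeFactors.card * (2 / W) * ((2 * (k : ℝ)) ^ d.primeFactors.card / d) := by
        refine add_le_add (add_le_add (mul_le_mul_of_nonneg_right hTle τ00)
          (mul_le_mul_of_nonneg_left hTle ?_)) htel
        positivity
      calc _ = s.X * (CF * Pi0) * (hT * τ0 + ((2 * K * E * (b + d.primeFactors.card) + 2) / W) * hT +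
            |hT - hTr|) := by ring
        _ ≤ _ := mul_le_mul_of_nonneg_left (g5.trans hnum) (mul_nonneg hX0 hCP)
    calc |Z - s.X * (AE P H i F * VV) * hTr|
        ≤ |Z - s.X * hT * A * VV| + |s.X * hT * A * VV - s.X * (AE P H i F * VV) * hTr| :=
          abs_sub_le _ _ _
      _ ≤ (RD + s.X * hT * (CF * Pi0) * τ0) + s.X * ((CF * Pi0 *
        ((2 * K * E * (b + d.primeFactors.card) + 2) / W)) * hT + (CF * Pi0) * |hT - hTr|) :=
          add_le_add c1 c2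
      _ ≤ _ := by linarith
  -- sum over `d`
  refine (Finset.sum_le_sum hper).trans ?_
  rw [Finset.sum_add_distrib, ← Finset.mul_sum, ← Finset.mul_sum, ← Finset.sum_mul]
  have s1 : ∑ d ∈ Dv P' D1, m5_R P H W p1 k E r DF rr d ≤ Err := by
    have := m2 P H W p1 k E D D1 r K P' DF rr rr0 hy.Pp hy.p1p hy.p1W hy.P'p hK hW hD DF0
    refine le_trans (le_of_eq ?_) (this.trans hrS)
    rfl
  have s1n : 0 ≤ ∑ d ∈ Dv P' D1, m5_R P H W p1 k E r DF rr d := by
    refine Finset.sum_nonneg fun d _ => ?_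
    unfold m5_R
    refine Finset.sum_nonneg fun V _ => Finset.sum_nonneg fun U _ => ?_
    split_ifs
    · exact mul_nonneg (by positivity) (rr0 _)
    · exact le_rfl
  have s2 : ∑ d ∈ Dv P' D1, (8 * (k : ℝ)) ^ d.primeFactors.card / d ≤ G0 := by
    refine le_trans (Finset.sum_le_sum_of_subset_of_nonneg ?_ fun d _ _ => by positivity) hG
    intro d hd
    unfold Dv at hd
    rw [mem_filter] at hd ⊢
    exact ⟨hd.1, hd.2.1⟩
  have s3 : 0 ≤ τ0 + 100 * K * E * (b + 1) / W := by positivity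
  have s4 : CF * ∑ d ∈ Dv P' D1, m5_R P H W p1 k E r DF rr d ≤ CF * (2 * Err) :=
    mul_le_mul_of_nonneg_left (by linarith) CF0
  have s5 : s.X * (CF * Pi0) * ((∑ d ∈ Dv P' D1, (8 * (k : ℝ)) ^ d.primeFactors.card / d) *
      (τ0 + 100 * K * E * (b + 1) / W)) ≤ s.X * (CF * Pi0) * (G0 * (τ0 + 100 * K * E * (b + 1) / W)) :=
    mul_le_mul_of_nonneg_left (mul_le_mul_of_nonneg_right s2 s3) (mul_nonneg hX0 hCP)
  calc _ ≤ CF * (2 * Err) + s.X * (CF * Pi0) * (G0 * (τ0 + 100 * K * E * (b + 1) / W)) :=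
        add_le_add s4 s5
    _ = _ := by ring

end Pool.Agent.Lib.H57T
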