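import Pool.Agent.Lib.H57C.M6
import Pool.Agent.Lib.H57T.M5

/-!
# Chunk M6: the transfer theorem, asymptotic form
-/

open Finset

namespace Pool.Agent.Lib.H57T

open Pool.Agent.Lib.H57C


open Pool.Agent.Lib.H15P hiding cfg
open Pool.Agent.Lib.H92G Pool.Agent.Lib.H57M
theorem mta (K k cF A0 : ℕ) (hK : 1 ≤ K) (hk : 1 ≤ k) : ∃ A B0 : ℕ, ∀ B : ℕ, B0 ≤ B →
    ∀ θ : ℝ, 0 < θ → θ ≤ 1 / 100 → ∃ n0 : ℕ, ∀ n : ℕ, n0 ≤ n →
    ∀ {ι : Type} (s : Seq ι) (P H : Finset ℕ) (i : Option ℕ) (W p1 : ℕ) (R T : ℕ → Finset ℕ)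
    (P' : Finset ℕ) (b : ℕ) (hr : ℕ → ℝ) (F : Fam P H → ℝ) (D : ℕ),
    Hy s P H i W p1 R T P' k b → (∀ q : ℕ, q.Prime → 0 ≤ hr q) →
    (∀ q : ℕ, q.Prime → hr q ≤ 2 / q) →
    (∀ q : ℕ, q.Prime → W < q → |hr q - 1 / q| ≤ 2 / (q : ℝ) ^ 2) →
    H.card = K → W = ⌈Real.log n ^ B⌉₊ → (∀ p ∈ P, p ≤ n) → s.X ≤ n * Real.log n ^ 2 →
    (b : ℝ) ≤ Real.log n ^ 2 → (∀ S, 0 ≤ F S) →
    ExJ P F (Real.log n ^ cF) 3 ((n : ℝ) ^ (2 * θ)) → (n : ℝ) ^ (1 / 2 - θ) ≤ D →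
    Lvl s p1 D (K * 3 + 2 * k) (n / Real.log n ^ A) →
    ∑ d ∈ Dv P' (Lv n θ),
      |∑ j ∈ s.S.filter (fun j => inT T d (s.x j)),
          s.wt j * (F (cfg P H i (s.x j)) * Sg (Ps W p1) R (s.x j)) -
        s.X * (AE P H i F * VS (Ps W p1) R s.hd s.Al) *
          ∏ q ∈ d.primeFactors, (((T q).card : ℝ) * hr q)| ≤ n / Real.log n ^ A0 := by
  obtain ⟨C, hC, hCh⟩ := m6_inv
  set M : ℕ := A0 + cF + 12 * K + 8 * k + 6 with hM
  refine ⟨A0 + cF + 1, A0 + cF + 12 * K + 8 * k + 8, fun B hB θ hθ hθ1 => ?_⟩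
  obtain ⟨L0, hL0⟩ := m6_L K k M B C θ hθ
  refine ⟨⌈Real.exp (max L0 6)⌉₊, fun n hn ι s P H i W p1 R T P' b hr F D hy hr0 hr2 hrq hKc hW
    hPn hX hb F0 hF hD hLv => ?_⟩
  have hn1 : Real.exp (max L0 6) ≤ n := (Nat.le_ceil _).trans (by exact_mod_cast hn)
  have hn0 : (0 : ℝ) < n := lt_of_lt_of_le (Real.exp_pos _) hn1
  have hLL : max L0 6 ≤ Real.log n := (Real.le_log_iff_exp_le hn0).2 hn1
  obtain ⟨a1, a2, a3, a4, a5, a6⟩ := hL0 (Real.log n) ((le_max_left _ _).trans hLL)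
  set L := Real.log n with hLdef
  have hLp : 0 < L := by linarith
  have hL1 : 1 ≤ L := by linarith
  have hnL : (n : ℝ) = Real.exp L := (Real.exp_log hn0).symm
  have hn2 : (2 : ℝ) ≤ n := by
    rw [hnL]
    have := Real.add_one_le_exp L
    linarith
  have hlL : 0 ≤ Real.log L := Real.log_nonneg hL1
  have hWr : (W : ℝ) ≤ 2 * L ^ B ∧ L ^ B ≤ W := by
    rw [hW]
    have h1 := Nat.ceil_lt_add_one (a := L ^ B) (by positivity)
    have h2 : 1 ≤ L ^ B := one_le_pow₀ hL1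
    exact ⟨by linarith, Nat.le_ceil _⟩
  have hW2 : (2 : ℝ) ≤ W := by
    have h3 : L ^ 1 ≤ L ^ B := pow_le_pow_right₀ hL1 (by omega)
    rw [pow_one] at h3
    linarith [hWr.2]
  have hlW : Real.log W ≤ B * Real.log L + Real.log 2 := by
    have h3 := Real.log_le_log (by linarith) hWr.1
    rw [Real.log_mul (by norm_num) (by positivity), Real.log_pow] at h3
    linarith
  have hl2L : Real.log 2 ≤ Real.log L := Real.log_le_log (by norm_num) (by linarith)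
  have hlW' : Real.log W ≤ ((B : ℝ) + 1) * Real.log L := by linarith
  have hlW0 : 0 < Real.log W := Real.log_pos (by linarith)
  -- the parameter `r`
  set r : ℕ := 2 * ⌈(M : ℝ) * Real.log L⌉₊ with hrd
  have hre : Even r := ⟨⌈(M : ℝ) * Real.log L⌉₊, by rw [hrd]; ring⟩
  have hrlo : 2 * (M : ℝ) * Real.log L ≤ r := by
    rw [hrd]
    push_cast
    have := Nat.le_ceil ((M : ℝ) * Real.log L)
    linarith
  have hrhi : (r : ℝ) + 1 ≤ 2 * (M : ℝ) * Real.log L + 3 := by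
    rw [hrd]
    push_cast
    have := Nat.ceil_lt_add_one (a := (M : ℝ) * Real.log L) (by positivity)
    linarith
  -- the products
  have hPi : ∏ p ∈ P, (1 + 4 * ((3 : ℕ) : ℝ) / p) ^ K ≤ L ^ (12 * K + 1) := by
    have h1 : ∏ p ∈ P, (1 + 4 * ((3 : ℕ) : ℝ) / p) ^ K ≤ Real.exp (∑ q ∈ P, ((12 * K : ℕ) : ℝ) / (q : ℝ)) := by
      rw [Real.exp_sum]
      refine prod_le_prod (fun q _ => by positivity) (fun q _ => ?_)
      have h2 := Real.add_one_le_exp (4 * ((3 : ℕ) : ℝ) / q)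
      calc (1 + 4 * ((3 : ℕ) : ℝ) / q) ^ K ≤ Real.exp (4 * ((3 : ℕ) : ℝ) / q) ^ K :=
            pow_le_pow_left₀ (by positivity) (by linarith) _
        _ = Real.exp (((12 * K : ℕ) : ℝ) / (q : ℝ)) := by
            rw [← Real.exp_nat_mul]
            congr 1
            push_cast
            ring
    refine h1.trans ((m6_prod C hCh (12 * K) n hn2 P (fun q hq => ⟨(hy.Pp q hq).1, by exact_mod_cast hPn q hq⟩)).trans ?_)
    rw [pow_succ, mul_comm (L ^ (12 * K)) L]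
    exact mul_le_mul_of_nonneg_right a3 (by positivity)
  have hD1n : (Lv n θ : ℝ) ≤ (n : ℝ) ^ (1 / 2 - 4 * θ) := by
    unfold Lv
    exact Nat.floor_le (by positivity)
  have hn1' : (1 : ℝ) ≤ n := by linarith
  have hLvn : (Lv n θ : ℝ) ≤ n := by
    refine hD1n.trans ?_
    calc (n : ℝ) ^ (1 / 2 - 4 * θ) ≤ (n : ℝ) ^ (1 : ℝ) :=
          Real.rpow_le_rpow_of_exponent_le hn1' (by linarith)
      _ = n := Real.rpow_one _
  have hG : ∑ d ∈ (Icc 1 (Lv n θ)).filter Squarefree, (8 * (k : ℝ)) ^ d.primeFactors.card / d ≤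
      L ^ (8 * k + 1) := by
    refine (m6_sqf (Lv n θ) (8 * (k : ℝ)) (by positivity)).trans ?_
    have h1 := m6_prod C hCh (8 * k) n hn2 ((Icc 1 (Lv n θ)).filter Nat.Prime) (fun q hq => by
      rw [mem_filter, mem_Icc] at hq
      refine ⟨hq.2, ?_⟩
      have : (q : ℝ) ≤ (Lv n θ : ℝ) := by exact_mod_cast hq.1.2
      linarith)
    push_cast at h1 a4
    refine h1.trans ?_
    rw [pow_succ, mul_comm (L ^ (8 * k)) L]
    exact mul_le_mul_of_nonneg_right a4 (by positivity)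
  have hτ : Sieve.poly (Sieve.cE (r + 1)) (fun q : ℕ => 2 * (k : ℝ) / q) (Ps W p1) ≤
      L / L ^ (2 * M) := by
    have h1 := Sieve.rankinE (f := fun q : ℕ => 2 * (k : ℝ) / q) (Q := Ps W p1)
      (fun p _ => by positivity) (r + 1) (l := Real.exp 1) (Real.exp_pos _).le
    have h2 : ∏ p ∈ Ps W p1, (1 + Real.exp 1 * (2 * (k : ℝ) / p)) ≤
        Real.exp (∑ q ∈ Ps W p1, ((6 * k : ℕ) : ℝ) / (q : ℝ)) := by
      rw [Real.exp_sum]
      refine prod_le_prod (fun q _ => by positivity) (fun q _ => ?_)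
      have h3 := Real.add_one_le_exp (((6 * k : ℕ) : ℝ) / (q : ℝ))
      refine le_trans ?_ h3
      have h4 : Real.exp 1 * (2 * (k : ℝ) / q) ≤ ((6 * k : ℕ) : ℝ) / (q : ℝ) := by
        have h5 : Real.exp 1 ≤ 3 := by
          have := Real.exp_one_lt_d9
          linarith
        calc Real.exp 1 * (2 * (k : ℝ) / q) ≤ 3 * (2 * (k : ℝ) / q) :=
              mul_le_mul_of_nonneg_right h5 (by positivity)
          _ = ((6 * k : ℕ) : ℝ) / (q : ℝ) := by
              push_cast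
              ring
      linarith
    have h3 := m6_prod C hCh (6 * k) W hW2 (Ps W p1) (fun q hq => by
      unfold Ps at hq
      rw [mem_filter, mem_Icc] at hq
      exact ⟨hq.2.1, by exact_mod_cast hq.1.2⟩)
    have h4 : Real.exp ((6 * k : ℕ) * C) * Real.log W ^ (6 * k) ≤ L := by
      refine le_trans ?_ a5
      refine mul_le_mul_of_nonneg_left ?_ (Real.exp_pos _).le
      exact pow_le_pow_left₀ hlW0.le hlW' _
    have h5 : Real.exp 1 ^ (r + 1) * Sieve.poly (Sieve.cE (r + 1)) (fun q : ℕ => 2 * (k : ℝ) / q)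
        (Ps W p1) ≤ L := h1.trans (h2.trans (h3.trans h4))
    have h6 : L ^ (2 * M) ≤ Real.exp 1 ^ (r + 1) := by
      rw [← Real.exp_nat_mul, mul_one]
      calc L ^ (2 * M) = Real.exp ((2 * M : ℕ) * Real.log L) := by
            rw [Real.exp_nat_mul, Real.exp_log hLp]
        _ ≤ Real.exp ((r + 1 : ℕ) : ℝ) := by
            apply Real.exp_le_exp.2
            push_cast
            linarith
    have h7 : 0 ≤ Sieve.poly (Sieve.cE (r + 1)) (fun q : ℕ => 2 * (k : ℝ) / q) (Ps W p1) := by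
      apply Sieve.poly_nonneg
      · intro D
        unfold Sieve.cE
        split_ifs <;> norm_num
      · intro p _
        positivity
    rw [le_div_iff₀ (by positivity), mul_comm]
    exact (mul_le_mul_of_nonneg_right h6 h7).trans h5
  -- the level
  have hWn : (W : ℝ) ^ (r + 1) ≤ (n : ℝ) ^ θ := by
    have h1 : (W : ℝ) ^ (r + 1) = Real.exp ((r + 1 : ℕ) * Real.log W) := by
      rw [Real.exp_nat_mul, Real.exp_log (by linarith)]
    rw [h1, Real.rpow_def_of_pos hn0]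
    apply Real.exp_le_exp.2
    rw [← hLdef]
    push_cast
    calc ((r : ℝ) + 1) * Real.log W ≤ (2 * (M : ℝ) * Real.log L + 3) * (B * Real.log L + Real.log 2) :=
          mul_le_mul hrhi hlW hlW0.le (by positivity)
      _ = (B * Real.log L + Real.log 2) * (2 * M * Real.log L + 3) := by ring
      _ ≤ θ * L := a6
      _ = L * θ := by ring
  have hDD : (n : ℝ) ^ (2 * θ) * (W : ℝ) ^ (r + 1) * (Lv n θ : ℕ) ≤ D := by
    refine le_trans ?_ hD
    calc (n : ℝ) ^ (2 * θ) * (W : ℝ) ^ (r + 1) * (Lv n θ : ℕ)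
        ≤ (n : ℝ) ^ (2 * θ) * (n : ℝ) ^ θ * (n : ℝ) ^ (1 / 2 - 4 * θ) := by
          apply mul_le_mul _ hD1n (Nat.cast_nonneg _) (by positivity)
          exact mul_le_mul_of_nonneg_left hWn (by positivity)
      _ = (n : ℝ) ^ (1 / 2 - θ) := by
          rw [← Real.rpow_add hn0, ← Real.rpow_add hn0]
          congr 1
          ring
  have hmt := mt s P H i W p1 R T P' k b K 3 r D (Lv n θ) hy hr hr0 hr2 hrq hKc hK (by norm_num) hk hre
    F F0 (L ^ cF) ((n : ℝ) ^ (2 * θ)) (by positivity) (by positivity) hF hDD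
    (n / L ^ (A0 + cF + 1)) hLv (L ^ (12 * K + 1)) (L ^ (8 * k + 1)) (L / L ^ (2 * M)) hPi hG hτ
  refine hmt.trans ?_
  have hfin := m6_final K k cF A0 B L n s.X b W a1 a2 (Nat.cast_nonneg _) hy.X0 (Nat.cast_nonneg _)
    hX hb hWr.2 hB
  rw [← hM] at hfin
  push_cast at hfin ⊢
  exact hfin

end Pool.Agent.Lib.H57T
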