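import Pool.Agent.Lib.H57C.RB
import Pool.Agent.Lib.H57T.M6
import Pool.Agent.Lib.H57T.RA

/-!
# Chunk RB: the remainder terms for the sequence `t + h` prime
-/

open Finset

namespace Pool.Agent.Lib.H57T

open Pool.Agent.Lib.H57C


open Pool.Agent.Lib.H57M
/-- The hypotheses of the transfer theorem. -/
theorem RB_Hy (B cF K k : ℕ) (θ : ℝ) (n : ℕ) (w : Par K) (H : Finset ℕ) (p1 : ℕ)
    (R T : ℕ → Finset ℕ) (P' : Finset ℕ) (hP : Pre0 B cF θ w H n p1)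
    (hT : HRT K k w.W p1 H R T P') (h : ℕ) (hh : h ∈ H) (hn : 1000 ≤ n)
    (hl : 100 * (Real.log n ^ B + 1) ≤ (n : ℝ)) (hL : 1 ≤ Real.log n)
    (hr : 10 * (n : ℝ) ^ (1 / 100 : ℝ) ≤ n) :
    Hy (sB h (Ya n + h) (Yb n + h)) w.P H (some h) w.W p1 R T P' (K + k) 0 := by
  have hW : 100 * w.W ≤ n := by
    have h1 : (w.W : ℝ) ≤ Real.log n ^ B + 1 := by
      rw [hP.Wdef]
      exact (Nat.ceil_lt_add_one (by positivity)).le
    have h3 : (100 * w.W : ℝ) ≤ n := by linarith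
    exact_mod_cast h3
  have hPs : ∀ q ∈ Ps w.W p1, q.Prime := fun q hq => a2_Ps hq
  refine ⟨?_, ?_, ?_, ?_, RB_gq0, RB_gq2, fun q hq _ => RB_gqq q hq,
    fun p hp => ⟨w.prime p hp, w.big p hp⟩, hP.p1p, hP.p1W, hP.HD, ?_, hT.Rr, hT.Rk, ?_,
    hT.P'p, hT.Tr, ?_, ?_, ?_, ?_⟩
  · intro j _
    show 0 ≤ H59C.lg j
    unfold H59C.lg
    exact Real.log_natCast_nonneg _
  · show 0 ≤ H59C.XX (Ya n + h) (Yb n + h)
    unfold H59C.XX H59C.lg
    exact sum_nonneg fun p _ => Real.log_natCast_nonneg _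
  · intro q c c' hc
    show ¬ q ∣ c + h ↔ ¬ q ∣ c' + h
    have h1 : c + h ≡ c' + h [MOD q] := hc.add_right h
    rw [h1.dvd_iff (dvd_refl q)]
  · intro j hj _ q hq hqq
    show ¬ q ∣ j - h + h
    have hj' : j ∈ H59C.Sq (Ya n + h) (Yb n + h) := hj
    rw [Pool.Agent.Lib.H59C.mem_Sq] at hj'
    obtain ⟨⟨h1, h2⟩, h3⟩ := hj'
    rw [Nat.sub_add_cancel (by omega)]
    intro hd
    have h4 : q = j := (Nat.prime_dvd_prime_iff_eq hq h3).1 hd
    have h5 : 10 * q ≤ n := by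
      rcases hqq with hqq | hqq
      · have h6 := hP.PN q hqq
        have h7 : (10 * q : ℝ) ≤ n := by linarith
        exact_mod_cast h7
      · omega
    unfold Ya at h1
    omega
  · intro h' hh'
    rw [Option.some.injEq] at hh'
    rw [← hh']
    exact hh
  · classical
    intro q hq
    have hqp := hPs q hq
    have h0 : ∀ S : Finset ℕ, S ⊆ R q → (S.card : ℝ) * H59C.gq q ≤ 1 := by
      intro S hS
      have h1 : S.card + 1 ≤ q := by
        have h2 := hT.Rq q hq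
        have h3 := card_le_card hS
        omega
      have h2 : (S.card : ℝ) + 1 ≤ q := by exact_mod_cast h1
      have h3 : (2 : ℝ) ≤ q := by exact_mod_cast hqp.two_le
      unfold H59C.gq
      rw [mul_one_div, div_le_one (by linarith)]
      linarith
    exact h0 _ (filter_subset _ _)
  · intro q hq
    have := hT.Tk q hq
    omega
  · intro q hq t ht
    exact hT.TH q hq t ht h hh
  · intro q hq t ht h' hh' _
    exact hT.TH q hq t ht h' hh'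
  · classical
    rw [Nat.le_zero, card_eq_zero]
    refine Finset.eq_empty_of_forall_notMem fun p hpf => ?_
    rw [mem_filter] at hpf
    obtain ⟨hp, h', hh', hne, c, hc1, hc2⟩ := hpf
    have hc3 : p ∣ c + h := by
      by_contra hcon
      exact hc2 hcon
    have hne' : h ≠ h' := fun he => hne (by rw [he])
    exact hP.HD p hp h hh h' hh' hne' (tg_ne hc3 hc1)

/-- Proof. `mta` with `k` replaced by `K + k`, for the sequence `sB h (Ya n + h) (Yb n + h)`, `i = some h`, `P = w.P`, `F = FC w H`,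
`b = 0`, `hr = gq`, `D = DD n B1` from `lvlB A (3 K + 2 (K + k))` (`n^(1/2 - θ) ≤ DD n B1` for large `n`). `A'` is the one of `lvlB`. The hypotheses `Hy`:
* `nev`: `t = p - h`, `t + h = p > Ya n` prime, and the primes of `w.P` and those `≤ W` are `≤ n^(1/100) < p` (`Pre0.PN`, `Wdef`).
* `hd = gq`: `1/(q-1) - 1/q = 1/(q(q-1)) ≤ 2/q^2`.
* `R1`: `#R < q` and the class `-h` (which is in `R q` by `RH`) is not allowed: `#.. ≤ q - 1` (even `q - 2`), `gq q = 1/(q-1)`.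
* `TA`, `TH`: `HRT.TH`. `bad`: empty (`p ∣ c + h'`, `p ∣ c + h`, `h ≠ h'`, `|h - h'| ≤ W < p`).
`FC w H (cfg ..) = FF`; `VS = VbR` (`vs_BR`); `0 ≤ XX ≤ n log^2 n`. -/
theorem rBR (K k cF A0 : ℕ) (hK : 1 ≤ K) (hk : 1 ≤ k) : ∃ A' B0 : ℕ, ∀ B : ℕ, B0 ≤ B → ∀ θ : ℝ,
    0 < θ → θ ≤ 1 / 100 → ∃ n0 : ℕ, ∀ n : ℕ, n0 ≤ n → ∀ (w : Par K) (H : Finset ℕ) (p1 : ℕ)
    (R T : ℕ → Finset ℕ) (P' : Finset ℕ), Pre0 B cF θ w H n p1 → HRT K k w.W p1 H R T P' →
    H59C.SWp A' n p1 → ∀ h ∈ H, ∑ d ∈ Dv P' (Lv n θ),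
    |∑ p ∈ (H59C.Sq (Ya n + h) (Yb n + h)).filter (fun p => inT T d (p - h)),
        H59C.lg p * (FF w H (some h) (p - h) * Sg (Ps w.W p1) R (p - h)) -
      H59C.XX (Ya n + h) (Yb n + h) * (AE w.P H (some h) (FC w H) * VbR (Ps w.W p1) R) *
        ∏ q ∈ d.primeFactors, (((T q).card : ℝ) * H59C.gq q)| ≤ n / Real.log n ^ A0 := by
  obtain ⟨A, B0, hm⟩ := mta K (K + k) cF A0 hK (by omega)
  obtain ⟨A', B1, n1, hl⟩ := lvlB A (K * 3 + 2 * (K + k))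
  refine ⟨A', B0, fun B hB θ hθ hθ1 => ?_⟩
  obtain ⟨n2, hm2⟩ := hm B hB θ hθ hθ1
  obtain ⟨n3, hn3⟩ := RB_DD B1 θ hθ hθ1
  obtain ⟨n4, hn4⟩ := RB_large B
  refine ⟨max (max n1 n2) (max n3 n4), fun n hn w H p1 R T P' hP hT hSW h hh => ?_⟩
  have hN1 : n1 ≤ n := le_trans (le_trans (le_max_left _ _) (le_max_left _ _)) hn
  have hN2 : n2 ≤ n := le_trans (le_trans (le_max_right _ _) (le_max_left _ _)) hn
  have hN3 : n3 ≤ n := le_trans (le_trans (le_max_left _ _) (le_max_right _ _)) hn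
  have hN4 : n4 ≤ n := le_trans (le_trans (le_max_right _ _) (le_max_right _ _)) hn
  obtain ⟨g1, g2, g3, g4⟩ := hn4 n hN4
  have hnr : (1000 : ℝ) ≤ n := by exact_mod_cast g1
  have hHy := RB_Hy B cF K k θ n w H p1 R T P' hP hT h hh g1 g3 g2 g4
  have hhW := hP.HN h hh
  have hYn : Yb n + h ≤ n := by
    unfold Yb
    omega
  have hYY : Ya n ≤ Yb n := by
    unfold Ya Yb
    omega
  have hlvl := hl n hN1 p1 hSW h (Ya n + h) (Yb n + h) (by omega) (by omega) (by omega)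
  have hPn : ∀ p ∈ w.P, p ≤ n := by
    intro p hp
    have h1 := hP.PN p hp
    have h2 : (p : ℝ) ≤ n := by
      have h3 : 0 ≤ (n : ℝ) ^ (1 / 100 : ℝ) := Real.rpow_nonneg (by linarith) _
      linarith
    exact_mod_cast h2
  have hX : (sB h (Ya n + h) (Yb n + h)).X ≤ n * Real.log n ^ 2 := RB_XX n _ _ hYn g2
  have hb : ((0 : ℕ) : ℝ) ≤ Real.log n ^ 2 := by
    rw [Nat.cast_zero]
    exact sq_nonneg _
  have key := hm2 n hN2 (sB h (Ya n + h) (Yb n + h)) w.P H (some h) w.W p1 R T P' 0 H59C.gq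
    (FC w H) (H59C.DD n B1) hHy RB_gq0 RB_gq2 (fun q hq _ => RB_gqq q hq) hP.cardH hP.Wdef hPn hX hb
    (RB_FC w H) hP.exF (hn3 n hN3) hlvl
  have hVS : VS (Ps w.W p1) R H59C.gq (fun q c => ¬ q ∣ c + h) = VbR (Ps w.W p1) R :=
    vs_BR _ R h (fun q hq => a2_Ps hq) (fun q _ => hT.Rr q) (fun q hq => hT.RH q hq h hh)
  rw [← hVS]
  exact key

/-- Proof. `rBR` with `k = 1`, `A0 = 10`, `R = Rb N H`, `T q = {N % q}`, `P' = Pg N w.W H` (`pre_hrt`, `Pre.to0`). `inT T d (p - h)` iff `d ∣ N - (p - h) =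
Nat.dist (N + h) p` (`inT_iff`; `h ≤ p ≤ N + h`), `∏ gq = 1/φ(d)` (`prod_gq`). -/
theorem rB (K cF : ℕ) (hK : 1 ≤ K) : ∃ A' B0 : ℕ, ∀ B : ℕ, B0 ≤ B → ∀ θ : ℝ, 0 < θ →
    θ ≤ 1 / 100 → ∃ n0 : ℕ, ∀ N : ℕ, n0 ≤ N → ∀ (w : Par K) (H : Finset ℕ) (a p1 : ℕ),
    Pre B cF θ w H N a p1 → H59C.SWp A' N p1 → ∀ h ∈ H, ∑ d ∈ Dv (Pg N w.W H a) (Lv N θ),
    |∑ p ∈ (H59C.Sq (Ya N + h) (Yb N + h)).filter (fun p => d ∣ tv a h p),
        H59C.lg p * Fs w H a p1 (some h) (p - h) -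
      Xh w H N a p1 h / (Nat.totient d : ℝ)| ≤ N / Real.log N ^ 10 := by
  obtain ⟨A', B0, hm⟩ := rBR K 1 cF 10 hK (le_refl 1)
  refine ⟨A', B0, fun B hB θ hθ hθ1 => ?_⟩
  obtain ⟨n0, hn0⟩ := hm B hB θ hθ hθ1
  refine ⟨n0, fun N hN w H a p1 hP hSW h hh => ?_⟩
  have key := hn0 N hN w H p1 (Rb a H) (Tg a) (Pg N w.W H a) hP.to0
    (pre_hrt B cF θ w H N a p1 hP) hSW h hh
  refine le_trans (le_of_eq ?_) key
  refine sum_congr rfl fun d hd => ?_
  have hsq : Squarefree d := by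
    unfold Dv at hd
    exact (mem_filter.1 hd).2.1
  have hYb : Yb N ≤ N := by
    unfold Yb
    omega
  have hf : (H59C.Sq (Ya N + h) (Yb N + h)).filter (fun p => d ∣ tv a h p) =
      (H59C.Sq (Ya N + h) (Yb N + h)).filter (fun p => inT (Tg a) d (p - h)) := by
    refine filter_congr fun p hp => ?_
    rw [tg_inT d (p - h) a hsq]
    rfl
  have hg : ∏ q ∈ d.primeFactors, (((Tg a q).card : ℝ) * H59C.gq q) =
      1 / (Nat.totient d : ℝ) := by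
    rw [← prod_gq d hsq]
    refine prod_congr rfl fun q hq => ?_
    rw [tg_card (Nat.prime_of_mem_primeFactors hq).pos, Nat.cast_one, one_mul]
  rw [hf, hg, mul_one_div]
  rfl

end Pool.Agent.Lib.H57T
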