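import Pool.Agent.Lib.H57C.RC
import Pool.Agent.Lib.H57T.M6
import Pool.Agent.Lib.H57T.V4
import Pool.Agent.Lib.H57T.RA

/-!
# Chunk RC: the remainder terms for the switched sequence
-/

open Finset

namespace Pool.Agent.Lib.H57T

open Pool.Agent.Lib.H57C


open Pool.Agent.Lib.H57M
theorem rc_nev {N a M u v q : ℕ} {α : ℕ → ℝ} {x : ℕ × ℕ} (hx : x ∈ H59C.BX M u v)
    (hw : H59C.wB α x ≠ 0) (hα : ∀ m, α m ≠ 0 → ∀ r : ℕ, r.Prime → r ∣ m → (N : ℝ) ^ (1 / 10 : ℝ) ≤ r)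
    (hu : (N : ℝ) ^ (1 / 4 : ℝ) ≤ u) (hN : 2 ≤ N) (hq : q.Prime) (hqN : (q : ℝ) < (N : ℝ) ^ (1 / 10 : ℝ)) :
    ¬ q ∣ xv N a x + a := by
  intro hc
  have hN1 : (1 : ℝ) ≤ N := by exact_mod_cast (by omega : 1 ≤ N)
  have hqN' : (q : ℝ) ≤ N := hqN.le.trans (by
    calc (N : ℝ) ^ (1 / 10 : ℝ) ≤ (N : ℝ) ^ (1 : ℝ) := Real.rpow_le_rpow_of_exponent_le hN1 (by norm_num)
      _ = N := Real.rpow_one _)
  have hqN2 : q ≤ N := by exact_mod_cast hqN'
  have hfac : q ∣ N.factorial := Nat.dvd_factorial hq.pos hqN2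
  have hfp : 0 < N.factorial := Nat.factorial_pos N
  have h4 : q ∣ x.1 * x.2 := by
    have h1 : xv N a x + a = x.1 * x.2 + N.factorial * a := by
      unfold xv
      have h2 : N.factorial - 1 + 1 = N.factorial := Nat.sub_add_cancel (Nat.factorial_pos N)
      calc x.1 * x.2 + (N.factorial - 1) * a + a = x.1 * x.2 + (N.factorial - 1 + 1) * a := by ring
        _ = x.1 * x.2 + N.factorial * a := by rw [h2]
    rw [h1] at hc
    exact (Nat.dvd_add_left (hfac.mul_right a)).1 hc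
  have hα0 : α x.1 ≠ 0 := by
    intro h5
    apply hw
    unfold H59C.wB
    rw [h5, zero_mul]
  unfold H59C.BX at hx
  rw [mem_product, H59C.mem_Sq] at hx
  rcases hq.dvd_mul.1 h4 with h5 | h5
  · exact absurd (hα _ hα0 q hq h5) (not_le.2 hqN)
  · have h6 : q = x.2 := (Nat.prime_dvd_prime_iff_eq hq hx.2.2).1 h5
    have h7 : u < q := by rw [h6]; exact hx.2.1.1
    have h8 : (u : ℝ) < q := by exact_mod_cast h7
    have h9 : (N : ℝ) ^ (1 / 10 : ℝ) ≤ (N : ℝ) ^ (1 / 4 : ℝ) :=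
      Real.rpow_le_rpow_of_exponent_le hN1 (by norm_num)
    linarith

open Classical in
/-- Proof. `mta` with `k = K + 2`, `A0 = 10`, for the sequence `sC N a M u v α` (with `lvlC`), `i = some h`, `P = w.P`, `F = FC w H`, `R = Rb a H`,
`T q = {c < q : q ∣ c + h}` (one element), `P' = Pg N W H`, `hr = gq`, `b` = the number of primes `> W` dividing some `N + h'`:
at most `K log (2N)/log 2 ≤ log^2 N`. The hypotheses `Hy`:
* `nev`: if `xv N a x ≡ N [MOD q]`, `q ≤ N^(1/100)` a prime (`q ∣ N!`), then `q ∣ x1 x2`; `wt ≠ 0` implies `α x1 ≠ 0`, so the prime factors of `x1` are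
  `≥ N^(1/10)`, and `x2` is a prime `> u ≥ N^(1/4)`: impossible.
* `TA`: `q ∣ t + h` and `t ≡ N` imply `q ∣ N + h`. `TH`: `q ∣ t + h`, `q ∣ t + h'`, `|h - h'| ≤ W < q`.
* `R1`: the class of `N` is not allowed, so `#.. ≤ q - 1`... (`#Rb < q`).
* `XB ≤ 8 N log (8 N) ≤ N log^2 N`, `XB ≥ 0`.
`remd` has the additional condition `q < z` and `d ≤ Lv N θ` (floor of a cast), a subset of `Dv` (`sum_le_sum_of_subset_of_nonneg`);
`d ∣ xv N a x + h` iff `inT T d (xv N a x)` for squarefree `d`; `VS = Vb` (`vs_C`). -/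
theorem rC (K cF : ℕ) (hK : 1 ≤ K) : ∃ A' B0 : ℕ, ∀ B : ℕ, B0 ≤ B → ∀ θ : ℝ, 0 < θ →
    θ ≤ 1 / 100 → ∃ n0 : ℕ, ∀ N : ℕ, n0 ≤ N → ∀ (w : Par K) (H : Finset ℕ) (a p1 : ℕ),
    Pre B cF θ w H N a p1 → H59C.SWp A' N p1 → ∀ h ∈ H, ∀ (M u v : ℕ) (α : ℕ → ℝ),
    (∀ m, 0 ≤ α m ∧ α m ≤ 1) →
    (∀ m, α m ≠ 0 → ∀ r : ℕ, r.Prime → r ∣ m → (N : ℝ) ^ (1 / 10 : ℝ) ≤ r) →
    (N : ℝ) ^ (1 / 4 : ℝ) ≤ M → (N : ℝ) ^ (1 / 4 : ℝ) ≤ u → u ≤ v → M * v ≤ 8 * N → ∀ z : ℝ,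
    H59C.remd (H59C.BX M u v) (fun x => H59C.wB α x * Fs w H a p1 (some h) (xv N a x))
      (fun x => xv N a x + h) (Pg N w.W H a) z
      (H59C.XB M u v α * (AE w.P H (some h) (FC w H) * Vb a w.W p1 H)) (Lv N θ) ≤
      N / Real.log N ^ 10 := by
  obtain ⟨A, B0, hm⟩ := mta K (K + 2) cF 10 hK (by omega)
  obtain ⟨A', B1, nC, hC⟩ := lvlC A (K * 3 + 2 * (K + 2))
  refine ⟨A', B0, fun B hB θ hθ hθ1 => ?_⟩
  obtain ⟨nM, hM⟩ := hm B hB θ hθ hθ1
  obtain ⟨nL, hL⟩ := rc_large K B B1 θ hθ hθ1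
  refine ⟨max nC (max nM nL), fun N hN w H a p1 hpre hSW h hh M u v α hα hα2 hMN hu huv hMv z => ?_⟩
  have hNC : nC ≤ N := le_trans (le_max_left _ _) hN
  have hNM : nM ≤ N := le_trans (le_trans (le_max_left _ _) (le_max_right _ _)) hN
  have hNL : nL ≤ N := le_trans (le_trans (le_max_right _ _) (le_max_right _ _)) hN
  obtain ⟨hN2, hX, hbb, hD, hW10⟩ := hL N hNL
  have hN1 : (1 : ℝ) ≤ N := by exact_mod_cast (by omega : 1 ≤ N)
  have huv' : (u : ℝ) ≤ v := by exact_mod_cast huv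
  have hv4 : (N : ℝ) ^ (1 / 4 : ℝ) ≤ v := hu.trans huv'
  have h14 : 1 ≤ (N : ℝ) ^ (1 / 4 : ℝ) := Real.one_le_rpow hN1 (by norm_num)
  have hM1 : 1 ≤ M := by exact_mod_cast h14.trans hMN
  have hv1 : 1 ≤ v := by exact_mod_cast h14.trans hv4
  obtain ⟨hX0, hX1⟩ := rc_XB N M u v α hα hM1 huv hv1 hMv
  have hWr : (w.W : ℝ) < (N : ℝ) ^ (1 / 10 : ℝ) := by rw [hpre.Wdef]; exact hW10
  have h10N : (N : ℝ) ^ (1 / 10 : ℝ) ≤ N := by
    calc (N : ℝ) ^ (1 / 10 : ℝ) ≤ (N : ℝ) ^ (1 : ℝ) := Real.rpow_le_rpow_of_exponent_le hN1 (by norm_num)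
      _ = N := Real.rpow_one _
  have hWN : w.W ≤ N := by exact_mod_cast (hWr.le.trans h10N)
  have hPN : ∀ p ∈ w.P, (p : ℝ) < (N : ℝ) ^ (1 / 10 : ℝ) := by
    intro p hp
    refine (hpre.PN p hp).trans_lt ?_
    exact Real.rpow_lt_rpow_of_exponent_lt (by exact_mod_cast (by omega : 1 < N)) (by norm_num)
  have hPg : ∀ q ∈ Pg N w.W H a, q.Prime ∧ w.W < q ∧ ∀ h ∈ H, ¬ a ≡ h [MOD q] := fun q hq =>
    ⟨(pg_spec hq).1, (pg_spec hq).2.1, (pg_spec hq).2.2.2.1⟩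
  have hPs : ∀ q ∈ Ps w.W p1, q.Prime := fun q hq => a2_Ps hq
  obtain ⟨b, hbdef⟩ : ∃ b : ℕ, b = (w.P.filter (fun p => ∃ h' ∈ H, some h ≠ some h' ∧
      ∃ c : ℕ, p ∣ c + h' ∧ ¬ (sC N a M u v α).Al p c)).card := ⟨_, rfl⟩
  have hb2 : (b : ℝ) ≤ Real.log N ^ 2 := by
    have hb0 : b = 0 := by
      rw [hbdef, card_eq_zero, filter_eq_empty_iff]
      rintro p hp ⟨h', hh', _, c, hc1, hc2⟩
      exact hpre.aD p hp h' hh' (tg_ne (not_not.1 hc2) hc1)
    rw [hb0, Nat.cast_zero]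
    exact sq_nonneg _
  have hy : Hy (sC N a M u v α) w.P H (some h) w.W p1 (Rb a H) (Tg h) (Pg N w.W H a) (K + 2) b := by
    refine ⟨?_, hX0, ?_, ?_, fun q hq => (rc_gq q hq).1, fun q hq => (rc_gq q hq).2.1,
      fun q hq _ => (rc_gq q hq).2.2, fun p hp => ⟨w.prime p hp, w.big p hp⟩, hpre.p1p, hpre.p1W,
      hpre.HD, ?_, fun q => rb_sub, ?_, ?_, fun q hq => ⟨(hPg q hq).1, (hPg q hq).2.1⟩, ?_, ?_, ?_, ?_, ?_⟩
    · rintro ⟨x1, x2⟩ _
      exact mul_nonneg (hα x1).1 (Real.log_natCast_nonneg x2)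
    · intro q c c' hcc
      have h1 : c + a ≡ c' + a [MOD q] := hcc.add_right a
      exact not_congr (h1.dvd_iff (dvd_refl q))
    · intro x hx hwx q hq hq2
      refine rc_nev hx hwx hα2 hu hN2 hq ?_
      rcases hq2 with h1 | ⟨h1, _⟩
      · exact hPN q h1
      · exact lt_of_le_of_lt (by exact_mod_cast h1) hWr
    · intro h' hh'
      exact Option.some_injective _ hh' ▸ hh
    · intro q hq
      have h1 := rb_card a H q
      rw [hpre.cardH] at h1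
      omega
    · intro q hq
      have hqp := hPs q hq
      have hq2 : (2 : ℝ) ≤ q := by exact_mod_cast hqp.two_le
      have h1 : ((Rb a H q).filter (fun c => (sC N a M u v α).Al q c)).card ≤ q - 1 := by
        have h2 := hpre.nf q hqp
        have h3 := Finset.card_filter_le (Rb a H q) (fun c => (sC N a M u v α).Al q c)
        omega
      have h4 : (((Rb a H q).filter (fun c => (sC N a M u v α).Al q c)).card : ℝ) ≤ (q : ℝ) - 1 := by
        have h5 : (((Rb a H q).filter (fun c => (sC N a M u v α).Al q c)).card : ℝ) ≤ ((q - 1 : ℕ) : ℝ) := by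
          exact_mod_cast h1
        rwa [Nat.cast_sub hqp.one_le, Nat.cast_one] at h5
      have h5 : (sC N a M u v α).hd q = 1 / ((q : ℝ) - 1) := rfl
      rw [h5, mul_one_div, div_le_one (by linarith)]
      exact h4
    · intro q hq
      exact Finset.filter_subset _ _
    · intro q hq
      rw [tg_card (hPg q hq).1.pos]
      omega
    · intro q hq t ht htN
      unfold Tg at ht
      rw [mem_filter] at ht
      exact (hPg q hq).2.2 h hh (tg_ne htN ht.2)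
    · intro q hq t ht h' hh' hne hd
      unfold Tg at ht
      rw [mem_filter] at ht
      have hne' : h ≠ h' := fun h1 => hne (by rw [h1])
      exact (pg_spec hq).2.2.2.2 h hh h' hh' hne' (tg_ne ht.2 hd)
    · exact le_of_eq hbdef.symm
  have hz : 0 ≤ w.z := by
    unfold Par.z
    have : 0 ≤ ∑ i, H15P.ex (H15P.qq w.P K) (fun A => w.D i A ^ 2) :=
      Finset.sum_nonneg fun i _ => H15P.ex_nonneg _ w.good.q0 w.good.q1 _ fun A => sq_nonneg _
    linarith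
  have hF0 : ∀ S, 0 ≤ FC w H S := by
    intro S
    unfold FC
    exact div_nonneg (sq_nonneg _) (pow_nonneg hz _)
  have hlvl := hC N hNC p1 hpre.p1p hSW a M u v α hα hα2 hMN hv4 huv hMv
  have hmain := hM N hNM (sC N a M u v α) w.P H (some h) w.W p1 (Rb a H) (Tg h) (Pg N w.W H a) b H59C.gq
    (FC w H) (H59C.DD N B1) hy (fun q hq => (rc_gq q hq).1) (fun q hq => (rc_gq q hq).2.1)
    (fun q hq _ => (rc_gq q hq).2.2) hpre.cardH hpre.Wdef
    (fun p hp => by exact_mod_cast ((hPN p hp).le.trans h10N)) (hX1.trans hX) hb2 hF0 hpre.exF hD hlvl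
  refine le_trans ?_ hmain
  have hVS : VS (Ps w.W p1) (Rb a H) (sC N a M u v α).hd (sC N a M u v α).Al = Vb a w.W p1 H := vs_C a w.W p1 H
  rw [hVS]
  unfold H59C.remd Dv
  rw [Nat.floor_natCast]
  refine (Finset.sum_le_sum fun d hd => le_of_eq ?_).trans (Finset.sum_le_sum_of_subset_of_nonneg ?_ fun d _ _ => abs_nonneg _)
  · rw [mem_filter] at hd
    have hsq := hd.2.1
    have h1 : ∏ q ∈ d.primeFactors, (((Tg h q).card : ℝ) * H59C.gq q) = 1 / (Nat.totient d : ℝ) := by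
      rw [← prod_gq d hsq]
      refine Finset.prod_congr rfl fun q hq => ?_
      rw [tg_card (Nat.prime_of_mem_primeFactors hq).pos]
      push_cast
      ring
    rw [h1]
    congr 1
    have h2 : (H59C.BX M u v).filter (fun x => d ∣ xv N a x + h) =
        (sC N a M u v α).S.filter (fun j => inT (Tg h) d ((sC N a M u v α).x j)) := by
      refine Finset.filter_congr fun x _ => ?_
      exact (tg_inT d (xv N a x) h hsq).symm
    have h3 : ∑ x ∈ (H59C.BX M u v).filter (fun x => d ∣ xv N a x + h),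
        H59C.wB α x * Fs w H a p1 (some h) (xv N a x) =
        ∑ j ∈ (sC N a M u v α).S.filter (fun j => inT (Tg h) d ((sC N a M u v α).x j)),
          (sC N a M u v α).wt j * (FC w H (cfg w.P H (some h) ((sC N a M u v α).x j)) *
            Sg (Ps w.W p1) (Rb a H) ((sC N a M u v α).x j)) := by
      rw [h2]
      rfl
    have h4 : H59C.XB M u v α * (AE w.P H (some h) (FC w H) * Vb a w.W p1 H) / (Nat.totient d : ℝ) =
        (sC N a M u v α).X * (AE w.P H (some h) (FC w H) * Vb a w.W p1 H) * (1 / (Nat.totient d : ℝ)) := by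
      rw [mul_one_div]
      rfl
    rw [← h4, ← h3]
  · intro d hd
    rw [mem_filter] at hd ⊢
    exact ⟨hd.1, hd.2.1, fun q hq => (hd.2.2 q hq).1⟩

end Pool.Agent.Lib.H57T
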