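import Pool.Agent.Lib.H57C.RJ
import Pool.Agent.Lib.H57T.RI

/-!
# Chunk RJ: the remainder terms for the integers in one class modulo `p1`, with the additional class `-h`
-/

open Finset

namespace Pool.Agent.Lib.H57T

open Pool.Agent.Lib.H57C


open Pool.Agent.Lib.H57M
/-- Proof. `mta` with `k` replaced by `K + k + 1`, for the sequence `sI c0 p1 (Ya n) (Yb n)` (`lvlI`), `i = some h`, the target classes
`Tp T h q` (exactly `#T q + 1` elements for `q ∈ P'`, since the class `-h` is not in `T q` by `TH`), `b = 0`, `hr q = 1/q`.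
`Hy.TH`: for `h' ≠ h`: `HRT.TH`, and `q ∤ h - h'` as `|h - h'| ≤ W < q`. `VS = VaR`. -/
theorem rJR (K k cF A0 : ℕ) (hK : 1 ≤ K) (hk : 1 ≤ k) : ∃ B0 : ℕ, ∀ B : ℕ, B0 ≤ B → ∀ θ : ℝ,
    0 < θ → θ ≤ 1 / 100 → ∃ n0 : ℕ, ∀ n : ℕ, n0 ≤ n → ∀ (w : Par K) (H : Finset ℕ) (p1 : ℕ)
    (R T : ℕ → Finset ℕ) (P' : Finset ℕ), Pre0 B cF θ w H n p1 → HRT K k w.W p1 H R T P' →
    (∀ q ∈ P', ∀ h ∈ H, ∀ h' ∈ H, h ≠ h' → ¬ h ≡ h' [MOD q]) → ∀ h ∈ H, ∀ c0 : ℕ, ∑ d ∈ Dv P' (Lv n θ),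
    |∑ t ∈ (Ioc (Ya n) (Yb n)).filter (fun t => t ≡ c0 [MOD p1] ∧ inT (Tp T h) d t),
        FF w H (some h) t * Sg (Ps w.W p1) R t -
      ((Yb n : ℝ) - Ya n) / p1 * (AE w.P H (some h) (FC w H) * VaR (Ps w.W p1) R) *
        ∏ q ∈ d.primeFactors, ((((T q).card : ℝ) + 1) * (1 / (q : ℝ)))| ≤
      n / Real.log n ^ A0 := by
  obtain ⟨A, B0, hB0⟩ := mta K (K + k + 1) cF A0 hK (by omega)
  refine ⟨B0, fun B hB θ hθ hθ' => ?_⟩
  obtain ⟨n1, hn1⟩ := hB0 B hB θ hθ hθ'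
  obtain ⟨n2, hn2⟩ := lvlI A (K * 3 + 2 * (K + k + 1))
  obtain ⟨n3, hn3⟩ := ri_lev θ hθ
  refine ⟨max (max n1 n2) (max n3 3), fun n hn w H p1 R T P' h0 h1 hPD h hh c0 => ?_⟩
  have hn1' : n1 ≤ n := ((le_max_left _ _).trans (le_max_left _ _)).trans hn
  have hn2' : n2 ≤ n := ((le_max_right _ _).trans (le_max_left _ _)).trans hn
  have hn3' : n3 ≤ n := ((le_max_left _ _).trans (le_max_right _ _)).trans hn
  have hn4' : 3 ≤ n := ((le_max_right _ _).trans (le_max_right _ _)).trans hn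
  have hn0 : (1 : ℝ) ≤ n := by
    have : 1 ≤ n := by omega
    exact_mod_cast this
  have hHy := ri_hy h0 h1 c0 p1 (Ya n) (Yb n) (ri_Ya n) (some h)
    (fun h' hh' => by rw [Option.some.injEq] at hh'; rw [← hh']; exact hh) (Tp T h) (K + k + 1)
    (by omega) (fun q _ => filter_subset _ _)
    (fun q hq => by
      rw [rj_card h1 hh hq]
      have := h1.Tk q hq
      omega)
    (fun q hq t ht h' hh' hne hd => by
      unfold Tp at ht
      rw [mem_filter, mem_range] at ht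
      obtain ⟨htq, h3 | h3⟩ := ht
      · exact h1.TH q hq t h3 h' hh' hd
      · exact hPD q hq h hh h' hh' (fun h4 => hne (by rw [h4])) (tg_ne h3 hd))
  have key := hn1 n hn1' (sI c0 p1 (Ya n) (Yb n)) w.P H (some h) w.W p1 R (Tp T h) P' 0
    (fun q => 1 / (q : ℝ)) (FC w H) ⌊Real.sqrt n⌋₊ hHy (fun q _ => by positivity)
    (fun q _ => by
      show 1 / (q : ℝ) ≤ 2 / (q : ℝ)
      gcongr
      norm_num)
    (fun q _ _ => by
      show |1 / (q : ℝ) - 1 / (q : ℝ)| ≤ 2 / (q : ℝ) ^ 2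
      rw [sub_self, abs_zero]
      positivity) h0.cardH h0.Wdef
    (fun p hp => by
      have h2 := h0.PN p hp
      have h3 : (n : ℝ) ^ (1 / 100 : ℝ) ≤ (n : ℝ) ^ (1 : ℝ) :=
        Real.rpow_le_rpow_of_exponent_le hn0 (by norm_num)
      rw [Real.rpow_one] at h3
      exact_mod_cast h2.trans h3)
    (ri_X n c0 p1 h0.p1p.one_le hn4') (by push_cast; positivity) (ri_FC w H) h0.exF (hn3 n hn3')
    (hn2 n hn2' p1 c0 p1 (Ya n) (Yb n) h0.p1p (Or.inr rfl) (ri_Ya n))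
  refine le_trans (le_of_eq ?_) key
  refine sum_congr rfl fun d hd => ?_
  have e1 : (Ioc (Ya n) (Yb n)).filter (fun t => t ≡ c0 [MOD p1] ∧ inT (Tp T h) d t) =
      (sI c0 p1 (Ya n) (Yb n)).S.filter (fun j => inT (Tp T h) d
        ((sI c0 p1 (Ya n) (Yb n)).x j)) := by
    show _ = ((Ioc (Ya n) (Yb n)).filter (fun t => t ≡ c0 [MOD p1])).filter _
    rw [filter_filter]
    rfl
  have e2 : VS (Ps w.W p1) R (sI c0 p1 (Ya n) (Yb n)).hd (sI c0 p1 (Ya n) (Yb n)).Al =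
      VaR (Ps w.W p1) R := vs_IR _ _
  rw [e1, e2]
  congr 1
  congr 1
  · refine sum_congr rfl fun t _ => ?_
    show _ = 1 * _
    rw [one_mul]
    rfl
  · congr 1
    refine prod_congr rfl fun q hq => ?_
    have hqP : q ∈ P' := by
      unfold Dv at hd
      exact (mem_filter.1 hd).2.2 q hq
    rw [rj_card h1 hh hqP, Nat.cast_add, Nat.cast_one]

/-- Proof. `rJR` with `k = 1`, `A0 = 10`, `R = Rb N H`, `T q = {N % q}`, `P' = Pg N w.W H`, `c0 = N` (`pre_hrt`, `Pre.to0`). `inT (Tp T h) d t` iff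
`∀ q ∈ d.primeFactors, q ∣ N - t ∨ q ∣ t + h` (`t ≤ N`). `∏_{q ∣ d} (2/q) = 2^ω(d)/d`. -/
theorem rJ (K cF : ℕ) (hK : 1 ≤ K) : ∃ B0 : ℕ, ∀ B : ℕ, B0 ≤ B → ∀ θ : ℝ, 0 < θ →
    θ ≤ 1 / 100 → ∃ n0 : ℕ, ∀ N : ℕ, n0 ≤ N → ∀ (w : Par K) (H : Finset ℕ) (a p1 : ℕ),
    Pre B cF θ w H N a p1 → ∀ h ∈ H, ∑ d ∈ Dv (Pg N w.W H a) (Lv N θ),
    |∑ t ∈ (Ioc (Ya N) (Yb N)).filter
        (fun t => p1 ∣ t + a ∧ ∀ q ∈ d.primeFactors, q ∣ t + a ∨ q ∣ t + h),
        Fs w H a p1 (some h) t -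
      ((Yb N : ℝ) - Ya N) / p1 * (AE w.P H (some h) (FC w H) * Va a w.W p1 H) *
        ((2 : ℝ) ^ d.primeFactors.card / d)| ≤ N / Real.log N ^ 10 := by
  obtain ⟨B0, hB0⟩ := rJR K 1 cF 10 hK le_rfl
  refine ⟨B0, fun B hB θ hθ hθ' => ?_⟩
  obtain ⟨n0, hn0⟩ := hB0 B hB θ hθ hθ'
  refine ⟨n0, fun N hN w H a p1 hp h hh => ?_⟩
  have h1 := hn0 N hN w H p1 (Rb a H) (Tg a) (Pg N w.W H a) hp.to0
    (pre_hrt B cF θ w H N a p1 hp) (fun q hq => (pg_spec hq).2.2.2.2) h hh ((p1 - 1) * a)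
  refine le_trans (le_of_eq ?_) h1
  refine sum_congr rfl fun d hd => ?_
  have hsq : Squarefree d := by
    unfold Dv at hd
    exact (mem_filter.1 hd).2.1
  have e1 : (Ioc (Ya N) (Yb N)).filter
        (fun t => p1 ∣ t + a ∧ ∀ q ∈ d.primeFactors, q ∣ t + a ∨ q ∣ t + h) =
      (Ioc (Ya N) (Yb N)).filter
        (fun t => t ≡ (p1 - 1) * a [MOD p1] ∧ inT (Tp (Tg a) h) d t) := by
    refine filter_congr fun t ht => ?_
    have hp0 : (p1 - 1) * a + a = p1 * a := by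
      have h2 : p1 - 1 + 1 = p1 := Nat.sub_add_cancel hp.p1p.one_le
      calc (p1 - 1) * a + a = (p1 - 1 + 1) * a := by ring
        _ = p1 * a := by rw [h2]
    have hcl : p1 ∣ t + a ↔ t ≡ (p1 - 1) * a [MOD p1] := by
      constructor
      · intro h3
        have h4 : p1 ∣ (p1 - 1) * a + a := by rw [hp0]; exact Dvd.intro _ rfl
        exact Nat.ModEq.add_right_cancel' a
          (((Nat.modEq_zero_iff_dvd).2 h3).trans ((Nat.modEq_zero_iff_dvd).2 h4).symm)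
      · intro h3
        have h4 := h3.add_right a
        rw [hp0] at h4
        exact (h4.dvd_iff dvd_rfl).2 (Dvd.intro _ rfl)
    refine and_congr hcl ?_
    unfold inT Tp
    refine forall_congr' fun q => forall_congr' fun hq => ?_
    have hq0 : 0 < q := (Nat.prime_of_mem_primeFactors hq).pos
    rw [mem_filter, mem_range]
    have a1 : t % q ∈ Tg a q ↔ q ∣ t + a := tg_mem hq0
    have a2 : q ∣ t % q + h ↔ q ∣ t + h := by
      have : t + h = (t % q + h) + q * (t / q) := by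
        have := Nat.mod_add_div t q
        omega
      rw [this]
      exact (Nat.dvd_add_left (Dvd.intro _ rfl)).symm
    rw [a1, a2]
    constructor
    · intro h3
      exact ⟨Nat.mod_lt _ hq0, h3⟩
    · intro h3
      exact h3.2
  rw [e1]
  congr 1
  congr 1
  have e2 : ∏ q ∈ d.primeFactors, ((((Tg a q).card : ℝ) + 1) *
      (1 / (q : ℝ))) = (2 : ℝ) ^ d.primeFactors.card / d := by
    have e3 : ∀ q ∈ d.primeFactors, (((Tg a q).card : ℝ) + 1) *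
      (1 / (q : ℝ)) = 2 / (q : ℝ) := by
      intro q hq
      rw [tg_card (Nat.prime_of_mem_primeFactors hq).pos, Nat.cast_one]
      ring
    rw [prod_congr rfl e3, prod_div_distrib, prod_const]
    congr 1
    have h4 := Nat.prod_primeFactors_of_squarefree hsq
    have h5 : ((∏ q ∈ d.primeFactors, q : ℕ) : ℝ) = (d : ℝ) := by rw [h4]
    rw [← h5]
    push_cast
    rfl
  rw [e2]
  rfl

end Pool.Agent.Lib.H57T
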