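import Pool.Agent.Lib.H57C.RM
import Pool.Agent.Lib.H57T.M3
import Pool.Agent.Lib.H57T.A1

/-!
# Chunk RM: classes and second moment
-/

open Finset

namespace Pool.Agent.Lib.H57T

open Pool.Agent.Lib.H57C


open Pool.Agent.Lib.H57M
theorem rm_fam {P H : Finset ℕ} {W : ℕ} (hP : ∀ p ∈ P, p.Prime ∧ W < p) (HD : ∀ p ∈ P, ∀ h ∈ H, ∀ h' ∈ H, h ≠ h' → ¬ h ≡ h' [MOD p])
    (i : Option ℕ) (U : Fam P H) (r c a b : ℕ) (hr : 1 ≤ r) (hab : a ≤ b) :
    (((Ioc a b).filter (fun t => t ≡ c [MOD r] ∧ ∀ j, U j ⊆ cfg P H i t j)).card : ℝ) ≤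
      ((b : ℝ) - a) / r * fpr (fun p => (if p ∣ r then (p : ℝ) else 1) / p) U + 1 := by
  classical
  have hba : (0 : ℝ) ≤ (b : ℝ) - a := by
    have : (a : ℝ) ≤ b := by exact_mod_cast hab
    linarith
  rw [m4_fpr]
  have hsub : ∀ t, (∀ j, U j ⊆ cfg P H i t j) → ∀ x ∈ (univ : Finset {h // h ∈ H}).sigma U,
      x.2.1 ∣ t + x.1.1 := by
    intro t ht x hx
    have h1 := ht x.1 (mem_sigma.1 hx).2
    unfold cfg at h1
    split_ifs at h1 with h2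
    · exact absurd h1 (by simp)
    · exact (mem_filter.1 h1).2
  by_cases hinj : ∀ x ∈ (univ : Finset {h // h ∈ H}).sigma U, ∀ y ∈ (univ : Finset {h // h ∈ H}).sigma U,
      x.2.1 = y.2.1 → x = y
  · refine rm_count ((univ : Finset {h // h ∈ H}).sigma U) (fun x => x.2.1) (fun x => x.1.1)
      (fun x _ => (hP _ x.2.2).1) hinj r c a b hr hab _ ?_
    intro t ht
    rw [mem_filter] at ht
    exact ⟨ht.1, ht.2.1, hsub t ht.2.2⟩
  · push Not at hinj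
    obtain ⟨x, hx, y, hy, hxy, hne⟩ := hinj
    have he : (Ioc a b).filter (fun t => t ≡ c [MOD r] ∧ ∀ j, U j ⊆ cfg P H i t j) = ∅ := by
      rw [filter_eq_empty_iff]
      rintro t - ⟨-, ht⟩
      have h1 := hsub t ht x hx
      have h2 := hsub t ht y hy
      rw [← hxy] at h2
      apply hne
      have hpx := (hP _ x.2.2)
      have h3 : x.1.1 ≡ y.1.1 [MOD x.2.1] := by
        have e1 : t + x.1.1 ≡ t + y.1.1 [MOD x.2.1] := by
          rw [Nat.ModEq, Nat.mod_eq_zero_of_dvd h1, Nat.mod_eq_zero_of_dvd h2]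
        exact Nat.ModEq.add_left_cancel' _ e1
      have h4 : x.1.1 = y.1.1 := by
        by_contra h7
        exact HD x.2.1 x.2.2 x.1.1 x.1.2 y.1.1 y.1.2 h7 h3
      have h5 : x.1 = y.1 := Subtype.ext h4
      have h6 : x.2 = y.2 := Subtype.ext hxy
      cases x
      cases y
      simp only at h5 h6
      rw [h5, h6]
    rw [he, card_empty, Nat.cast_zero]
    have : 0 ≤ ∏ x ∈ (univ : Finset {h // h ∈ H}).sigma U,
        ((if x.2.1 ∣ r then (x.2.1 : ℝ) else 1) / x.2.1) :=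
      prod_nonneg fun x hx => by split_ifs <;> positivity
    positivity

theorem rm_total {P H : Finset ℕ} {W K : ℕ} (hK : H.card = K) (hP : ∀ p ∈ P, p.Prime ∧ W < p)
    (HD : ∀ p ∈ P, ∀ h ∈ H, ∀ h' ∈ H, h ≠ h' → ¬ h ≡ h' [MOD p]) (i : Option ℕ) (F c : Fam P H → ℝ)
    (hF : ∀ S, F S = ∑ U : Fam P H, if ∀ j, U j ⊆ S j then c U else 0) (CF D : ℝ) (hCF : 0 ≤ CF)
    (hD0 : 0 ≤ D) (hc : ∀ U : Fam P H, |c U| ≤ CF * (3 : ℝ) ^ (∑ h, (U h).card))
    (hD : ∀ U, c U ≠ 0 → ∏ h, ∏ p ∈ U h, (p.1 : ℝ) ≤ D) (r c0 a b : ℕ) (hr : 1 ≤ r) (hab : a ≤ b)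
    (M0 : ℝ) (hM : ∏ p ∈ P, (1 + 3 / (p : ℝ)) ^ K ≤ M0)
    (h1 : ∀ p ∈ P, ∀ q ∈ P, p ∣ r → q ∣ r → p = q) :
    ∑ t ∈ (Ioc a b).filter (fun t => t ≡ c0 [MOD r]), F (cfg P H i t) ≤
      CF * M0 * (4 ^ K * (((b : ℝ) - a) / r) + D) := by
  classical
  have hPp : ∀ p ∈ P, p.Prime := fun p hp => (hP p hp).1
  have hba : (0 : ℝ) ≤ (b : ℝ) - a := by
    have : (a : ℝ) ≤ b := by exact_mod_cast hab
    linarith
  have hr' : (0 : ℝ) < r := by exact_mod_cast hr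
  have hM0 : 0 ≤ M0 := (prod_nonneg fun p _ => by positivity).trans hM
  have e1 : ∑ t ∈ (Ioc a b).filter (fun t => t ≡ c0 [MOD r]), F (cfg P H i t) =
      ∑ U : Fam P H, c U *
        (((Ioc a b).filter (fun t => t ≡ c0 [MOD r] ∧ ∀ j, U j ⊆ cfg P H i t j)).card : ℝ) := by
    simp only [hF]
    rw [sum_comm]
    refine sum_congr rfl fun U _ => ?_
    rw [← sum_filter, filter_filter, sum_const, nsmul_eq_mul, mul_comm]
  rw [e1]
  have e2 : ∀ U : Fam P H, c U *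
      (((Ioc a b).filter (fun t => t ≡ c0 [MOD r] ∧ ∀ j, U j ⊆ cfg P H i t j)).card : ℝ) ≤
      CF * (((b : ℝ) - a) / r) * (∏ h, ∏ p ∈ U h, (3 * ((if p.1 ∣ r then (p.1 : ℝ) else 1) / p.1))) +
        CF * D * (∏ h, ∏ p ∈ U h, (3 * (1 / (p.1 : ℝ)))) := by
    intro U
    have hf := rm_fam hP HD i U r c0 a b hr hab
    have p1 : (3 : ℝ) ^ (∑ h, (U h).card) * fpr (fun p => (if p ∣ r then (p : ℝ) else 1) / p) U =
        ∏ h, ∏ p ∈ U h, (3 * ((if p.1 ∣ r then (p.1 : ℝ) else 1) / p.1)) := m4_pow 3 _ U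
    have p2 : (3 : ℝ) ^ (∑ h, (U h).card) * fpr (fun p => 1 / (p : ℝ)) U =
        ∏ h, ∏ p ∈ U h, (3 * (1 / (p.1 : ℝ))) := m4_pow 3 _ U
    rw [← p1, ← p2]
    have n1 : 0 ≤ fpr (fun p => (if p ∣ r then (p : ℝ) else 1) / p) U := by
      unfold fpr
      exact prod_nonneg fun h _ => prod_nonneg fun p _ => by dsimp only; split_ifs <;> positivity
    have n2 : 0 ≤ fpr (fun p => 1 / (p : ℝ)) U := by
      unfold fpr
      exact prod_nonneg fun h _ => prod_nonneg fun p _ => by positivity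
    have n3 : (0 : ℝ) ≤ (3 : ℝ) ^ (∑ h, (U h).card) := by positivity
    by_cases hcU : c U = 0
    · rw [hcU, zero_mul]
      positivity
    · have hDU := hD U hcU
      have hpos : 0 < ∏ h, ∏ p ∈ U h, (p.1 : ℝ) := prod_pos fun h _ => prod_pos fun p _ => by
        exact_mod_cast (hPp p.1 p.2).pos
      have h2 : fpr (fun p => 1 / (p : ℝ)) U = 1 / ∏ h, ∏ p ∈ U h, (p.1 : ℝ) := by
        unfold fpr
        simp only [one_div, prod_inv_distrib]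
      have h3 : 1 ≤ D * fpr (fun p => 1 / (p : ℝ)) U := by
        rw [h2, mul_one_div, le_div_iff₀ hpos, one_mul]
        exact hDU
      calc c U * (((Ioc a b).filter (fun t => t ≡ c0 [MOD r] ∧ ∀ j, U j ⊆ cfg P H i t j)).card : ℝ)
          ≤ |c U| * (((Ioc a b).filter (fun t => t ≡ c0 [MOD r] ∧ ∀ j, U j ⊆ cfg P H i t j)).card : ℝ) :=
            mul_le_mul_of_nonneg_right (le_abs_self _) (Nat.cast_nonneg _)
        _ ≤ (CF * (3 : ℝ) ^ (∑ h, (U h).card)) *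
            (((b : ℝ) - a) / r * fpr (fun p => (if p ∣ r then (p : ℝ) else 1) / p) U +
              D * fpr (fun p => 1 / (p : ℝ)) U) :=
            mul_le_mul (hc U) (hf.trans (by linarith)) (Nat.cast_nonneg _) (by positivity)
        _ = _ := by ring
  refine (sum_le_sum fun U _ => e2 U).trans ?_
  rw [sum_add_distrib, ← mul_sum, ← mul_sum]
  have s1 : ∑ U : Fam P H, ∏ h, ∏ p ∈ U h, (3 * ((if p.1 ∣ r then (p.1 : ℝ) else 1) / p.1)) ≤
      4 ^ K * M0 := by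
    rw [m4_fam (fun p : {p // p ∈ P} => 3 * ((if p.1 ∣ r then (p.1 : ℝ) else 1) / p.1)),
      m4_all hK (fun p => 1 + 3 * ((if p ∣ r then (p : ℝ) else 1) / p))]
    exact (rm_one hPp K r h1).trans (mul_le_mul_of_nonneg_left hM (by positivity))
  have s2 : ∑ U : Fam P H, ∏ h, ∏ p ∈ U h, (3 * (1 / (p.1 : ℝ))) ≤ M0 := by
    rw [m4_fam (fun p : {p // p ∈ P} => 3 * (1 / (p.1 : ℝ))),
      m4_all hK (fun p => 1 + 3 * (1 / (p : ℝ)))]
    refine le_trans (le_of_eq ?_) hM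
    refine prod_congr rfl fun p _ => ?_
    ring
  have t1 : 0 ≤ CF * (((b : ℝ) - a) / r) := by positivity
  have t2 : 0 ≤ CF * D := by positivity
  calc CF * (((b : ℝ) - a) / r) * ∑ U : Fam P H, ∏ h, ∏ p ∈ U h,
        (3 * ((if p.1 ∣ r then (p.1 : ℝ) else 1) / p.1)) +
        CF * D * ∑ U : Fam P H, ∏ h, ∏ p ∈ U h, (3 * (1 / (p.1 : ℝ)))
      ≤ CF * (((b : ℝ) - a) / r) * (4 ^ K * M0) + CF * D * M0 :=
        add_le_add (mul_le_mul_of_nonneg_left s1 t1) (mul_le_mul_of_nonneg_left s2 t2)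
    _ = _ := by ring

/-- Upper bound for the weight in one residue class.

Proof. `FF (some h) t = ∑_U c U 1[U ⊆ cfg t]`, `|c U| ≤ L^cF 3^|U|`, `fp U ≤ N^(2θ)`. Only the families with pairwise disjoint sets count (as in `m1_zero`).
For such `U` the number of the `t ∈ (Ya, Yb]` with `t ≡ c [MOD r]` and `p ∣ t + h'` for all `p ∈ U_h'` is at most `N/lcm(r, fp U) + 1`
(one class modulo the lcm, or none), and `gcd(r, fp U)` is at most the product of the `p` in the `U_h'` which divide `r` (at most one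
prime of `P` divides `r`). With `1 ≤ N^(2θ)/fp U` the sums over the families are products (`rm_total`), and
`∏ (1 + 3/p)^K ≤ (500 L/log 2)^(3K)`. -/
theorem rcls (K cF A0 : ℕ) (hK : 1 ≤ K) : ∃ B0 : ℕ, ∀ B : ℕ, B0 ≤ B → ∀ θ : ℝ, 0 < θ →
    θ ≤ 1 / 100 → ∃ n0 : ℕ, ∀ N : ℕ, n0 ≤ N → ∀ (w : Par K) (H : Finset ℕ) (p1 : ℕ),
    Pre0 B cF θ w H N p1 → ∀ h ∈ H, ∀ r c : ℕ,
    ((∃ q : ℕ, q.Prime ∧ (r = q ∨ r = q ^ 2)) ∨ ∀ p ∈ w.P, r.Coprime p) → 1 ≤ r →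
    ∑ t ∈ (Ioc (Ya N) (Yb N)).filter (fun t => t ≡ c [MOD r]), FF w H (some h) t ≤
      Real.log N ^ B * (N / r) / Real.log N ^ A0 + (N : ℝ) ^ (1 / 20 : ℝ) := by
  refine ⟨cF + 3 * K + A0 + 10, fun B hB θ hθ0 hθ => ?_⟩
  obtain ⟨n0, hn0⟩ := rm_large (max 1 ((500 / Real.log 2) ^ (3 * K) * 4 ^ K)) (cF + 3 * K + 1)
  refine ⟨n0, fun N hN w H p1 hpre h hh r c hr1 hr => ?_⟩
  obtain ⟨h2N, hL, hlog⟩ := hn0 N hN
  have hL1 : 1 ≤ Real.log N := (le_max_left _ _).trans hL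
  have hLC := (le_max_right _ _).trans hL
  have hN1 : (1 : ℝ) ≤ N := by exact_mod_cast (by omega : 1 ≤ N)
  have hN0 : (0 : ℝ) < N := by linarith
  have hP : ∀ p ∈ w.P, p.Prime ∧ w.W < p := fun p hp => ⟨w.prime p hp, w.big p hp⟩
  have hW2 : 2 ≤ w.W := by
    have h1 := w.KW
    have h2 : 1 ≤ K ^ 2 := Nat.one_le_pow _ _ hK
    omega
  have hPN : ∀ p ∈ w.P, p ≤ N := by
    intro p hp
    have h1 := hpre.PN p hp
    have h2 : (N : ℝ) ^ (1 / 100 : ℝ) ≤ (N : ℝ) ^ (1 : ℝ) :=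
      Real.rpow_le_rpow_of_exponent_le hN1 (by norm_num)
    rw [Real.rpow_one] at h2
    exact_mod_cast h1.trans h2
  have hM := rm_mert K hP hW2 hPN h2N
  obtain ⟨cU, hF, hc, hD⟩ := hpre.exF
  have hone : ∀ p ∈ w.P, ∀ q ∈ w.P, p ∣ r → q ∣ r → p = q := by
    intro p hp q hq hpr hqr
    have hpp := (hP p hp).1
    have hqp := (hP q hq).1
    rcases hr1 with ⟨q0, hq0, hr0⟩ | hr0
    · have key : ∀ x : ℕ, x.Prime → x ∣ r → x = q0 := by
        intro x hx hxr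
        rcases hr0 with h1 | h1
        · rw [h1] at hxr
          exact (Nat.prime_dvd_prime_iff_eq hx hq0).1 hxr
        · rw [h1] at hxr
          exact (Nat.prime_dvd_prime_iff_eq hx hq0).1 (hx.dvd_of_dvd_pow hxr)
      rw [key p hpp hpr, key q hqp hqr]
    · exfalso
      have h1 := hr0 p hp
      have h2 := Nat.Coprime.eq_one_of_dvd h1.symm hpr
      exact hpp.one_lt.ne' h2
  have hYab : Ya N ≤ Yb N := by
    unfold Ya Yb
    exact Nat.div_le_div_right (by omega)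
  have hYb : (Yb N : ℝ) ≤ N := by
    have : Yb N ≤ N := by
      unfold Yb
      omega
    exact_mod_cast this
  have hYa : (0 : ℝ) ≤ (Ya N : ℝ) := Nat.cast_nonneg _
  have hr' : (0 : ℝ) < r := by exact_mod_cast hr
  have htot := rm_total hpre.cardH hP hpre.HD (some h) (FC w H) cU hF (Real.log N ^ cF)
    ((N : ℝ) ^ (2 * θ)) (by positivity) (by positivity) (fun U => by exact_mod_cast hc U) hD r c
    (Ya N) (Yb N) hr hYab _ hM hone
  have hlog2 : 0 < Real.log 2 := Real.log_pos (by norm_num)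
  have e1 : (500 * (Real.log N / Real.log 2)) ^ (3 * K) =
      (500 / Real.log 2) ^ (3 * K) * Real.log N ^ (3 * K) := by
    rw [← mul_pow]
    congr 1
    ring
  rw [e1] at htot
  have hC1 : (1 : ℝ) ≤ 4 ^ K := one_le_pow₀ (by norm_num)
  have hC2 : 0 ≤ (500 / Real.log 2) ^ (3 * K) := by positivity
  have hC3 : (500 / Real.log 2) ^ (3 * K) ≤ Real.log N := by
    refine le_trans ?_ hLC
    exact le_mul_of_one_le_right hC2 hC1
  have b1 : Real.log N ^ cF * ((500 / Real.log 2) ^ (3 * K) * Real.log N ^ (3 * K)) *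
      (4 ^ K * (((Yb N : ℝ) - Ya N) / r)) ≤ Real.log N ^ B * (N / r) / Real.log N ^ A0 := by
    have s1 : ((Yb N : ℝ) - Ya N) / r ≤ N / r := by
      gcongr
      linarith
    have s2 : Real.log N ^ (cF + 3 * K + 1 + A0) ≤ Real.log N ^ B :=
      pow_le_pow_right₀ hL1 (by omega)
    rw [le_div_iff₀ (by positivity)]
    calc Real.log N ^ cF * ((500 / Real.log 2) ^ (3 * K) * Real.log N ^ (3 * K)) *
          (4 ^ K * (((Yb N : ℝ) - Ya N) / r)) * Real.log N ^ A0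
        ≤ Real.log N ^ cF * ((500 / Real.log 2) ^ (3 * K) * Real.log N ^ (3 * K)) *
          (4 ^ K * (N / r)) * Real.log N ^ A0 := by gcongr
      _ = (Real.log N ^ cF * Real.log N ^ (3 * K) * Real.log N ^ A0 * (N / r)) *
          ((500 / Real.log 2) ^ (3 * K) * 4 ^ K) := by ring
      _ ≤ (Real.log N ^ cF * Real.log N ^ (3 * K) * Real.log N ^ A0 * (N / r)) * Real.log N :=
          mul_le_mul_of_nonneg_left hLC (by positivity)
      _ = Real.log N ^ (cF + 3 * K + 1 + A0) * (N / r) := by ring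
      _ ≤ Real.log N ^ B * (N / r) := mul_le_mul_of_nonneg_right s2 (by positivity)
  have b2 : Real.log N ^ cF * ((500 / Real.log 2) ^ (3 * K) * Real.log N ^ (3 * K)) *
      (N : ℝ) ^ (2 * θ) ≤ (N : ℝ) ^ (1 / 20 : ℝ) := by
    have s1 : (N : ℝ) ^ (2 * θ) ≤ (N : ℝ) ^ (1 / 50 : ℝ) :=
      Real.rpow_le_rpow_of_exponent_le hN1 (by linarith)
    calc Real.log N ^ cF * ((500 / Real.log 2) ^ (3 * K) * Real.log N ^ (3 * K)) * (N : ℝ) ^ (2 * θ)
        ≤ Real.log N ^ cF * (Real.log N * Real.log N ^ (3 * K)) * (N : ℝ) ^ (1 / 50 : ℝ) := by gcongr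
      _ = Real.log N ^ (cF + 3 * K + 1) * (N : ℝ) ^ (1 / 50 : ℝ) := by ring
      _ ≤ (N : ℝ) ^ (3 / 100 : ℝ) * (N : ℝ) ^ (1 / 50 : ℝ) :=
          mul_le_mul_of_nonneg_right hlog (by positivity)
      _ = (N : ℝ) ^ (1 / 20 : ℝ) := by
          rw [← Real.rpow_add hN0]
          norm_num
  calc ∑ t ∈ (Ioc (Ya N) (Yb N)).filter (fun t => t ≡ c [MOD r]), FF w H (some h) t
      ≤ Real.log N ^ cF * ((500 / Real.log 2) ^ (3 * K) * Real.log N ^ (3 * K)) *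
        (4 ^ K * (((Yb N : ℝ) - Ya N) / r) + (N : ℝ) ^ (2 * θ)) := htot
    _ = Real.log N ^ cF * ((500 / Real.log 2) ^ (3 * K) * Real.log N ^ (3 * K)) *
        (4 ^ K * (((Yb N : ℝ) - Ya N) / r)) +
        Real.log N ^ cF * ((500 / Real.log 2) ^ (3 * K) * Real.log N ^ (3 * K)) *
        (N : ℝ) ^ (2 * θ) := by ring
    _ ≤ _ := add_le_add b1 b2

/-- Proof. `Par.four_le` with `M = 1`, `b h = h`, `Y = N + 1`; `z ≥ 1`; `w.h ≤ L^3`, `w.lv ≤ N^θ`: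
`∑ L^4 ≤ 2 ((n+1)^4 (1 + L^3))^K (N + 1) + 2 N^(4θ) ≤ L^B N` if `B ≥ 4 K + 10` and `N` is large. -/
theorem rmom (K m : ℕ) (hK : 1 ≤ K) : ∃ B0 : ℕ, ∀ B : ℕ, B0 ≤ B → ∀ θ : ℝ, 0 < θ →
    θ ≤ 1 / 100 → ∃ n0 : ℕ, ∀ N : ℕ, n0 ≤ N → ∀ (w : Par K) (H : Finset ℕ), w.n = m →
    w.h ≤ Real.log N ^ 3 → w.lv ≤ (N : ℝ) ^ θ → H.card = K → (∀ p ∈ w.P, ∀ h ∈ H, ∀ h' ∈ H, h ≠ h' → ¬ h ≡ h' [MOD p]) →
    200 * K ^ 2 ≤ w.W →
    ∑ t ∈ Icc 1 N, FF w H none t ^ 2 ≤ Real.log N ^ B * N := by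
  refine ⟨4 * K + 10, fun B hB θ hθ0 hθ => ?_⟩
  obtain ⟨n0, hn0⟩ := rm_large (max 2 (2 * ((m : ℝ) + 1) ^ 4)) 1
  refine ⟨n0, fun N hN w H hm hh hlv hH hW h200 => ?_⟩
  obtain ⟨h2N, hL, -⟩ := hn0 N hN
  have hL2 : 2 ≤ Real.log N := (le_max_left _ _).trans hL
  have hLC := (le_max_right _ _).trans hL
  have hL1 : 1 ≤ Real.log N := by linarith
  have hN1 : (1 : ℝ) ≤ N := by exact_mod_cast (by omega : 1 ≤ N)
  have hN0 : (0 : ℝ) < N := by linarith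
  have h4 := w.four_le (J := {h // h ∈ H}) (by rw [Fintype.card_coe, hH]) 1 (fun h => h.1)
    (a1_forms w H hH hW) h200 (N + 1)
  have hz := w.z_bounds
  have hzK : 1 ≤ w.z ^ K := one_le_pow₀ hz.1
  have s1 : ∑ t ∈ Icc 1 N, FF w H none t ^ 2 ≤
      ∑ t ∈ range (N + 1), w.L (fun j : {h // h ∈ H} => H15P.hit w.P (j.1 + 1 * t)) ^ 4 := by
    have hsub : Icc 1 N ⊆ range (N + 1) := by
      intro t ht
      rw [mem_Icc] at ht
      rw [mem_range]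
      omega
    refine le_trans (sum_le_sum fun t _ => ?_) (sum_le_sum_of_subset_of_nonneg hsub
      (f := fun t => w.L (fun j : {h // h ∈ H} => H15P.hit w.P (j.1 + 1 * t)) ^ 4)
      (fun t _ _ => by positivity))
    have e : cfg w.P H none t = fun j : {h // h ∈ H} => H15P.hit w.P (j.1 + 1 * t) := by
      funext j
      unfold cfg
      rw [if_neg (by simp), one_mul, add_comm]
    unfold FF
    rw [e, div_pow, ← pow_mul, show 2 * 2 = 4 from rfl]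
    exact div_le_self (by positivity) (one_le_pow₀ hzK)
  have s2 : (((w.n : ℝ) + 1) ^ 4 * (1 + w.h)) ^ K ≤ Real.log N ^ (4 * K) := by
    rw [pow_mul]
    have h1 : 0 ≤ w.h := w.h0
    refine pow_le_pow_left₀ (by positivity) ?_ K
    have h2 : 1 + w.h ≤ 2 * Real.log N ^ 3 := by
      have : 1 ≤ Real.log N ^ 3 := one_le_pow₀ hL1
      linarith
    calc ((w.n : ℝ) + 1) ^ 4 * (1 + w.h) ≤ ((w.n : ℝ) + 1) ^ 4 * (2 * Real.log N ^ 3) :=
          mul_le_mul_of_nonneg_left h2 (by positivity)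
      _ = (2 * ((w.n : ℝ) + 1) ^ 4) * Real.log N ^ 3 := by ring
      _ ≤ Real.log N * Real.log N ^ 3 := by
          rw [hm]
          exact mul_le_mul_of_nonneg_right hLC (by positivity)
      _ = Real.log N ^ 4 := by ring
  have s3 : w.lv ^ 4 ≤ N := by
    have h1 : (0 : ℝ) ≤ w.lv := by
      have := w.lv1
      linarith
    calc w.lv ^ 4 ≤ ((N : ℝ) ^ θ) ^ 4 := pow_le_pow_left₀ h1 hlv 4
      _ = (N : ℝ) ^ (θ * (4 : ℕ)) := by rw [Real.rpow_mul hN0.le, Real.rpow_natCast]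
      _ ≤ (N : ℝ) ^ (1 : ℝ) := Real.rpow_le_rpow_of_exponent_le hN1 (by push_cast; linarith)
      _ = N := Real.rpow_one _
  have s4 : Real.log N ^ (4 * K + 3) ≤ Real.log N ^ B := pow_le_pow_right₀ hL1 (by omega)
  have s5 : (8 : ℝ) ≤ Real.log N ^ 3 := by
    calc (8 : ℝ) = 2 ^ 3 := by norm_num
      _ ≤ Real.log N ^ 3 := pow_le_pow_left₀ (by norm_num) hL2 3
  have s6 : (1 : ℝ) ≤ Real.log N ^ (4 * K) := one_le_pow₀ hL1
  calc ∑ t ∈ Icc 1 N, FF w H none t ^ 2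
      ≤ 2 * (((w.n : ℝ) + 1) ^ 4 * (1 + w.h)) ^ K * ((N + 1 : ℕ) : ℝ) + 2 * w.lv ^ 4 := s1.trans h4
    _ ≤ 2 * Real.log N ^ (4 * K) * (2 * N) + 2 * N := by
        refine add_le_add ?_ (by linarith)
        have : ((N + 1 : ℕ) : ℝ) ≤ 2 * N := by
          push_cast
          linarith
        gcongr
    _ ≤ 8 * (Real.log N ^ (4 * K) * N) := by
        have h1 : (N : ℝ) ≤ Real.log N ^ (4 * K) * N := le_mul_of_one_le_left hN0.le s6
        linarith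
    _ ≤ Real.log N ^ 3 * (Real.log N ^ (4 * K) * N) := mul_le_mul_of_nonneg_right s5 (by positivity)
    _ = Real.log N ^ (4 * K + 3) * N := by ring
    _ ≤ Real.log N ^ B * N := mul_le_mul_of_nonneg_right s4 hN0.le

end Pool.Agent.Lib.H57T
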