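import Pool.Agent.Lib.H57C.REG
import Pool.Agent.Lib.H57T.ZW
import Pool.Agent.Lib.H57T.Zd
import Pool.Agent.Lib.H57T.A1
import Pool.Agent.Lib.H57T.RB
import Pool.Agent.Lib.H57T.RC
import Pool.Agent.Lib.H57T.RI
import Pool.Agent.Lib.H57T.RJ
import Pool.Agent.Lib.H57T.RM

/-!
# Chunk REG: everything that is needed for the sieve
-/

open Finset

namespace Pool.Agent.Lib.H57T

open Pool.Agent.Lib.H57C


open Pool.Agent.Lib.H57M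
/-- Proof. `wt_exists θ G` gives `m`, `cF`, `Dt`; `K = 4000^m`. `rB`, `rC`, `rI`, `rJ`, `rcls` (with `A0 = 20`), `rmom` give `A'` (maximum of two, `SWp_mono`) and `B0`;
`B ≥ B0`, `B ≥ A' + 2`, `B ≥ 3`. For `H` given and `N` large (also in terms of `H` and `K0`): `w` from `wt_exists`, `p1` from `sw2 A' K0`:
`p1 ≤ L^(A'+1) ≤ L^B ≤ W`; `h ≤ W` for all `h ∈ H`. `aen`: `ae_none`. `aes`: `ae_some`, with `Q/φ(Q) ≤ CQ max(1, κ0 θ L) ≤ C L`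
(`Q_div_totient_le`, `H92G`; or `∏_{p ≤ N} p/(p-1) ≤ C L`), `CL = (2(m+1))^K`, `Dt` constants, `W ≥ L^3`: `n2` holds for large `N`. -/
theorem reg_exists (θ : ℝ) (hθ : 0 < θ) (hθ1 : θ ≤ 1 / 100) :
    ∃ C1 : ℝ, 0 < C1 ∧ ∀ G : ℝ, 0 < G → ∃ m : ℕ, 1 ≤ m ∧ (m : ℝ) ≤ C1 * (G + 1) ∧ ∃ cF B : ℕ, 3 ≤ B ∧ ∀ K0 : ℕ,
      ∃ n0 : ℕ, ∀ N : ℕ, n0 ≤ N → ∀ H : Finset ℕ, H.card = 4000 ^ m → ∀ a : ℕ,
        (∀ h ∈ H, 100 * h ≤ N) → 100 * a ≤ N → a ∉ H → (∀ h ∈ H, 2 ∣ a + h) →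
        (∀ q : ℕ, q.Prime → (Rb a H q).card < q) →
        ∃ (w : Par (4000 ^ m)) (p1 : ℕ), K0 ≤ p1 ∧ Reg B cF θ G w H N a p1 := by
  classical
  obtain ⟨C1, hC1, hwt0⟩ := wt_existsZ θ hθ hθ1
  refine ⟨C1, hC1, fun G hG => ?_⟩
  obtain ⟨m, hm, hmC, cF, Dt, hwt⟩ := hwt0 G hG
  have hK1 : 1 ≤ 4000 ^ m := Nat.one_le_pow _ _ (by norm_num)
  obtain ⟨AB, BB, hB⟩ := rB (4000 ^ m) cF hK1
  obtain ⟨AC, BC, hC⟩ := rC (4000 ^ m) cF hK1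
  obtain ⟨BI, hI⟩ := rI (4000 ^ m) cF hK1
  obtain ⟨BJ, hJ⟩ := rJ (4000 ^ m) cF hK1
  obtain ⟨BM, hM⟩ := rcls (4000 ^ m) cF 20 hK1
  obtain ⟨BS, hS⟩ := rmom (4000 ^ m) m hK1
  obtain ⟨CM, hCM, hQt⟩ := H92G.Q_div_totient_le
  obtain ⟨B, hBdef⟩ : ∃ B : ℕ, B = AB + AC + BB + BC + BI + BJ + BM + BS + 3 := ⟨_, rfl⟩
  refine ⟨m, hm, hmC, cF, B, by omega, fun K0 => ?_⟩
  obtain ⟨n1, h1⟩ := hwt B (by omega)
  obtain ⟨n2, h2⟩ := sw2 (AB + AC) K0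
  obtain ⟨n3, h3⟩ := hB B (by omega) θ hθ hθ1
  obtain ⟨n4, h4⟩ := hC B (by omega) θ hθ hθ1
  obtain ⟨n5, h5⟩ := hI B (by omega) θ hθ hθ1
  obtain ⟨n6, h6⟩ := hJ B (by omega) θ hθ hθ1
  obtain ⟨n7, h7⟩ := hM B (by omega) θ hθ hθ1
  obtain ⟨n8, h8⟩ := hS B (by omega) θ hθ hθ1
  obtain ⟨X, hX⟩ : ∃ X : ℝ, X = 8 * ((4000 ^ m : ℕ) : ℝ) ^ 2 *
    (2 * ((m : ℝ) + 1)) ^ (4000 ^ m) * Dt ^ 2 := ⟨_, rfl⟩
  have hX0 : 0 ≤ X := by rw [hX]; positivity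
  obtain ⟨n9, h9⟩ := H59C.cdl_log (1 + 400 * ((4000 ^ m : ℕ) : ℝ) ^ 2 + 100 * (CM * X))
  obtain ⟨n10, h10⟩ := zd_card (4000 ^ m)
  refine ⟨n1 + n2 + n3 + n4 + n5 + n6 + n7 + n8 + n9 + n10 + 3, fun N hN H hH a hHN haN haH he hnf => ?_⟩
  have hLL := h9 N (by omega)
  have hk0 : (0 : ℝ) ≤ 400 * ((4000 ^ m : ℕ) : ℝ) ^ 2 := by positivity
  have hc0 : 0 ≤ 100 * (CM * X) := by positivity
  have hL1 : 1 ≤ Real.log N := by linarith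
  have hL0 : 0 < Real.log N := by linarith
  have hHN' : ∀ h ∈ H, h ≤ N := fun h hh => by
    have := hHN h hh
    omega
  obtain ⟨w, w1, w2, w3, w4, w5, w6', w7, w8⟩ := h1 N (by omega) (Zd H a)
    (h10 N (by omega) a H hH hHN' (by omega))
  have w6 : ∀ p ∈ w.P, (p : ℝ) ≤ (N : ℝ) ^ (1 / 100 : ℝ) := fun p hp => (w6' p hp).1
  have hHD : ∀ p ∈ w.P, ∀ h ∈ H, ∀ h' ∈ H, h ≠ h' → ¬ h ≡ h' [MOD p] :=
    fun p hp h hh h' hh' hne hm => (w6' p hp).2 (zd_mem_h (w.prime p hp) hh hh' hne hm)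
  have haD : ∀ p ∈ w.P, ∀ h ∈ H, ¬ a ≡ h [MOD p] :=
    fun p hp h hh hm => (w6' p hp).2 (zd_mem_a haH (w.prime p hp) hh hm)
  obtain ⟨p1, q1, q2, q3, q4⟩ := h2 N (by omega)
  have hLB : Real.log N ^ B ≤ w.W := by
    rw [w2]; exact Nat.le_ceil _
  have hLW : Real.log N ≤ w.W := le_trans (le_self_pow₀ hL1 (by omega)) hLB
  have hL3 : Real.log N ^ 3 ≤ w.W := le_trans (pow_le_pow_right₀ hL1 (by omega)) hLB
  have hKW : 400 * ((4000 ^ m : ℕ) : ℝ) ^ 2 ≤ w.W := by linarith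
  have hKW' : 400 * (4000 ^ m) ^ 2 ≤ w.W := by
    have : ((400 * (4000 ^ m) ^ 2 : ℕ) : ℝ) ≤ w.W := by
      push_cast
      push_cast at hKW
      exact hKW
    exact_mod_cast this
  have hp1W : p1 ≤ w.W := by
    have a1 : (p1 : ℝ) ≤ w.W := by
      calc (p1 : ℝ) ≤ Real.log N ^ (AB + AC + 1) := q3
        _ ≤ Real.log N ^ B := pow_le_pow_right₀ hL1 (by omega)
        _ ≤ w.W := hLB
    exact_mod_cast a1
  have hpre : Pre B cF θ w H N a p1 := ⟨⟨hH, hHN, hHD, w2, w6, q1, hp1W, w8 H hH⟩, haN, haH, haD, he, hnf⟩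
  have hpre0 := hpre.to0
  have hSB : H59C.SWp AB N p1 := H59C.SWp_mono (by omega) (by omega) q4
  have hSC : H59C.SWp AC N p1 := H59C.SWp_mono (by omega) (by omega) q4
  have hW0 : (0 : ℝ) < w.W := by linarith
  have hn1' : (1 : ℝ) ≤ N := by exact_mod_cast (by omega : 1 ≤ N)
  have hratio := reg_ratio CM hQt w.P w.prime N (fun p hp => by
    have a1 := w6 p hp
    have a2 : (N : ℝ) ^ (1 / 100 : ℝ) ≤ N := by
      calc (N : ℝ) ^ (1 / 100 : ℝ) ≤ (N : ℝ) ^ (1 : ℝ) :=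
            Real.rpow_le_rpow_of_exponent_le hn1' (by norm_num)
        _ = N := Real.rpow_one _
    exact_mod_cast a1.trans a2) hL1
  have hn2 : (((∏ p ∈ w.P, p : ℕ) : ℝ) / ((∏ p ∈ w.P, p).totient : ℝ)) *
      (8 * ((4000 ^ m : ℕ) : ℝ) ^ 2 * w.CL * w.Dt ^ 2 / w.W) ≤ 1 / 100 := by
    have e1 : 8 * ((4000 ^ m : ℕ) : ℝ) ^ 2 * w.CL * w.Dt ^ 2 = X := by
      unfold Par.CL
      rw [w1, w3, hX]
    rw [e1]
    calc (((∏ p ∈ w.P, p : ℕ) : ℝ) / ((∏ p ∈ w.P, p).totient : ℝ)) * (X / w.W)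
        ≤ (CM * Real.log N) * (X / w.W) :=
          mul_le_mul_of_nonneg_right hratio (by positivity)
      _ ≤ (CM * Real.log N) * (X / Real.log N ^ 3) := by
          refine mul_le_mul_of_nonneg_left ?_ (by positivity)
          exact div_le_div_of_nonneg_left hX0 (by positivity) hL3
      _ = (CM * X) / Real.log N ^ 2 := by
          field_simp
      _ ≤ 1 / 100 := by
          rw [div_le_iff₀ (by positivity)]
          have : Real.log N ≤ Real.log N ^ 2 := le_self_pow₀ hL1 (by norm_num)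
          nlinarith
  obtain ⟨a1, a2⟩ := ae_none w H hH hHD hKW'
  refine ⟨w, p1, q2, { hpre with
    aen0 := a1
    aen := a2
    aes := fun h hh => ae_some w H hH hHD hKW h hh hn2
    gain := w7
    remB := fun h hh => h3 N (by omega) w H a p1 hpre hSB h hh
    remC := fun h hh M u v α => h4 N (by omega) w H a p1 hpre hSC h hh M u v α
    remI := h5 N (by omega) w H a p1 hpre
    remJ := fun h hh => h6 N (by omega) w H a p1 hpre h hh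
    cls := fun h hh r c hr hr1 => h7 N (by omega) w H p1 hpre0 h hh r c
      (hr.imp (fun hr => ⟨r, hr, Or.inl rfl⟩) id) hr1
    mom := h8 N (by omega) w H w1 w4 w5 hH hHD (by omega) }⟩

end Pool.Agent.Lib.H57T
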