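import Pool.Agent.Lib.H57T.Defs
import Pool.Agent.Lib.H59C.CCV

/-!
# Chunk S3a: covering by boxes, with weights
-/

open Finset

namespace Pool.Agent.Lib.H57T

open Pool.Agent.Lib.H57C


open Pool.Agent.Lib.H57M
open Pool.Agent.Lib.H59C (Sq Win Tri lv Rel BX wB al)

open Classical in
/-- Proof. The proof of `cover` (`H59C/CCV.lean`) with the weights `Φ ≥ 0`: every `p` in the filter has `N' - p = q1 q2 q3 = x.1 x.2` for some `x` in a
box of `Rel`, `p = N' - x.1 x.2`, and `1 ≤ wB x/log (lv ..)`. Different `p` give different `x` (in the same box or not). -/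
theorem cover' (δ : ℝ) (hδ : 0 < δ) (hδ1 : δ ≤ 1 / 100) : ∃ n0 : ℕ, ∀ n : ℕ, n0 ≤ n →
    ∀ y1 y2 : ℕ, Win n 2 (y1 + 2) (y2 + 2) → ∀ Φ : ℕ → ℝ, (∀ v, 0 ≤ Φ v) →
    ∑ v ∈ (Ioc y1 y2).filter (fun v => Tri n v), Φ v ≤
      ∑ b ∈ Rel n 2 (y1 + 2) (y2 + 2) δ, 1 / Real.log (lv δ b.2) *
        ∑ x ∈ (BX (lv δ (b.1 + 1)) (lv δ b.2) (lv δ (b.2 + 1))).filter
          (fun x => y1 < x.1 * x.2 ∧ x.1 * x.2 ≤ y2),
          wB (al n δ b) x * Φ (x.1 * x.2) := by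
  obtain ⟨n1, hn1⟩ := Pool.Agent.Lib.H59C.cdl_zz 4
  refine ⟨n1 + 1000, fun n hn y1 y2 hW Φ hΦ => ?_⟩
  have hN : (1000 : ℝ) ≤ n := by exact_mod_cast (by omega : 1000 ≤ n)
  have hz4 := hn1 n (by omega)
  have hyz : Pool.Agent.Lib.H59C.zz n ≤ Pool.Agent.Lib.H59C.yy n := by
    unfold Pool.Agent.Lib.H59C.zz Pool.Agent.Lib.H59C.yy
    calc (n : ℝ) ^ (1 / 8 : ℝ) ≤ (n : ℝ) ^ (1 / 3 : ℝ) :=
          Real.rpow_le_rpow_of_exponent_le (by linarith) (by norm_num)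
      _ ≤ (2 * n : ℝ) ^ (1 / 3 : ℝ) :=
          Real.rpow_le_rpow (by linarith) (by linarith) (by norm_num)
  obtain ⟨F, hF⟩ : ∃ F : ℕ × ℕ → Finset (ℕ × ℕ), F = fun b =>
    (BX (lv δ (b.1 + 1)) (lv δ b.2) (lv δ (b.2 + 1))).filter
          (fun x => y1 < x.1 * x.2 ∧ x.1 * x.2 ≤ y2) := ⟨_, rfl⟩
  obtain ⟨t, ht⟩ : ∃ t : (_ : ℕ × ℕ) × (ℕ × ℕ) → ℝ, t = fun y =>
    1 / Real.log (lv δ y.1.2) * wB (al n δ y.1) y.2 := ⟨_, rfl⟩
  have ht0 : ∀ y, 0 ≤ t y := by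
    intro y
    rw [ht]
    apply mul_nonneg
    · exact div_nonneg zero_le_one (Real.log_natCast_nonneg _)
    · apply mul_nonneg (Pool.Agent.Lib.H59C.ccv_al_nonneg _ _ _ _)
      unfold Pool.Agent.Lib.H59C.lg
      exact Real.log_natCast_nonneg _
  -- the data of a prime
  have hdata : ∀ p ∈ (Ioc y1 y2).filter (fun p => Tri n p),
      ∃ y : (_ : ℕ × ℕ) × (ℕ × ℕ), y ∈ (Rel n 2 (y1 + 2) (y2 + 2) δ).sigma F ∧ y.2.1 * y.2.2 = p ∧ 1 ≤ t y := by
    intro p hp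
    rw [mem_filter, mem_Ioc] at hp
    obtain ⟨⟨hp1, hp2⟩, q1, q2, q3, hq1, hq2, hq3, hz1, hy1, hy2, h23, hdist⟩ := hp
    have hdle : p ≤ 2 * n := by
      have := hW.le
      omega
    have hm2 : 2 ≤ q1 * q2 := by
      have := hq1.two_le
      have := hq2.two_le
      nlinarith
    have hmle : q1 * q2 ≤ 2 * n := by
      have h1 : q1 * q2 * 1 ≤ q1 * q2 * q3 := Nat.mul_le_mul_left _ hq3.one_lt.le
      rw [mul_one] at h1
      omega
    have hqle : q3 ≤ 2 * n := by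
      have h1 : 1 * q3 ≤ q1 * q2 * q3 := Nat.mul_le_mul_right _ (by omega)
      omega
    obtain ⟨i, hi1, hi2⟩ := Pool.Agent.Lib.H59C.ccv_index δ hδ (q1 * q2) hm2
    obtain ⟨j, hj1, hj2⟩ := Pool.Agent.Lib.H59C.ccv_index δ hδ q3 hq3.two_le
    have hal : al n δ (i, j) (q1 * q2) = 1 := by
      unfold al
      rw [if_pos]
      exact ⟨hi1, q1, q2, hq1, hq2, hz1, hy1, hy2, h23.trans hj2, rfl⟩
    have hyq3 : Pool.Agent.Lib.H59C.yy n ≤ q3 := by
      have : (q2 : ℝ) ≤ q3 := by exact_mod_cast h23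
      linarith
    have hRel : (i, j) ∈ Rel n 2 (y1 + 2) (y2 + 2) δ := by
      unfold Pool.Agent.Lib.H59C.Rel
      rw [mem_filter, mem_product, mem_range, mem_range]
      exact ⟨⟨Pool.Agent.Lib.H59C.ccv_index_le δ hδ hδ1 n _ i (by omega) hmle hi1,
        Pool.Agent.Lib.H59C.ccv_index_le δ hδ hδ1 n _ j (by omega) hqle hj1⟩,
        q1 * q2, q3, p + 2, hi1, hi2, hj1, hj2, hq3, hal, hyq3, by omega, by omega, by unfold Nat.dist; omega⟩
    have hlv2 : 2 ≤ lv δ j := by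
      have h1 : (q3 : ℝ) ≤ (1 + δ) ^ (j + 1) := by
        have h2 : (q3 : ℝ) ≤ (lv δ (j + 1) : ℝ) := by exact_mod_cast hj2
        have h3 : (lv δ (j + 1) : ℝ) ≤ (1 + δ) ^ (j + 1) := by
          unfold lv
          exact Nat.floor_le (by positivity)
        linarith
      have h2 : (3 : ℝ) ≤ (1 + δ) ^ j := by
        rw [pow_succ] at h1
        have h3 : (4 : ℝ) ≤ (1 + δ) ^ j * (1 + δ) := by linarith
        have h4 : (0 : ℝ) < (1 + δ) ^ j := by positivity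
        nlinarith
      unfold lv
      apply Nat.le_floor
      push_cast
      linarith
    refine ⟨⟨(i, j), (q1 * q2, q3)⟩, ?_, hdist.symm, ?_⟩
    · rw [mem_sigma]
      refine ⟨hRel, ?_⟩
      rw [hF]
      show (q1 * q2, q3) ∈ (BX (lv δ (i + 1)) (lv δ j) (lv δ (j + 1))).filter
          (fun x => y1 < x.1 * x.2 ∧ x.1 * x.2 ≤ y2)
      rw [mem_filter]
      constructor
      · unfold BX
        rw [mem_product, mem_Icc, Pool.Agent.Lib.H59C.mem_Sq]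
        exact ⟨⟨by show 1 ≤ q1 * q2; omega, hi2⟩, ⟨hj1, hj2⟩, hq3⟩
      · show y1 < q1 * q2 * q3 ∧ q1 * q2 * q3 ≤ y2
        rw [← hdist]
        exact ⟨hp1, hp2⟩
    · rw [ht]
      show 1 ≤ 1 / Real.log (lv δ j) * (al n δ (i, j) (q1 * q2) * Pool.Agent.Lib.H59C.lg q3)
      rw [hal, one_mul, one_div, ← div_eq_inv_mul]
      have h1 : (2 : ℝ) ≤ lv δ j := by exact_mod_cast hlv2
      have h2 : 0 < Real.log (lv δ j) := Real.log_pos (by linarith)
      rw [le_div_iff₀ h2, one_mul]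
      unfold Pool.Agent.Lib.H59C.lg
      apply Real.log_le_log (by linarith)
      exact_mod_cast hj1.le
  choose! f hf1 hf2 hf3 using hdata
  have hinj : Set.InjOn f ((Ioc y1 y2).filter (fun p => Tri n p)) := by
    intro p hp p' hp' heq
    have h1 := hf2 p hp
    have h2 := hf2 p' hp'
    rw [← h1, ← h2, heq]
  calc ∑ p ∈ (Ioc y1 y2).filter (fun p => Tri n p), Φ p
      ≤ ∑ p ∈ (Ioc y1 y2).filter (fun p => Tri n p),
          t (f p) * Φ ((f p).2.1 * (f p).2.2) := by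
        refine sum_le_sum fun p hp => ?_
        rw [hf2 p hp]
        exact le_mul_of_one_le_left (hΦ p) (hf3 p hp)
    _ = ∑ y ∈ ((Ioc y1 y2).filter (fun p => Tri n p)).image f,
          t y * Φ (y.2.1 * y.2.2) := by
        rw [sum_image hinj]
    _ ≤ ∑ y ∈ (Rel n 2 (y1 + 2) (y2 + 2) δ).sigma F, t y * Φ (y.2.1 * y.2.2) := by
        apply sum_le_sum_of_subset_of_nonneg
        · intro y hy
          rw [mem_image] at hy
          obtain ⟨p, hp, rfl⟩ := hy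
          exact hf1 p hp
        · intro y _ _
          exact mul_nonneg (ht0 y) (hΦ _)
    _ = ∑ b ∈ Rel n 2 (y1 + 2) (y2 + 2) δ, ∑ x ∈ F b, t ⟨b, x⟩ * Φ (x.1 * x.2) := by
        rw [sum_sigma]
    _ = _ := by
        apply sum_congr rfl
        intro b _
        rw [mul_sum, ht, hF]
        refine sum_congr rfl fun x _ => ?_
        exact mul_assoc _ _ _

end Pool.Agent.Lib.H57T
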