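import Pool.Agent.Lib.H57C.SN
import Pool.Agent.Lib.H57T.S0

/-!
# Chunk SN: the negative part
-/

open Finset

namespace Pool.Agent.Lib.H57T

open Pool.Agent.Lib.H57C


open Pool.Agent.Lib.H57M
open Pool.Agent.Lib.H59C (AA zz)
theorem sn_Fs {K : ℕ} (w : Par K) (H : Finset ℕ) (a p1 : ℕ) (i : Option ℕ) (t : ℕ) : 0 ≤ Fs w H a p1 i t := by
  unfold Fs FF Sg
  have hz : 0 < w.z := lt_of_lt_of_le one_pos w.z_bounds.1
  refine mul_nonneg (div_nonneg (sq_nonneg _) (pow_nonneg hz.le _)) ?_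
  split_ifs <;> norm_num

/-- Proof. `jr 1` with `z = zz N`, `D = z^3` (`log D = 3 log z`): `sift ≤ Xi Vz (AA/3 + 1) + remd`, and `D Q0 = N^(3/8) Q0 ≤ Lv N θ` for `θ ≤ 1/100` and large
`N`; the moduli of `remd` are in `Dv (Pg) (Lv)`: `remI`. `Xi ≤ (N/10 + 1) (11/10) Va` (`aen`). -/
theorem Ns_up (K B cF : ℕ) (θ G : ℝ) (hK : 1 ≤ K) (hB : 3 ≤ B) (hθ : 0 < θ) (hθ1 : θ ≤ 1 / 100) :
    ∃ n0 : ℕ, ∀ N : ℕ, n0 ≤ N →
    ∀ (w : Par K) (H : Finset ℕ) (a p1 : ℕ), Reg B cF θ G w H N a p1 →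
    Ns w H N a p1 ≤ N / 8 * (Va a w.W p1 H * Vz N w.W H a * (AA / 3 + 1)) +
      N / Real.log N ^ 10 := by
  obtain ⟨Q0, hQ0, z0, hz0, hjr⟩ := Pool.Agent.Lib.H59C.jr 1 one_pos
  obtain ⟨n1, hn1⟩ := sn_large Q0 z0
  obtain ⟨c, hc, n2, hn2⟩ := vz_low
  obtain ⟨n3, hn3⟩ := va_low K B
  refine ⟨max n1 (max n2 n3), fun N hN w H a p1 hR => ?_⟩
  obtain ⟨g1, g2, g3⟩ := hn1 N (le_trans (le_max_left _ _) hN)
  have hNr : (1000 : ℝ) ≤ N := by exact_mod_cast g1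
  have hL0 : 0 < Real.log N := Real.log_pos (by linarith)
  have hW4 : 4 ≤ w.W := by
    have := w.KW
    have h1 := w.Kpos
    nlinarith
  obtain ⟨z1, _⟩ := hn2 N (le_trans (le_trans (le_max_left _ _) (le_max_right _ _)) hN) a w.W H (by omega)
  obtain ⟨v1, _⟩ := hn3 N (le_trans (le_trans (le_max_right _ _) (le_max_right _ _)) hN) a w.W p1 H
    hR.Wdef hR.cardH hR.nf
  have hva0 : 0 ≤ Va a w.W p1 H := le_trans (by positivity) v1
  have hvz0 : 0 ≤ Vz N w.W H a := le_trans (by positivity) z1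
  have hP : ∀ q ∈ Pg N w.W H a, q.Prime ∧ 3 ≤ q := by
    intro q hq
    unfold Pg at hq
    rw [Finset.mem_filter, Finset.mem_Ioc] at hq
    exact ⟨hq.2.1, by omega⟩
  have hzz : 2 ≤ zz N := le_trans hz0 g2
  have hlz : 0 < Real.log (zz N) := Real.log_pos (by linarith)
  have hD : Real.log (zz N ^ 3) = 3 * Real.log (zz N) := by
    rw [Real.log_pow]; push_cast; ring
  have hYab : (0 : ℝ) ≤ (Yb N : ℝ) - Ya N := by
    have : Ya N ≤ Yb N := by unfold Ya Yb; omega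
    have : (Ya N : ℝ) ≤ Yb N := by exact_mod_cast this
    linarith
  have hYu : (Yb N : ℝ) - Ya N ≤ (N : ℝ) / 10 + 1 := by
    have h3 : 10 * Yb N ≤ N + 10 * Ya N + 10 := by unfold Ya Yb; omega
    have h4 : 10 * (Yb N : ℝ) ≤ (N : ℝ) + 10 * (Ya N : ℝ) + 10 := by exact_mod_cast h3
    linarith
  have hXi0 : 0 ≤ Xi w H N a p1 := by
    unfold Xi
    exact mul_nonneg hYab (mul_nonneg hR.aen0 hva0)
  have hXi : Xi w H N a p1 ≤ N / 8 * Va a w.W p1 H := by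
    unfold Xi
    calc ((Yb N : ℝ) - Ya N) * (AE w.P H none (FC w H) * Va a w.W p1 H) ≤
          ((N : ℝ) / 10 + 1) * (11 / 10 * Va a w.W p1 H) :=
          mul_le_mul hYu (mul_le_mul_of_nonneg_right hR.aen hva0) (mul_nonneg hR.aen0 hva0) (by linarith)
      _ = (((N : ℝ) / 10 + 1) * (11 / 10)) * Va a w.W p1 H := by ring
      _ ≤ N / 8 * Va a w.W p1 H := by
          refine mul_le_mul_of_nonneg_right ?_ hva0
          linarith
  obtain ⟨hup, _⟩ := hjr (Pg N w.W H a) hP (zz N) (zz N ^ 3) g2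
    (by
      have : (1 : ℝ) ≤ zz N ^ 2 := one_le_pow₀ (by linarith)
      nlinarith)
    (Ioc (Ya N) (Yb N)) (Fs w H a p1 none) (fun t => t + a) (Xi w H N a p1) hXi0
    (fun t _ => sn_Fs w H a p1 none t)
  have hup := hup (by rw [hD])
  have hq : Real.log (zz N ^ 3) / Real.log (zz N) = 3 := by
    rw [hD]; field_simp
  rw [hq] at hup
  have hrem := le_trans (sn_rem (Ioc (Ya N) (Yb N)) (Fs w H a p1 none) (fun t => t + a) (Pg N w.W H a) (zz N)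
    (Xi w H N a p1) (zz N ^ 3 * Q0) (Lv N θ) (g3 θ hθ1)) hR.remI
  have hAA := Pool.Agent.Lib.H59C.AA_pos
  have hmain : Xi w H N a p1 * Vz N w.W H a * (AA / 3 + 1) ≤
      N / 8 * (Va a w.W p1 H * Vz N w.W H a * (AA / 3 + 1)) := by
    have h1 : 0 ≤ Vz N w.W H a * (AA / 3 + 1) := mul_nonneg hvz0 (by linarith)
    calc Xi w H N a p1 * Vz N w.W H a * (AA / 3 + 1) = Xi w H N a p1 * (Vz N w.W H a * (AA / 3 + 1)) := by ring
      _ ≤ N / 8 * Va a w.W p1 H * (Vz N w.W H a * (AA / 3 + 1)) := mul_le_mul_of_nonneg_right hXi h1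
      _ = _ := by ring
  unfold Ns
  calc _ ≤ Xi w H N a p1 * Pool.Agent.Lib.H59C.VV (Pg N w.W H a) (zz N) * (AA / 3 + 1) +
        Pool.Agent.Lib.H59C.remd (Ioc (Ya N) (Yb N)) (Fs w H a p1 none) (fun t => t + a) (Pg N w.W H a) (zz N)
          (Xi w H N a p1) (zz N ^ 3 * Q0) := hup
    _ ≤ _ := add_le_add hmain hrem

end Pool.Agent.Lib.H57T
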