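import Pool.Agent.Lib.H57T.FIN

/-!
# Project H57T: the final form of the theorem
-/

open Finset

namespace Pool.Agent.Lib.H57T

open Pool.Agent.Lib.H57C

/-- If some residue class modulo `q` contains no element of `A` then the bad classes of `H ∪ {a} ⊆ A` are not all
classes. -/
theorem main_Rb (A H : Finset ℕ) (a : ℕ) (hs : H ⊆ A) (ha : a ∈ A) (q : ℕ) (hq : q.Prime)
    (hn : ∃ r : ZMod q, ∀ b ∈ A, (b : ZMod q) ≠ r) : (Rb a H q).card < q := by
  obtain ⟨r, hr⟩ := hn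
  haveI : NeZero q := ⟨hq.ne_zero⟩
  set c : ℕ := (-r).val with hc
  have hcq : c < q := ZMod.val_lt _
  have hcr : (c : ZMod q) = -r := ZMod.natCast_zmod_val _
  have key : ∀ b ∈ A, ¬ q ∣ c + b := by
    intro b hb hd
    have h1 : ((c + b : ℕ) : ZMod q) = 0 := (ZMod.natCast_eq_zero_iff _ _).2 hd
    rw [Nat.cast_add, hcr] at h1
    apply hr b hb
    linear_combination h1
  have hcn : c ∉ Rb a H q := by
    intro hmem
    unfold Rb at hmem
    rw [mem_filter] at hmem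
    rcases hmem.2 with ⟨h, hh, hd⟩ | hd
    · exact key h (hs hh) hd
    · exact key a ha hd
  have hsub : Rb a H q ⊆ (range q).erase c := by
    intro y hy
    rw [mem_erase]
    exact ⟨fun h => hcn (h ▸ hy), rb_sub hy⟩
  calc (Rb a H q).card ≤ ((range q).erase c).card := card_le_card hsub
    _ = q - 1 := by rw [card_erase_of_mem (mem_range.mpr hcq), card_range]
    _ < q := Nat.sub_lt hq.pos one_pos

theorem main_even (A : Finset ℕ) (a h : ℕ) (ha : a ∈ A) (hh : h ∈ A)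
    (hn : ∃ r : ZMod 2, ∀ b ∈ A, (b : ZMod 2) ≠ r) : 2 ∣ a + h := by
  obtain ⟨r, hr⟩ := hn
  have h1 := hr a ha
  have h2 := hr h hh
  have h3 : ∀ x y r : ZMod 2, x ≠ r → y ≠ r → x + y = 0 := by decide
  have h4 := h3 _ _ _ h1 h2
  rw [← Nat.cast_add] at h4
  exact (ZMod.natCast_eq_zero_iff _ _).1 h4

theorem main_log (B : ℕ) : ∃ x1 : ℝ, ∀ x : ℝ, x1 ≤ x → 1 ≤ x ∧ 1 ≤ Real.log x ∧
    2 ≤ Real.log x ∧ x / 2 ≤ (⌊x⌋₊ : ℝ) ∧ x ^ (1 / 11 : ℝ) ≤ (⌊x⌋₊ : ℝ) ^ (1 / 10 : ℝ) := by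
  have h1 : ∀ᶠ x : ℝ in Filter.atTop, 2 ≤ Real.log x := Real.tendsto_log_atTop.eventually_ge_atTop 2
  have h2 : ∀ᶠ x : ℝ in Filter.atTop, (2 : ℝ) ≤ x ^ (1 / 110 : ℝ) :=
    (tendsto_rpow_atTop (by norm_num : (0 : ℝ) < 1 / 110)).eventually_ge_atTop 2
  have h3 := (h1.and h2).and (Filter.eventually_ge_atTop (2 : ℝ))
  obtain ⟨x1, hx1⟩ := Filter.eventually_atTop.1 h3
  refine ⟨x1, fun x hx => ?_⟩
  obtain ⟨⟨a1, a2⟩, a3⟩ := hx1 x hx
  have h4 : x < (⌊x⌋₊ : ℝ) + 1 := Nat.lt_floor_add_one x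
  have h5 : x / 2 ≤ (⌊x⌋₊ : ℝ) := by linarith
  refine ⟨by linarith, by linarith, a1, h5, ?_⟩
  have h6 : (x / 2) ^ (1 / 10 : ℝ) ≤ (⌊x⌋₊ : ℝ) ^ (1 / 10 : ℝ) :=
    Real.rpow_le_rpow (by linarith) h5 (by norm_num)
  refine le_trans ?_ h6
  have h7 : (2 : ℝ) ^ (1 / 10 : ℝ) ≤ 2 := by
    calc (2 : ℝ) ^ (1 / 10 : ℝ) ≤ (2 : ℝ) ^ (1 : ℝ) :=
          Real.rpow_le_rpow_of_exponent_le (by norm_num) (by norm_num)
      _ = 2 := Real.rpow_one _
  have h8 : x ^ (1 / 10 : ℝ) = x ^ (1 / 11 : ℝ) * x ^ (1 / 110 : ℝ) := by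
    rw [← Real.rpow_add (by linarith)]
    norm_num
  rw [Real.div_rpow (by linarith) (by norm_num), h8, le_div_iff₀ (by positivity)]
  exact mul_le_mul_of_nonneg_left (h7.trans a2) (by positivity)

open Classical in
/-- **Chen-Maynard-Tao, uniformly in the shifts.** -/
theorem main : ∃ c : ℝ, 0 < c ∧ ∃ k0 : ℕ, ∀ k : ℕ, k0 ≤ k → ∃ (B : ℕ) (x0 : ℝ), ∀ x : ℝ, x0 ≤ x →
    ∀ A : Finset ℕ, k ≤ A.card →
    (∀ p : ℕ, p.Prime → ∃ r : ZMod p, ∀ b ∈ A, (b : ZMod p) ≠ r) →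
    (∀ b ∈ A, (b : ℝ) ≤ x / 100) → ∀ a ∈ A,
      x / Real.log x ^ B ≤ ((((Icc 1 ⌊x⌋₊).filter (fun n =>
        ((∀ q : ℕ, q.Prime → q ∣ n + a → x ^ (1 / 11 : ℝ) ≤ q) ∧
          ((n + a).Prime ∨ ∃ r s : ℕ, r.Prime ∧ s.Prime ∧ n + a = r * s)) ∧
        c * Real.log k ≤ (((A.erase a).filter (fun b => (n + b).Prime)).card : ℝ))).card : ℕ) : ℝ) := by
  classical
  obtain ⟨C, hC, hmain⟩ := gd_card
  refine ⟨1 / (2 * C), by positivity, ⌈Real.exp (2 * C + 2)⌉₊ + 2, fun k hk => ?_⟩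
  have hk2 : (2 : ℝ) ≤ k := by exact_mod_cast (by omega : 2 ≤ k)
  have hke : Real.exp (2 * C + 2) ≤ k := by
    refine (Nat.le_ceil _).trans ?_
    exact_mod_cast (by omega : ⌈Real.exp (2 * C + 2)⌉₊ ≤ k)
  have hlk : 2 * C + 2 ≤ Real.log k := (Real.le_log_iff_exp_le (by linarith)).2 hke
  have hlk1 : Real.log k - 1 ≤ Real.log ((k : ℝ) - 1) := by
    have h1 : (k : ℝ) / 2 ≤ (k : ℝ) - 1 := by linarith
    have h2 := Real.log_le_log (by linarith) h1
    rw [Real.log_div (by linarith) (by norm_num)] at h2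
    linarith [Real.log_two_lt_d9]
  obtain ⟨g, hg⟩ : ∃ g : ℕ, g = ⌊Real.log ((k : ℝ) - 1) / C⌋₊ := ⟨_, rfl⟩
  have hq0 : 0 ≤ Real.log ((k : ℝ) - 1) / C := div_nonneg (by linarith) hC.le
  have hgle : (g : ℝ) ≤ Real.log ((k : ℝ) - 1) / C := by rw [hg]; exact Nat.floor_le hq0
  have hggt : Real.log ((k : ℝ) - 1) / C < g + 1 := by rw [hg]; exact Nat.lt_floor_add_one _
  have hg1 : 1 ≤ g := by
    rw [hg]
    apply Nat.le_floor
    rw [Nat.cast_one, le_div_iff₀ hC]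
    linarith
  have hgc : 1 / (2 * C) * Real.log k ≤ g := by
    have h1 : 1 / (2 * C) * Real.log k + 1 ≤ Real.log ((k : ℝ) - 1) / C := by
      rw [le_div_iff₀ hC]
      have h2 : (1 / (2 * C) * Real.log k + 1) * C = Real.log k / 2 + C := by
        field_simp
      rw [h2]
      linarith
    linarith
  obtain ⟨K, B, n0, hK1, hKe, hgd⟩ := hmain g hg1
  have hKk : K ≤ k - 1 := by
    have h1 : Real.exp (C * g) ≤ (k : ℝ) - 1 := by
      rw [← Real.le_log_iff_exp_le (by linarith)]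
      rw [le_div_iff₀ hC] at hgle
      linarith
    have h2 : (K : ℝ) ≤ ((k - 1 : ℕ) : ℝ) := by
      rw [Nat.cast_sub (by omega : 1 ≤ k), Nat.cast_one]
      linarith
    exact_mod_cast h2
  obtain ⟨x1, hx1⟩ := main_log B
  refine ⟨B + 1, max x1 (2 * n0 + 100), fun x hx A hA hadm hAx a ha => ?_⟩
  obtain ⟨y1, y2, y3, y4, y5⟩ := hx1 x ((le_max_left _ _).trans hx)
  have hxn : (2 * n0 + 100 : ℝ) ≤ x := (le_max_right _ _).trans hx
  obtain ⟨N, hN⟩ : ∃ N : ℕ, N = ⌊x⌋₊ := ⟨_, rfl⟩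
  rw [← hN] at y4 y5 ⊢
  have hNn0 : n0 ≤ N := by
    have h1 : (n0 : ℝ) ≤ N := by linarith
    exact_mod_cast h1
  have hN50 : 50 ≤ N := by
    have h1 : (50 : ℝ) ≤ N := by linarith [Nat.cast_nonneg (α := ℝ) n0]
    exact_mod_cast h1
  have hNx : (N : ℝ) ≤ x := by rw [hN]; exact Nat.floor_le (by linarith)
  have hA100 : ∀ b ∈ A, 100 * b ≤ N := by
    intro b hb
    rw [hN]
    apply Nat.le_floor
    push_cast
    have := hAx b hb
    linarith
  have hcard : K ≤ (A.erase a).card := by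
    rw [card_erase_of_mem ha]
    omega
  obtain ⟨H, hHs, hHc⟩ := exists_subset_card_eq hcard
  have hHA : H ⊆ A := hHs.trans (erase_subset _ _)
  have haH : a ∉ H := fun h => (mem_erase.1 (hHs h)).1 rfl
  have h1 := hgd N hNn0 H hHc a (fun h hh => hA100 h (hHA hh)) (hA100 a ha) haH
    (fun h hh => main_even A a h ha (hHA hh) (hadm 2 Nat.prime_two))
    (fun q hq => main_Rb A H a hHA ha q hq (hadm q hq))
  have hsub : Gd H N a g ⊆ (Icc 1 N).filter (fun n =>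
        ((∀ q : ℕ, q.Prime → q ∣ n + a → x ^ (1 / 11 : ℝ) ≤ q) ∧
          ((n + a).Prime ∨ ∃ r s : ℕ, r.Prime ∧ s.Prime ∧ n + a = r * s)) ∧
        1 / (2 * C) * Real.log k ≤ (((A.erase a).filter (fun b => (n + b).Prime)).card : ℝ)) := by
    intro t ht
    unfold Gd at ht
    rw [mem_filter, mem_Ioc] at ht
    obtain ⟨⟨ht1, ht2⟩, ht3, ht4, ht5⟩ := ht
    rw [mem_filter, mem_Icc]
    refine ⟨⟨by omega, ?_⟩, ⟨fun q hq hd => y5.trans (ht4 q hq hd), ht5⟩, ?_⟩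
    · unfold Yb at ht2
      omega
    · have h2 : g ≤ ((A.erase a).filter (fun b => (t + b).Prime)).card :=
        ht3.trans (card_le_card (filter_subset_filter _ hHs))
      have h3 : (g : ℝ) ≤ (((A.erase a).filter (fun b => (t + b).Prime)).card : ℝ) := by
        exact_mod_cast h2
      linarith
  have h2 : x / Real.log x ^ (B + 1) ≤ N / Real.log N ^ B := by
    have hN1 : (1 : ℝ) < N := by
      have : (50 : ℝ) ≤ N := by exact_mod_cast hN50
      linarith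
    have hlN : 0 < Real.log N := Real.log_pos hN1
    have hlNx : Real.log N ≤ Real.log x := Real.log_le_log (by linarith) hNx
    have h3 : Real.log N ^ B ≤ Real.log x ^ B := pow_le_pow_left₀ hlN.le hlNx B
    have h4 : 0 < Real.log N ^ B := by positivity
    calc x / Real.log x ^ (B + 1) = (x / Real.log x) / Real.log x ^ B := by
          rw [pow_succ, div_div, mul_comm]
      _ ≤ N / Real.log x ^ B := by
          refine div_le_div_of_nonneg_right ?_ (by positivity)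
          refine le_trans ?_ y4
          exact div_le_div_of_nonneg_left (by linarith) (by norm_num) y3
      _ ≤ N / Real.log N ^ B := div_le_div_of_nonneg_left (by linarith) h4 h3
  refine h2.trans (h1.trans ?_)
  exact_mod_cast card_le_card hsub

end Pool.Agent.Lib.H57T
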